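import Mathlib
import Pool.Agent.H2.EL.Def
import Pool.Agent.H2.SpTwist

/-!
Definitions for the hand-in `MetricAllCofactors` (MP_0c9a68_nt), paper proof: table proofs, row 367.

`Osc V ψ`: measurable, bounded by `1`, `1`-periodic, mean zero, `L¹`-Lipschitz with constant `V`.
`Mo T M R`: measurable, bounded by `1`, `∫_{-T}^{T} ‖R (α + s) - R α‖ ≤ M s` for `s ≥ 0`.
`Dat`: the data of the theorem. `D.fv α p` = the prescribed value at the prime `p`;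
`ex n` = the primes dividing `n` exactly once; `D.U α n` = product of `D.fv α p` over `p ∈ ex n`.
`Frm r`: `r` pairwise non-proportional affine forms. `Dom`: `q` is the dominating prime at `t`.
-/

set_option autoImplicit false

open Finset MeasureTheory

namespace Pool.H2.MT

/-- oscillating function -/
structure Osc (V : ℝ) (ψ : ℝ → ℂ) : Prop where
  meas : Measurable ψ
  bd : ∀ x, ‖ψ x‖ ≤ 1
  per : ∀ x, ψ (x + 1) = ψ x
  mean : ∫ x in (0 : ℝ)..1, ψ x = 0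
  lip : ∀ h : ℝ, ∫ x in (0 : ℝ)..1, ‖ψ (x + h) - ψ x‖ ≤ V * |h|

/-- function with `L¹` modulus of continuity `M` on `[-T, T]` -/
structure Mo (T M : ℝ) (R : ℝ → ℂ) : Prop where
  meas : Measurable R
  bd : ∀ x, ‖R x‖ ≤ 1
  mo : ∀ s : ℝ, 0 ≤ s → ∫ x in (-T)..T, ‖R (x + s) - R x‖ ≤ M * s

/-- the data -/
structure Dat where
  P : Set ℕ
  κ : ℝ
  V : ℝ
  a : ℕ → ℝ
  ψ : ℕ → ℝ → ℂ
  v : ℕ → ℂ
  prime : ∀ p ∈ P, p.Prime
  kpos : 0 < κ
  apos : ∀ p ∈ P, 0 < a p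
  grow : ∀ p ∈ P, ∀ q ∈ P, p < q → ((q : ℝ) / p) ^ κ * a p ≤ a q
  osc : ∀ p ∈ P, Osc V (ψ p)
  vbd : ∀ p, ‖v p‖ ≤ 1

open Classical in
/-- the prescribed value at a prime -/
noncomputable def Dat.fv (D : Dat) (α : ℝ) (p : ℕ) : ℂ :=
  if p ∈ D.P then D.ψ p (α * D.a p) else D.v p

/-- primes dividing `n` exactly once -/
def ex (n : ℕ) : Finset ℕ := n.primeFactors.filter (fun p => ¬ p ^ 2 ∣ n)

/-- the part of the value at `n` coming from the primes dividing `n` exactly once -/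
noncomputable def Dat.U (D : Dat) (α : ℝ) (n : ℕ) : ℂ := ∏ p ∈ ex n, D.fv α p

/-- pairwise non-proportional affine forms `A l * t + B l` -/
structure Frm (r : ℕ) where
  A : Fin r → ℕ
  B : Fin r → ℕ
  pos : ∀ l, 1 ≤ A l
  ne : ∀ l l', l ≠ l' → A l * B l' ≠ A l' * B l

/-- the value of a form -/
def Frm.L {r : ℕ} (E : Frm r) (l : Fin r) (t : ℕ) : ℕ := E.A l * t + E.B l

/-- `q ∈ P` is larger than `Y`, divides exactly one of the values at `t`, exactly once, and all other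
primes of `P` dividing one of the values are at most `q / F` -/
def Dom (P : Set ℕ) {r : ℕ} (E : Frm r) (Y F t q : ℕ) : Prop :=
  q ∈ P ∧ q.Prime ∧ Y < q ∧
  (∃ l, q ∣ E.L l t ∧ ¬ q ^ 2 ∣ E.L l t ∧ ∀ l', l' ≠ l → ¬ q ∣ E.L l' t) ∧
  ∀ p ∈ P, p.Prime → p ≠ q → (∃ l, p ∣ E.L l t) → F * p ≤ q

/-- `t` is good -/
def Good (P : Set ℕ) {r : ℕ} (E : Frm r) (Y F t : ℕ) : Prop := 1 ≤ t ∧ ∃ q, Dom P E Y F t q

lemma Osc.V_nonneg {V : ℝ} {ψ : ℝ → ℂ} (h : Osc V ψ) : 0 ≤ V := by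
  have h1 := h.lip 1
  have h2 : 0 ≤ ∫ x in (0 : ℝ)..1, ‖ψ (x + 1) - ψ x‖ :=
    intervalIntegral.integral_nonneg zero_le_one fun x _ => norm_nonneg _
  rw [abs_one, mul_one] at h1
  exact h2.trans h1

lemma Dat.fv_norm (D : Dat) (α : ℝ) (p : ℕ) : ‖D.fv α p‖ ≤ 1 := by
  unfold Dat.fv
  split_ifs with h
  · exact (D.osc p h).bd _
  · exact D.vbd p

lemma Dat.U_norm (D : Dat) (α : ℝ) (n : ℕ) : ‖D.U α n‖ ≤ 1 := by
  unfold Dat.U
  rw [norm_prod]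
  exact prod_le_one (fun _ _ => norm_nonneg _) fun p _ => D.fv_norm α p

lemma Frm.L_pos {r : ℕ} (E : Frm r) (l : Fin r) {t : ℕ} (ht : 1 ≤ t) : 1 ≤ E.L l t := by
  unfold Frm.L
  have := Nat.mul_le_mul (E.pos l) ht
  omega

end Pool.H2.MT
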