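import Mathlib
import Pool.Agent.H2.SpDiv

/-!
Module SQD (elementary, 30 min). Few `t` have a large square dividing `A t + B`.

For `q ≥ 1` the number of `t < x` with `q² ∣ A t + B` is `≤ A (x/q² + 1)` (`t` is in at most `gcd(A, q²) ≤ A` classes mod `q²`; simplest:
`t ↦ (A t + B)/q²` is injective with values `≤ (A x + B)/q²`, so the number is `≤ (A x + B)/q² + 1`). `t ≥ 1` and `q² ∣ A t + B` give
`q² ≤ (A + B) x`. Sum over `q > Y`, `q ≤ √((A+B)x)`: `≤ ∑_{q>Y} (A+B) x/q² + √((A+B) x) ≤ (A+B) x/Y + √((A+B) x)`.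
`sqd_el`: `Y = el x ^ c ≥ el x → ∞` (`c ≥ 1`).
-/

set_option autoImplicit false

open Finset Filter Topology

namespace Pool.H2.MT

open Classical in
theorem sqd (A B : ℕ) (hA : 1 ≤ A) (x Y : ℕ) (hY : 1 ≤ Y) :
    (((range x).filter (fun t => 1 ≤ t ∧ ∃ q, Y < q ∧ q ^ 2 ∣ A * t + B)).card : ℝ) ≤
      (A + B) * x / Y + Real.sqrt ((A + B) * x) := by
  set M := Nat.sqrt ((A + B) * x) with hM
  have hbd : ∀ t, 1 ≤ t → t < x → A * t + B ≤ (A + B) * x := by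
    intro t h1 h2
    have e1 : A * t ≤ A * x := Nat.mul_le_mul_left _ h2.le
    have e2 : B * 1 ≤ B * x := Nat.mul_le_mul_left _ (by omega)
    nlinarith
  have hsub : (range x).filter (fun t => 1 ≤ t ∧ ∃ q, Y < q ∧ q ^ 2 ∣ A * t + B) ⊆
      (Ioc Y M).biUnion (fun q => (range x).filter (fun t => 1 ≤ t ∧ q ^ 2 ∣ A * t + B)) := by
    intro t ht
    rw [mem_filter, mem_range] at ht
    obtain ⟨htx, ht1, q, hq, hd⟩ := ht
    rw [mem_biUnion]
    refine ⟨q, ?_, ?_⟩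
    · rw [mem_Ioc]
      refine ⟨hq, ?_⟩
      rw [hM, Nat.le_sqrt']
      have hp : 0 < A * t + B := by
        have := Nat.mul_le_mul hA ht1
        omega
      exact (Nat.le_of_dvd hp hd).trans (hbd t ht1 htx)
    · rw [mem_filter, mem_range]
      exact ⟨htx, ht1, hd⟩
  have hcard : ∀ q ∈ Ioc Y M,
      (((range x).filter (fun t => 1 ≤ t ∧ q ^ 2 ∣ A * t + B)).card : ℝ) ≤
        ((A + B) * x : ℝ) * ((q : ℝ) ^ 2)⁻¹ := by
    intro q hq
    rw [mem_Ioc] at hq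
    have hq0 : 0 < q ^ 2 := by
      have : 0 < q := by omega
      positivity
    have h1 : ((range x).filter (fun t => 1 ≤ t ∧ q ^ 2 ∣ A * t + B)).card ≤
        (Icc 1 ((A + B) * x / q ^ 2)).card := by
      refine Finset.card_le_card_of_injOn (fun t => (A * t + B) / q ^ 2) ?_ ?_
      · intro t ht
        rw [Finset.mem_coe, mem_filter, mem_range] at ht
        obtain ⟨htx, ht1, hd⟩ := ht
        have hp : 0 < A * t + B := by
          have := Nat.mul_le_mul hA ht1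
          omega
        show (A * t + B) / q ^ 2 ∈ ((Icc 1 ((A + B) * x / q ^ 2) : Finset ℕ) : Set ℕ)
        rw [Finset.mem_coe, mem_Icc]
        refine ⟨?_, ?_⟩
        · exact Nat.div_pos (Nat.le_of_dvd hp hd) hq0
        · exact Nat.div_le_div_right (hbd t ht1 htx)
      · intro t ht t' ht' he
        rw [Finset.mem_coe, mem_filter, mem_range] at ht ht'
        obtain ⟨_, _, hd⟩ := ht
        obtain ⟨_, _, hd'⟩ := ht'
        simp only at he
        have e1 := Nat.div_mul_cancel hd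
        have e2 := Nat.div_mul_cancel hd'
        rw [he] at e1
        have e3 := e1.symm.trans e2
        have e4 : A * t = A * t' := by omega
        exact Nat.eq_of_mul_eq_mul_left (by omega) e4
    rw [Nat.card_Icc, Nat.add_sub_cancel] at h1
    have h2 : (((A + B) * x / q ^ 2 : ℕ) : ℝ) ≤ (((A + B) * x : ℕ) : ℝ) / ((q ^ 2 : ℕ) : ℝ) :=
      Nat.cast_div_le
    calc (((range x).filter (fun t => 1 ≤ t ∧ q ^ 2 ∣ A * t + B)).card : ℝ)
        ≤ (((A + B) * x / q ^ 2 : ℕ) : ℝ) := by exact_mod_cast h1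
      _ ≤ _ := h2
      _ = ((A + B) * x : ℝ) * ((q : ℝ) ^ 2)⁻¹ := by
        push_cast
        rw [div_eq_mul_inv]
  have hY0 : (0 : ℝ) < Y := by exact_mod_cast hY
  have hc0 : (0 : ℝ) ≤ (A + B) * x := by positivity
  have hsum : ∑ q ∈ Ioc Y M, ((q : ℝ) ^ 2)⁻¹ ≤ (Y : ℝ)⁻¹ := by
    rcases le_or_gt Y M with h | h
    · have := sum_Ioc_inv_sq_le_sub (α := ℝ) (k := Y) (n := M) (by omega) h
      have h2 : (0 : ℝ) ≤ (M : ℝ)⁻¹ := by positivity
      linarith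
    · rw [Ioc_eq_empty (by omega), sum_empty]
      positivity
  calc (((range x).filter (fun t => 1 ≤ t ∧ ∃ q, Y < q ∧ q ^ 2 ∣ A * t + B)).card : ℝ)
      ≤ (((Ioc Y M).biUnion
          (fun q => (range x).filter (fun t => 1 ≤ t ∧ q ^ 2 ∣ A * t + B))).card : ℝ) := by
        exact_mod_cast Finset.card_le_card hsub
    _ ≤ ((∑ q ∈ Ioc Y M, ((range x).filter (fun t => 1 ≤ t ∧ q ^ 2 ∣ A * t + B)).card : ℕ) : ℝ) := by
        exact_mod_cast Finset.card_biUnion_le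
    _ = ∑ q ∈ Ioc Y M, (((range x).filter (fun t => 1 ≤ t ∧ q ^ 2 ∣ A * t + B)).card : ℝ) := by
        push_cast
        rfl
    _ ≤ ∑ q ∈ Ioc Y M, ((A + B) * x : ℝ) * ((q : ℝ) ^ 2)⁻¹ := Finset.sum_le_sum hcard
    _ = ((A + B) * x : ℝ) * ∑ q ∈ Ioc Y M, ((q : ℝ) ^ 2)⁻¹ := by rw [Finset.mul_sum]
    _ ≤ ((A + B) * x : ℝ) * (Y : ℝ)⁻¹ := mul_le_mul_of_nonneg_left hsum hc0
    _ = (A + B) * x / Y := by rw [div_eq_mul_inv]
    _ ≤ (A + B) * x / Y + Real.sqrt ((A + B) * x) := by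
        have := Real.sqrt_nonneg ((A + B) * x : ℝ)
        linarith

open Classical in
theorem sqd_el (A B : ℕ) (hA : 1 ≤ A) (c : ℕ) (hc : 1 ≤ c) (ε : ℝ) (hε : 0 < ε) :
    ∃ x0 : ℕ, ∀ x : ℕ, x0 ≤ x →
    (((range x).filter (fun t => 1 ≤ t ∧ ∃ q, Pool.H2.Sp.el x ^ c < q ∧ q ^ 2 ∣ A * t + B)).card : ℝ) ≤
      ε * x := by
  have hlog : Tendsto (fun x : ℕ => Real.log x) atTop atTop :=
    Real.tendsto_log_atTop.comp tendsto_natCast_atTop_atTop
  have h1 := hlog.eventually_ge_atTop (2 * (A + B) / ε)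
  have h2 : ∀ᶠ x : ℕ in atTop, 4 * (A + B) / ε ^ 2 ≤ (x : ℝ) :=
    tendsto_natCast_atTop_atTop.eventually_ge_atTop _
  obtain ⟨x0, hx0⟩ := (h1.and h2).exists_forall_of_atTop
  refine ⟨x0, fun x hx => ?_⟩
  obtain ⟨g1, g2⟩ := hx0 x hx
  have hel : 1 ≤ Pool.H2.Sp.el x := Pool.H2.Sp.el_pos x
  have hY1 : 1 ≤ Pool.H2.Sp.el x ^ c := Nat.one_le_pow _ _ hel
  refine (sqd A B hA x (Pool.H2.Sp.el x ^ c) hY1).trans ?_
  have hge : Real.log x ≤ ((Pool.H2.Sp.el x ^ c : ℕ) : ℝ) := by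
    have e1 : (Pool.H2.Sp.el x : ℝ) ≤ ((Pool.H2.Sp.el x ^ c : ℕ) : ℝ) := by
      exact_mod_cast Nat.le_self_pow (by omega) _
    exact (Pool.H2.Sp.log_lt_el x).le.trans e1
  have hAB : (0 : ℝ) < (A : ℝ) + B := by
    have : (1 : ℝ) ≤ A := by exact_mod_cast hA
    have : (0 : ℝ) ≤ B := by positivity
    linarith
  have hY0 : (0 : ℝ) < ((Pool.H2.Sp.el x ^ c : ℕ) : ℝ) := by exact_mod_cast hY1
  have hx0' : (0 : ℝ) ≤ x := by positivity
  have k1 : ((A : ℝ) + B) * x / ((Pool.H2.Sp.el x ^ c : ℕ) : ℝ) ≤ ε / 2 * x := by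
    rw [div_le_iff₀ hY0]
    have : 2 * ((A : ℝ) + B) / ε ≤ ((Pool.H2.Sp.el x ^ c : ℕ) : ℝ) := g1.trans hge
    rw [div_le_iff₀ hε] at this
    nlinarith
  have k2 : Real.sqrt (((A : ℝ) + B) * x) ≤ ε / 2 * x := by
    apply Real.sqrt_le_iff.2
    refine ⟨by positivity, ?_⟩
    rw [div_le_iff₀ (by positivity)] at g2
    nlinarith
  linarith

end Pool.H2.MT
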