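import Mathlib
import Pool.Agent.H2.MT.Sqd
import Pool.Agent.H2.MT.Def

/-!
Module SQT (45 min, elementary). Squarefull parts.

`ex n` = primes dividing `n` exactly once, `sq n = n / ∏ p ∈ ex n, p`. For `n ≥ 1`: `n = sq n * ∏_{p∈ex n} p`, the two factors are coprime, and every prime dividing `sq n` has
`p² ∣ sq n`. For `f` multiplicative `f n = f (sq n) * ∏_{p ∈ ex n} f p` (`IsMultiplicative.map_mul_of_coprime`, and `f (∏ p) = ∏ f p` over distinct primes:
`ArithmeticFunction.IsMultiplicative.map_prod_of_subset_primeFactors` or induction).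
`sqt`: if `sq n > S` then `m² ∣ n` for some `m` with `m³ > S`: `m = ∏ p^(e/2)` (integer part), `e = v_p(sq n) ≥ 2`, `3 ⌊e/2⌋ ≥ e`, so `m³ ≥ sq n`. So the number of `t < x`, `t ≥ 1`, with
`sq (A t + B) > S` is at most the bound of `sqd` with `Y` = the largest natural number with `Y³ ≤ S` (`≥ 1`, tends to infinity with `S`).
-/

set_option autoImplicit false

open Finset

namespace Pool.H2.MT

/-- the squarefull part -/
def sq (n : ℕ) : ℕ := n / ∏ p ∈ ex n, p

private lemma ex_prime {n p : ℕ} (h : p ∈ ex n) : p.Prime ∧ p ∣ n ∧ ¬ p ^ 2 ∣ n ∧ n ≠ 0 := by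
  unfold ex at h
  rw [mem_filter, Nat.mem_primeFactors] at h
  exact ⟨h.1.1, h.1.2.1, h.2, h.1.2.2⟩

private lemma prod_ex_dvd (n : ℕ) : ∏ p ∈ ex n, p ∣ n :=
  (Finset.prod_dvd_prod_of_subset _ _ _ (filter_subset _ _)).trans (Nat.prod_primeFactors_dvd n)

theorem sq_mul (n : ℕ) (_hn : 1 ≤ n) : sq n * ∏ p ∈ ex n, p = n :=
  Nat.div_mul_cancel (prod_ex_dvd n)

private lemma not_dvd_sq {n p : ℕ} (h : p ∈ ex n) : ¬ p ∣ sq n := by
  obtain ⟨hp, _, h2, hn⟩ := ex_prime h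
  intro h3
  apply h2
  have h4 := sq_mul n (Nat.one_le_iff_ne_zero.2 hn)
  rw [← h4, pow_two]
  exact mul_dvd_mul h3 (Finset.dvd_prod_of_mem _ h)

private lemma cop (n : ℕ) : Nat.Coprime (sq n) (∏ p ∈ ex n, p) := by
  apply Nat.Coprime.prod_right
  intro p hp
  exact ((ex_prime hp).1.coprime_iff_not_dvd.2 (not_dvd_sq hp)).symm

theorem f_sq (f : ArithmeticFunction ℂ) (hf : f.IsMultiplicative) (n : ℕ) (hn : 1 ≤ n) :
    f n = f (sq n) * ∏ p ∈ ex n, f p := by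
  conv_lhs => rw [← sq_mul n hn]
  rw [hf.map_mul_of_coprime (cop n)]
  congr 1
  exact hf.map_prod_of_prime _ fun p hp => (ex_prime hp).1

private lemma sq_pos {n : ℕ} (hn : 1 ≤ n) : 1 ≤ sq n := by
  have h := sq_mul n hn
  rcases Nat.eq_zero_or_pos (sq n) with h0 | h0
  · rw [h0, zero_mul] at h
    omega
  · exact h0

private lemma two_le (n : ℕ) (hn : 1 ≤ n) (p : ℕ) (hp : p ∈ (sq n).primeFactors) :
    2 ≤ (sq n).factorization p := by
  rw [Nat.mem_primeFactors] at hp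
  obtain ⟨hpp, hpd, _⟩ := hp
  have hs := sq_mul n hn
  have hpn : p ∣ n := by rw [← hs]; exact hpd.mul_right _
  have hex : p ∉ ex n := fun h => not_dvd_sq h hpd
  have h2 : p ^ 2 ∣ n := by
    by_contra hcon
    exact hex (by unfold ex; rw [mem_filter, Nat.mem_primeFactors]; exact ⟨⟨hpp, hpn, by omega⟩, hcon⟩)
  have h3 : Nat.Coprime (p ^ 2) (∏ q ∈ ex n, q) := by
    apply Nat.Coprime.prod_right
    intro q hq
    apply Nat.Coprime.pow_left
    rw [Nat.coprime_primes hpp (ex_prime hq).1]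
    rintro rfl
    exact hex hq
  have h4 : p ^ 2 ∣ sq n := by
    rw [← hs] at h2
    exact h3.dvd_of_dvd_mul_right h2
  exact (hpp.pow_dvd_iff_le_factorization (by have := sq_pos hn; omega)).1 h4

private lemma exists_m (n S : ℕ) (hn : 1 ≤ n) (h : S < sq n) : ∃ m : ℕ, m ^ 2 ∣ n ∧ S < m ^ 3 := by
  have hs0 : sq n ≠ 0 := by omega
  refine ⟨∏ p ∈ (sq n).primeFactors, p ^ ((sq n).factorization p / 2), ?_, ?_⟩
  · refine dvd_trans ?_ (Dvd.intro _ (sq_mul n hn))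
    rw [← Finset.prod_pow]
    conv_rhs => rw [← Nat.prod_factorization_pow_eq_self hs0]
    rw [Finsupp.prod, Nat.support_factorization]
    apply Finset.prod_dvd_prod_of_dvd
    intro p _
    rw [← pow_mul]
    exact pow_dvd_pow p (by omega)
  · refine lt_of_lt_of_le h ?_
    conv_lhs => rw [← Nat.prod_factorization_pow_eq_self hs0]
    rw [Finsupp.prod, Nat.support_factorization, ← Finset.prod_pow]
    apply Finset.prod_le_prod'
    intro p hp
    rw [← pow_mul]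
    have h1 := two_le n hn p hp
    exact Nat.pow_le_pow_right (Nat.prime_of_mem_primeFactors hp).pos (by omega)

open Classical in
theorem sqt (A B : ℕ) (hA : 1 ≤ A) (ε : ℝ) (hε : 0 < ε) : ∃ S x0 : ℕ, ∀ x : ℕ, x0 ≤ x →
    (((range x).filter (fun t => 1 ≤ t ∧ S < sq (A * t + B))).card : ℝ) ≤ ε * x := by
  have hA' : (1 : ℝ) ≤ A := by exact_mod_cast hA
  have hB' : (0 : ℝ) ≤ B := Nat.cast_nonneg B
  have hAB : (0 : ℝ) < (A : ℝ) + B := by linarith
  obtain ⟨Y, hY⟩ := exists_nat_gt (2 * ((A : ℝ) + B) / ε)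
  have hY0 : (0 : ℝ) < Y := lt_trans (by positivity) hY
  have hY1 : 1 ≤ Y := by exact_mod_cast hY0
  obtain ⟨x0, hx0⟩ := exists_nat_gt (4 * ((A : ℝ) + B) / ε ^ 2)
  refine ⟨Y ^ 3, x0, fun x hx => ?_⟩
  have hxr : (x0 : ℝ) ≤ x := by exact_mod_cast hx
  have h1 : (((range x).filter (fun t => 1 ≤ t ∧ Y ^ 3 < sq (A * t + B))).card : ℝ) ≤
      (((range x).filter (fun t => 1 ≤ t ∧ ∃ q, Y < q ∧ q ^ 2 ∣ A * t + B)).card : ℝ) := by
    norm_cast
    apply card_le_card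
    intro t ht
    rw [mem_filter] at ht ⊢
    refine ⟨ht.1, ht.2.1, ?_⟩
    have hn : 1 ≤ A * t + B := by
      have := Nat.mul_le_mul hA ht.2.1
      omega
    obtain ⟨m, hm1, hm2⟩ := exists_m _ _ hn ht.2.2
    exact ⟨m, lt_of_pow_lt_pow_left₀ 3 (Nat.zero_le _) hm2, hm1⟩
  refine h1.trans ((sqd A B hA x Y hY1).trans ?_)
  have h2 : ((A : ℝ) + B) * x / Y ≤ ε / 2 * x := by
    rw [div_le_iff₀ hY0]
    rw [div_lt_iff₀ hε] at hY
    have : (0 : ℝ) ≤ x := Nat.cast_nonneg x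
    nlinarith
  have h3 : Real.sqrt (((A : ℝ) + B) * x) ≤ ε / 2 * x := by
    rw [Real.sqrt_le_left (by positivity)]
    rw [div_lt_iff₀ (by positivity)] at hx0
    have hx' : 4 * ((A : ℝ) + B) ≤ x * ε ^ 2 := by
      nlinarith [sq_nonneg ε]
    have : (0 : ℝ) ≤ x := Nat.cast_nonneg x
    nlinarith
  linarith

end Pool.H2.MT
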