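import Mathlib
import Pool.Agent.H2.MT.Def

/-!
Module AVG (elementary, 60 min). Averages over rotations (proofs row 367, Lemma A3).

Let `w = V ≥ 0` (`Osc.V_nonneg`). Write `‖·‖₁` for the `L¹` norm over one period; by periodicity it is invariant under translation
(`Function.Periodic.intervalIntegral_add_eq`).
(1) Replace `j θ` by `j c / b`: `‖ψ(· + jθ) - ψ(· + jc/b)‖₁ ≤ V |jθ - jc/b| ≤ V b |θ - c/b|` for `j < b` (`Osc.lip` after translation).
(2) `∑_{j<b} ψ(x + j c / b) = ∑_{i<b} ψ(x + i/b)`: `j c mod b` runs over the classes mod `b` (`gcd(c,b) = 1`) and `ψ` has period `1`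
(bijection of `Finset.range b` given by `j ↦ (j c) mod b`, `Int.emod`; or `ZMod b` and multiplication by the unit `c`).
(3) `∫_0^1 ψ = 0` gives `∫_x^{x+1} ψ = 0`, i.e. `∑_{i<b} ∫_0^{1/b} ψ(x + i/b + s) ds = 0`, so
`(1/b) ∑_i ψ(x + i/b) = ∑_i ∫_0^{1/b} (ψ(x + i/b) - ψ(x + i/b + s)) ds`, and by Fubini the `L¹` norm is
`≤ ∑_i ∫_0^{1/b} V s ds = b V /(2 b²) ≤ V / b`.
-/

set_option autoImplicit false

open Finset MeasureTheory

namespace Pool.H2.MT

private theorem ii_bdE {E : Type*} [NormedAddCommGroup E] {g : ℝ → E}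
    (hm : AEStronglyMeasurable g volume) {K : ℝ} (hb : ∀ x, ‖g x‖ ≤ K) (a b : ℝ) :
    IntervalIntegrable g volume a b := by
  rw [intervalIntegrable_iff]
  exact Measure.integrableOn_of_bounded (by simp [Set.uIoc]) hm
    (Filter.Eventually.of_forall hb)

private theorem lip2 {V : ℝ} {ψ : ℝ → ℂ} (h : Osc V ψ) (u v : ℝ) :
    ∫ x in (0 : ℝ)..1, ‖ψ (x + u) - ψ (x + v)‖ ≤ V * |u - v| := by
  have hp : Function.Periodic (fun y => ‖ψ (y + (u - v)) - ψ y‖) 1 := by
    intro y
    have e : y + 1 + (u - v) = y + (u - v) + 1 := by ring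
    simp only [e, h.per]
  have h1 : ∫ x in (0 : ℝ)..1, ‖ψ (x + u) - ψ (x + v)‖ =
      ∫ x in (0 : ℝ)..1, (fun y => ‖ψ (y + (u - v)) - ψ y‖) (x + v) := by
    refine intervalIntegral.integral_congr fun x _ => ?_
    have e : x + v + (u - v) = x + u := by ring
    simp only [e]
  rw [h1, intervalIntegral.integral_comp_add_right (fun y => ‖ψ (y + (u - v)) - ψ y‖), zero_add,
    add_comm 1 v, hp.intervalIntegral_add_eq v 0, zero_add]
  exact h.lip (u - v)

private theorem sum_ind {ψ : ℝ → ℂ} {V : ℝ} (h : Osc V ψ) (b : ℕ) (hb : 1 ≤ b) (c : ℤ)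
    (hc : IsCoprime c (b : ℤ)) (x : ℝ) :
    ∑ j ∈ range b, ψ (x + j * (c / b)) = ∑ i ∈ range b, ψ (x + i / b) := by
  have hbR : (0 : ℝ) < b := by exact_mod_cast hb
  have hbZ : (0 : ℤ) < b := by exact_mod_cast hb
  have hp : Function.Periodic ψ 1 := fun u => h.per u
  set τ : ℕ → ℕ := fun j => (((j : ℤ) * c) % b).toNat with hτ
  have hτc : ∀ j, ((τ j : ℕ) : ℤ) = ((j : ℤ) * c) % b := fun j =>
    Int.toNat_of_nonneg (Int.emod_nonneg _ hbZ.ne')
  have hmem : ∀ j ∈ range b, τ j ∈ range b := by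
    intro j _
    rw [mem_range]
    have := Int.emod_lt_of_pos ((j : ℤ) * c) hbZ
    have h2 := hτc j
    omega
  have hinj : Set.InjOn τ (range b : Finset ℕ) := by
    intro j hj j' hj' he
    have hj1 : j < b := by simpa using hj
    have hj2 : j' < b := by simpa using hj'
    have h1 : ((j : ℤ) * c) % b = ((j' : ℤ) * c) % b := by
      rw [← hτc, ← hτc, he]
    have h2 : (b : ℤ) ∣ (j : ℤ) * c - (j' : ℤ) * c := Int.ModEq.dvd (Int.ModEq.symm h1)
    rw [← sub_mul] at h2
    have h3 : (b : ℤ) ∣ (j : ℤ) - j' := hc.symm.dvd_of_dvd_mul_right h2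
    have h4 : (j : ℤ) - j' = 0 := by
      refine Int.eq_zero_of_abs_lt_dvd h3 ?_
      rw [abs_lt]
      constructor <;> omega
    omega
  have himg : (range b).image τ = range b := by
    apply Finset.eq_of_subset_of_card_le
    · intro i hi
      rw [mem_image] at hi
      obtain ⟨j, hj, rfl⟩ := hi
      exact hmem j hj
    · rw [Finset.card_image_of_injOn hinj]
  have h5 : ∑ i ∈ range b, ψ (x + i / b) = ∑ j ∈ range b, ψ (x + (τ j : ℕ) / b) := by
    conv_lhs => rw [← himg]
    rw [Finset.sum_image hinj]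
  rw [h5]
  refine Finset.sum_congr rfl fun j _ => ?_
  have h6 : (j : ℤ) * c = b * (((j : ℤ) * c) / b) + (τ j : ℕ) := by
    rw [hτc]
    exact (Int.mul_ediv_add_emod ((j : ℤ) * c) b).symm
  have h7 : (j : ℝ) * c = b * ((((j : ℤ) * c) / b : ℤ) : ℝ) + (τ j : ℕ) := by
    exact_mod_cast h6
  have h8 : x + (j : ℝ) * (c / b) = x + (τ j : ℕ) / b + ((((j : ℤ) * c) / b : ℤ) : ℝ) * 1 := by
    rw [← mul_div_assoc, h7]
    field_simp
    ring
  rw [h8, hp.int_mul]

private theorem avg_eq {V : ℝ} {ψ : ℝ → ℂ} (h : Osc V ψ) (b : ℕ) (hb : 1 ≤ b) :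
    ∫ x in (0 : ℝ)..1, ‖(1 / (b : ℂ)) * ∑ i ∈ range b, ψ (x + i / b)‖ ≤ V / b := by
  have hbR : (0 : ℝ) < b := by exact_mod_cast hb
  have hV := h.V_nonneg
  have hp : Function.Periodic ψ 1 := fun u => h.per u
  have hii : ∀ a b : ℝ, IntervalIntegrable ψ volume a b := fun a b =>
    ii_bdE h.meas.aestronglyMeasurable h.bd a b
  have hbi : (0 : ℝ) ≤ 1 / b := by positivity
  obtain ⟨S, hS⟩ : ∃ S : ℝ → ℂ, ∀ x, S x = ∑ i ∈ range b, ψ (x + i / b) := ⟨_, fun _ => rfl⟩
  have hSm : Measurable S := by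
    have : S = fun x => ∑ i ∈ range b, ψ (x + i / b) := funext hS
    rw [this]
    exact Finset.measurable_sum _ fun i _ => h.meas.comp (measurable_id.add_const _)
  have hSb : ∀ x, ‖S x‖ ≤ b := by
    intro x
    rw [hS]
    refine (norm_sum_le _ _).trans ?_
    have := Finset.sum_le_card_nsmul (range b) (fun i => ‖ψ (x + i / b)‖) 1 fun i _ => h.bd _
    simpa using this
  have hz : ∀ x : ℝ, ∫ s in (0 : ℝ)..(1 / b), S (x + s) = 0 := by
    intro x
    have h1 : ∫ s in (0 : ℝ)..(1 / b), S (x + s) =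
        ∑ i ∈ range b, ∫ s in (0 : ℝ)..(1 / b), ψ (x + s + i / b) := by
      simp only [hS]
      refine intervalIntegral.integral_finsetSum fun i _ => ?_
      refine ii_bdE (K := 1) (Measurable.aestronglyMeasurable ?_) (fun s => h.bd _) _ _
      exact h.meas.comp ((measurable_const.add measurable_id).add_const _)
    have h2 : ∀ i : ℕ, ∫ s in (0 : ℝ)..(1 / b), ψ (x + s + i / b) =
        ∫ u in (x + i / b)..(x + ((i + 1 : ℕ) : ℝ) / b), ψ u := by
      intro i
      have e : ∀ s : ℝ, x + s + i / b = s + (x + i / b) := by intro s; ring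
      simp_rw [e]
      rw [intervalIntegral.integral_comp_add_right (fun u => ψ u)]
      have e1 : (0 : ℝ) + (x + i / b) = x + i / b := by ring
      have e2 : (1 : ℝ) / b + (x + i / b) = x + ((i + 1 : ℕ) : ℝ) / b := by
        push_cast
        ring
      rw [e1, e2]
    rw [h1]
    simp_rw [h2]
    rw [intervalIntegral.sum_integral_adjacent_intervals (a := fun i : ℕ => x + (i : ℝ) / b)
      (fun k _ => hii _ _)]
    have e3 : x + (b : ℝ) / b = x + 1 := by rw [div_self hbR.ne']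
    have e4 : x + ((0 : ℕ) : ℝ) / b = x := by simp
    rw [e3, e4, hp.intervalIntegral_add_eq x 0, zero_add, h.mean]
  have hSs : ∀ x : ℝ, Measurable fun s => S (x + s) := fun x =>
    hSm.comp (measurable_const.add measurable_id)
  have hpt : ∀ x, ‖(1 / (b : ℂ)) * S x‖ ≤ ∫ s in (0 : ℝ)..(1 / b), ‖S x - S (x + s)‖ := by
    intro x
    have h1 : ∫ s in (0 : ℝ)..(1 / b), (S x - S (x + s)) = (1 / (b : ℂ)) * S x := by
      rw [intervalIntegral.integral_sub intervalIntegrable_const
        (ii_bdE (hSs x).aestronglyMeasurable (fun s => hSb _) _ _), hz,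
        intervalIntegral.integral_const, sub_zero, sub_zero, Complex.real_smul]
      push_cast
      rfl
    rw [← h1]
    exact intervalIntegral.norm_integral_le_integral_norm hbi
  have hm : Measurable (Function.uncurry fun x s : ℝ => ‖S x - S (x + s)‖) :=
    ((hSm.comp measurable_fst).sub (hSm.comp (measurable_fst.add measurable_snd))).norm
  have hb2 : ∀ x s : ℝ, ‖S x - S (x + s)‖ ≤ 2 * b := fun x s =>
    (norm_sub_le _ _).trans (by linarith [hSb x, hSb (x + s)])
  have hint : IntegrableOn (Function.uncurry fun x s : ℝ => ‖S x - S (x + s)‖)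
      (Set.uIoc 0 1 ×ˢ Set.uIoc 0 (1 / (b : ℝ))) := by
    refine Measure.integrableOn_of_bounded (M := 2 * b) ?_ hm.aestronglyMeasurable
      (Filter.Eventually.of_forall ?_)
    · rw [Measure.volume_eq_prod, Measure.prod_prod]
      exact ENNReal.mul_ne_top (by simp [Set.uIoc]) (by simp [Set.uIoc])
    · intro z
      show ‖‖S z.1 - S (z.1 + z.2)‖‖ ≤ 2 * b
      rw [norm_norm]
      exact hb2 _ _
  have hmJ : AEStronglyMeasurable (fun x : ℝ => ∫ s in (0 : ℝ)..(1 / b), ‖S x - S (x + s)‖)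
      volume := by
    simp only [intervalIntegral.integral_of_le hbi]
    exact (StronglyMeasurable.integral_prod_right (ν := volume.restrict (Set.Ioc 0 (1 / (b : ℝ))))
      hm.stronglyMeasurable).aestronglyMeasurable
  have hm' : Measurable (Function.uncurry fun s x : ℝ => ‖S x - S (x + s)‖) :=
    ((hSm.comp measurable_snd).sub (hSm.comp (measurable_snd.add measurable_fst))).norm
  have hmK : AEStronglyMeasurable (fun s : ℝ => ∫ x in (0 : ℝ)..1, ‖S x - S (x + s)‖)
      volume := by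
    simp only [intervalIntegral.integral_of_le zero_le_one]
    exact (StronglyMeasurable.integral_prod_right (ν := volume.restrict (Set.Ioc (0 : ℝ) 1))
      hm'.stronglyMeasurable).aestronglyMeasurable
  have hiJ : IntervalIntegrable (fun x : ℝ => ∫ s in (0 : ℝ)..(1 / b), ‖S x - S (x + s)‖)
      volume 0 1 := by
    refine ii_bdE (K := 2 * b * |1 / (b : ℝ) - 0|) hmJ (fun x => ?_) _ _
    refine intervalIntegral.norm_integral_le_of_norm_le_const fun s _ => ?_
    rw [norm_norm]
    exact hb2 _ _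
  have hiK : IntervalIntegrable (fun s : ℝ => ∫ x in (0 : ℝ)..1, ‖S x - S (x + s)‖)
      volume 0 (1 / b) := by
    refine ii_bdE (K := 2 * b * |(1 : ℝ) - 0|) hmK (fun s => ?_) _ _
    refine intervalIntegral.norm_integral_le_of_norm_le_const fun x _ => ?_
    rw [norm_norm]
    exact hb2 _ _
  have hK : ∀ s : ℝ, 0 ≤ s → s ≤ 1 / b → ∫ x in (0 : ℝ)..1, ‖S x - S (x + s)‖ ≤ V := by
    intro s hs0 hs1
    have hmi : ∀ i : ℕ, IntervalIntegrable
        (fun x : ℝ => ‖ψ (x + i / b) - ψ (x + (s + i / b))‖) volume 0 1 := by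
      intro i
      refine ii_bdE (K := 2) (Measurable.aestronglyMeasurable ?_) (fun x => ?_) _ _
      · exact ((h.meas.comp (measurable_id.add_const _)).sub
          (h.meas.comp (measurable_id.add_const _))).norm
      · rw [norm_norm]
        exact (norm_sub_le _ _).trans (by linarith [h.bd (x + i / b), h.bd (x + (s + i / b))])
    have h1 : ∫ x in (0 : ℝ)..1, ‖S x - S (x + s)‖ ≤
        ∫ x in (0 : ℝ)..1, ∑ i ∈ range b, ‖ψ (x + i / b) - ψ (x + (s + i / b))‖ := by
      refine intervalIntegral.integral_mono_on zero_le_one ?_ ?_ fun x _ => ?_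
      · refine ii_bdE (K := 2 * b) (Measurable.aestronglyMeasurable ?_) (fun x => ?_) _ _
        · exact (hSm.sub (hSm.comp (measurable_id.add_const _))).norm
        · rw [norm_norm]
          exact hb2 _ _
      · have h9 := IntervalIntegrable.sum (range b)
          (f := fun (i : ℕ) (x : ℝ) => ‖ψ (x + i / b) - ψ (x + (s + i / b))‖) fun i _ => hmi i
        have e9 : (fun x : ℝ => ∑ i ∈ range b, ‖ψ (x + i / b) - ψ (x + (s + i / b))‖) =
            ∑ i ∈ range b, fun x : ℝ => ‖ψ (x + i / b) - ψ (x + (s + i / b))‖ := by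
          funext x
          rw [Finset.sum_apply]
        rw [e9]
        exact h9
      · rw [hS, hS, ← Finset.sum_sub_distrib]
        refine (norm_sum_le _ _).trans (le_of_eq (Finset.sum_congr rfl fun i _ => ?_))
        rw [add_assoc]
    rw [intervalIntegral.integral_finsetSum fun i _ => hmi i] at h1
    have h2 : ∑ i ∈ range b, ∫ x in (0 : ℝ)..1, ‖ψ (x + i / b) - ψ (x + (s + i / b))‖ ≤
        ∑ i ∈ range b, V * s := by
      refine Finset.sum_le_sum fun i _ => (lip2 h _ _).trans (le_of_eq ?_)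
      have e : (i : ℝ) / b - (s + i / b) = -s := by ring
      rw [e, abs_neg, abs_of_nonneg hs0]
    rw [Finset.sum_const, card_range, nsmul_eq_mul] at h2
    have h3 : (b : ℝ) * (V * s) ≤ V := by
      have h4 : (b : ℝ) * s ≤ 1 := by
        calc (b : ℝ) * s ≤ b * (1 / b) := mul_le_mul_of_nonneg_left hs1 hbR.le
          _ = 1 := mul_one_div_cancel hbR.ne'
      nlinarith
    linarith
  calc ∫ x in (0 : ℝ)..1, ‖(1 / (b : ℂ)) * ∑ i ∈ range b, ψ (x + i / b)‖
      = ∫ x in (0 : ℝ)..1, ‖(1 / (b : ℂ)) * S x‖ := by simp only [hS]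
    _ ≤ ∫ x in (0 : ℝ)..1, ∫ s in (0 : ℝ)..(1 / b), ‖S x - S (x + s)‖ := by
        refine intervalIntegral.integral_mono_on zero_le_one ?_ hiJ fun x _ => hpt x
        refine ii_bdE (K := ‖1 / (b : ℂ)‖ * b) (Measurable.aestronglyMeasurable ?_)
          (fun x => ?_) _ _
        · exact (measurable_const.mul hSm).norm
        · rw [norm_norm, norm_mul]
          exact mul_le_mul_of_nonneg_left (hSb x) (norm_nonneg _)
    _ = ∫ s in (0 : ℝ)..(1 / b), ∫ x in (0 : ℝ)..1, ‖S x - S (x + s)‖ :=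
        intervalIntegral_intervalIntegral_swap hint
    _ ≤ ∫ s in (0 : ℝ)..(1 / b), V := by
        refine intervalIntegral.integral_mono_on hbi hiK intervalIntegrable_const fun s hs => ?_
        exact hK s hs.1 hs.2
    _ = V / b := by
        rw [intervalIntegral.integral_const, sub_zero, smul_eq_mul]
        ring

theorem avg_rat {V : ℝ} {ψ : ℝ → ℂ} (h : Osc V ψ) (b : ℕ) (hb : 1 ≤ b) (c : ℤ)
    (hc : IsCoprime c (b : ℤ)) (θ : ℝ) :
    ∫ x in (0 : ℝ)..1, ‖(1 / (b : ℂ)) * ∑ j ∈ range b, ψ (x + j * θ)‖ ≤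
      V * b * |θ - c / b| + V / b := by
  have hbR : (0 : ℝ) < b := by exact_mod_cast hb
  have hV := h.V_nonneg
  have hn : ‖1 / (b : ℂ)‖ = 1 / b := by simp
  have hmd : ∀ j : ℕ, IntervalIntegrable
      (fun x : ℝ => ‖ψ (x + j * θ) - ψ (x + j * (c / b))‖) volume 0 1 := by
    intro j
    refine ii_bdE (K := 2) (Measurable.aestronglyMeasurable ?_) (fun x => ?_) _ _
    · exact ((h.meas.comp (measurable_id.add_const _)).sub
        (h.meas.comp (measurable_id.add_const _))).norm
    · rw [norm_norm]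
      exact (norm_sub_le _ _).trans (by linarith [h.bd (x + j * θ), h.bd (x + j * (c / b))])
  have hms : ∀ η : ℝ, Measurable fun x : ℝ => ∑ j ∈ range b, ψ (x + j * η) := fun η =>
    Finset.measurable_sum _ fun i _ => h.meas.comp (measurable_id.add_const _)
  have hbs : ∀ η x : ℝ, ‖∑ j ∈ range b, ψ (x + j * η)‖ ≤ b := by
    intro η x
    refine (norm_sum_le _ _).trans ?_
    have := Finset.sum_le_card_nsmul (range b) (fun i : ℕ => ‖ψ (x + i * η)‖) 1 fun i _ => h.bd _
    simpa using this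
  have hin : ∀ η : ℝ, IntervalIntegrable
      (fun x : ℝ => ‖(1 / (b : ℂ)) * ∑ j ∈ range b, ψ (x + j * η)‖) volume 0 1 := by
    intro η
    refine ii_bdE (K := ‖1 / (b : ℂ)‖ * b) (Measurable.aestronglyMeasurable ?_)
      (fun x => ?_) _ _
    · exact (measurable_const.mul (hms η)).norm
    · rw [norm_norm, norm_mul]
      exact mul_le_mul_of_nonneg_left (hbs η x) (norm_nonneg _)
  have hsum : IntervalIntegrable
      (fun x : ℝ => ∑ j ∈ range b, ‖ψ (x + j * θ) - ψ (x + j * (c / b))‖) volume 0 1 := by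
    have h9 := IntervalIntegrable.sum (range b)
      (f := fun (j : ℕ) (x : ℝ) => ‖ψ (x + j * θ) - ψ (x + j * (c / b))‖) fun i _ => hmd i
    have e9 : (fun x : ℝ => ∑ j ∈ range b, ‖ψ (x + j * θ) - ψ (x + j * (c / b))‖) =
        ∑ j ∈ range b, fun x : ℝ => ‖ψ (x + j * θ) - ψ (x + j * (c / b))‖ := by
      funext x
      rw [Finset.sum_apply]
    rw [e9]
    exact h9
  have hpt : ∀ x : ℝ, ‖(1 / (b : ℂ)) * ∑ j ∈ range b, ψ (x + j * θ)‖ ≤
      (1 / b) * (∑ j ∈ range b, ‖ψ (x + j * θ) - ψ (x + j * (c / b))‖) +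
      ‖(1 / (b : ℂ)) * ∑ j ∈ range b, ψ (x + j * (c / b))‖ := by
    intro x
    have e : (1 / (b : ℂ)) * ∑ j ∈ range b, ψ (x + j * θ) =
        (1 / (b : ℂ)) * (∑ j ∈ range b, (ψ (x + j * θ) - ψ (x + j * (c / b)))) +
        (1 / (b : ℂ)) * ∑ j ∈ range b, ψ (x + j * (c / b)) := by
      rw [Finset.sum_sub_distrib]
      ring
    rw [e]
    refine (norm_add_le _ _).trans (add_le_add ?_ le_rfl)
    rw [norm_mul, hn]
    exact mul_le_mul_of_nonneg_left (norm_sum_le _ _) (by positivity)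
  calc ∫ x in (0 : ℝ)..1, ‖(1 / (b : ℂ)) * ∑ j ∈ range b, ψ (x + j * θ)‖
      ≤ ∫ x in (0 : ℝ)..1, ((1 / b) * (∑ j ∈ range b, ‖ψ (x + j * θ) - ψ (x + j * (c / b))‖) +
      ‖(1 / (b : ℂ)) * ∑ j ∈ range b, ψ (x + j * (c / b))‖) :=
        intervalIntegral.integral_mono_on zero_le_one (hin θ)
          ((hsum.const_mul _).add (hin (c / b))) fun x _ => hpt x
    _ = (1 / b) * (∑ j ∈ range b, ∫ x in (0 : ℝ)..1, ‖ψ (x + j * θ) - ψ (x + j * (c / b))‖) +
        ∫ x in (0 : ℝ)..1, ‖(1 / (b : ℂ)) * ∑ j ∈ range b, ψ (x + j * (c / b))‖ := by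
        rw [intervalIntegral.integral_add (hsum.const_mul _) (hin (c / b)),
          intervalIntegral.integral_const_mul, intervalIntegral.integral_finsetSum
          fun j _ => hmd j]
    _ ≤ (1 / b) * (∑ j ∈ range b, V * (b * |θ - c / b|)) + V / b := by
        refine add_le_add ?_ ?_
        · refine mul_le_mul_of_nonneg_left (Finset.sum_le_sum fun j hj => ?_) (by positivity)
          refine (lip2 h _ _).trans (mul_le_mul_of_nonneg_left ?_ hV)
          rw [← mul_sub, abs_mul, abs_of_nonneg (Nat.cast_nonneg j)]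
          refine mul_le_mul_of_nonneg_right ?_ (abs_nonneg _)
          exact_mod_cast (mem_range.mp hj).le
        · have h1 := avg_eq h b hb
          simp only [sum_ind h b hb c hc]
          exact h1
    _ = V * b * |θ - c / b| + V / b := by
        rw [Finset.sum_const, card_range, nsmul_eq_mul]
        field_simp

end Pool.H2.MT
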