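import Mathlib
import Pool.Agent.H2.MT.Def

/-!
Module PSC (Mathlib only, 40 min). Periodic functions on `[-T, T]`.

`per_scale`: substitution `x = α y`: `∫_{-T}^{T} g(α y) dα = (1/y) ∫_{-T y}^{T y} g` (`intervalIntegral.integral_comp_mul_right`). With
`n = ⌈2 T y⌉₊` the interval `[-T y, T y]` is contained in `[-T y, -T y + n]`, `g ≥ 0`, and
`∫_{u}^{u+n} g = n ∫_0^1 g` by periodicity (`Function.Periodic.intervalIntegral_add_eq`, induction on `n`, or
`Function.Periodic.intervalIntegral_add_zsmul_eq`), `n ≤ 2 T y + 1`. (Bounded measurable functions are interval integrable.)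

`per_lip`: apply `per_scale` to `g x = ‖ψ (x + s * a) - ψ x‖` (`≤ 2`, periodic, measurable) and `Osc.lip` at `h = s * a`:
`(2 T + 1/a) * V * |s * a| = V (2 T a + 1) |s|`.
-/

set_option autoImplicit false

open Finset MeasureTheory

namespace Pool.H2.MT

private theorem per_ii (g : ℝ → ℝ) (hm : Measurable g) (K : ℝ) (h0 : ∀ x, 0 ≤ g x) (hb : ∀ x, g x ≤ K)
    (a b : ℝ) : IntervalIntegrable g volume a b := by
  rw [intervalIntegrable_iff]
  refine Measure.integrableOn_of_bounded (M := K) ?_ hm.aestronglyMeasurable ?_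
  · rw [Set.uIoc, Real.volume_Ioc]
    exact ENNReal.ofReal_ne_top
  · exact Filter.Eventually.of_forall fun x => by
      rw [Real.norm_of_nonneg (h0 x)]
      exact hb x

theorem per_scale (g : ℝ → ℝ) (hm : Measurable g) (K : ℝ) (h0 : ∀ x, 0 ≤ g x) (hb : ∀ x, g x ≤ K)
    (hp : ∀ x, g (x + 1) = g x) (T y : ℝ) (hT : 0 ≤ T) (hy : 0 < y) :
    ∫ α in (-T)..T, g (α * y) ≤ (2 * T + 1 / y) * ∫ x in (0 : ℝ)..1, g x := by
  have hii := per_ii g hm K h0 hb
  have hper : Function.Periodic g 1 := hp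
  rw [intervalIntegral.integral_comp_mul_right g hy.ne', smul_eq_mul]
  set n : ℤ := ⌈2 * T * y⌉ with hn
  have hTy : 0 ≤ T * y := by positivity
  have hn1 : 2 * T * y ≤ n := Int.le_ceil _
  have hn2 : (n : ℝ) < 2 * T * y + 1 := Int.ceil_lt_add_one _
  have h1 : ∫ x in (-T * y)..(T * y), g x ≤ ∫ x in (-T * y)..(-T * y + n • (1 : ℝ)), g x := by
    refine intervalIntegral.integral_mono_interval le_rfl (by nlinarith) ?_ ?_ (hii _ _)
    · rw [zsmul_eq_mul, mul_one]
      linarith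
    · exact Filter.Eventually.of_forall h0
  have h2 : ∫ x in (-T * y)..(-T * y + n • (1 : ℝ)), g x = n • ∫ x in (0 : ℝ)..1, g x := by
    rw [hper.intervalIntegral_add_zsmul_eq n _ hii, hper.intervalIntegral_add_eq (-T * y) 0, zero_add]
  have h3 : 0 ≤ ∫ x in (0 : ℝ)..1, g x :=
    intervalIntegral.integral_nonneg zero_le_one fun x _ => h0 x
  rw [h2, zsmul_eq_mul] at h1
  calc y⁻¹ * ∫ x in (-T * y)..(T * y), g x ≤ y⁻¹ * (n * ∫ x in (0 : ℝ)..1, g x) :=
        mul_le_mul_of_nonneg_left h1 (inv_nonneg.2 hy.le)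
    _ ≤ y⁻¹ * ((2 * T * y + 1) * ∫ x in (0 : ℝ)..1, g x) := by
        apply mul_le_mul_of_nonneg_left _ (inv_nonneg.2 hy.le)
        exact mul_le_mul_of_nonneg_right hn2.le h3
    _ = (2 * T + 1 / y) * ∫ x in (0 : ℝ)..1, g x := by
        field_simp

theorem per_lip {V : ℝ} {ψ : ℝ → ℂ} (h : Osc V ψ) (T a : ℝ) (hT : 0 ≤ T) (ha : 0 < a) (s : ℝ) :
    ∫ α in (-T)..T, ‖ψ ((α + s) * a) - ψ (α * a)‖ ≤ V * (2 * T * a + 1) * |s| := by
  have hm : Measurable (fun x => ‖ψ (x + s * a) - ψ x‖) :=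
    ((h.meas.comp (measurable_id.add_const _)).sub h.meas).norm
  have h1 := per_scale (fun x => ‖ψ (x + s * a) - ψ x‖) hm 2 (fun x => norm_nonneg _)
    (fun x => (norm_sub_le _ _).trans (by linarith [h.bd (x + s * a), h.bd x]))
    (fun x => by
      show ‖ψ (x + 1 + s * a) - ψ (x + 1)‖ = ‖ψ (x + s * a) - ψ x‖
      rw [show x + 1 + s * a = x + s * a + 1 by ring, h.per, h.per]) T a hT ha
  have h2 := h.lip (s * a)
  have h3 : ∫ α in (-T)..T, ‖ψ ((α + s) * a) - ψ (α * a)‖ =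
      ∫ α in (-T)..T, ‖ψ (α * a + s * a) - ψ (α * a)‖ := by
    congr 1
    funext α
    rw [add_mul]
  rw [h3]
  refine h1.trans ?_
  calc (2 * T + 1 / a) * ∫ x in (0 : ℝ)..1, ‖ψ (x + s * a) - ψ x‖
      ≤ (2 * T + 1 / a) * (V * |s * a|) := mul_le_mul_of_nonneg_left h2 (by positivity)
    _ = V * (2 * T * a + 1) * |s| := by
        rw [abs_mul, abs_of_pos ha]
        field_simp

end Pool.H2.MT
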