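import Mathlib
import Pool.Agent.H2.MT.PerS
import Pool.Agent.H2.MT.Avg

/-!
Module AVS (short, 15 min). Scaled version: `per_scale` applied to `g x = ‖(1/b) ∑_{j<b} ψ(x + jθ)‖` (measurable, `0 ≤ g ≤ 1`,
periodic) and `avg_rat`.
-/

set_option autoImplicit false

open Finset MeasureTheory

namespace Pool.H2.MT

theorem avg_scaled {V : ℝ} {ψ : ℝ → ℂ} (h : Osc V ψ) (T y : ℝ) (hT : 0 ≤ T) (hy : 0 < y) (b : ℕ)
    (hb : 1 ≤ b) (c : ℤ) (hc : IsCoprime c (b : ℤ)) (θ : ℝ) :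
    ∫ α in (-T)..T, ‖(1 / (b : ℂ)) * ∑ j ∈ range b, ψ (α * y + j * θ)‖ ≤
      (2 * T + 1 / y) * (V * b * |θ - c / b| + V / b) := by
  have hbR : (0 : ℝ) < b := by exact_mod_cast hb
  have hms : Measurable fun x : ℝ => ∑ j ∈ range b, ψ (x + j * θ) :=
    Finset.measurable_sum _ fun i _ => h.meas.comp (measurable_id.add_const _)
  have hbs : ∀ x : ℝ, ‖∑ j ∈ range b, ψ (x + j * θ)‖ ≤ b := by
    intro x
    refine (norm_sum_le _ _).trans ?_
    have := Finset.sum_le_card_nsmul (range b) (fun i : ℕ => ‖ψ (x + i * θ)‖) 1 fun i _ => h.bd _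
    simpa using this
  have h1 := per_scale (fun x => ‖(1 / (b : ℂ)) * ∑ j ∈ range b, ψ (x + j * θ)‖)
    (measurable_const.mul hms).norm 1 (fun x => norm_nonneg _) (fun x => ?_) (fun x => ?_) T y hT hy
  · refine h1.trans (mul_le_mul_of_nonneg_left (avg_rat h b hb c hc θ) ?_)
    positivity
  · rw [norm_mul]
    have hn : ‖1 / (b : ℂ)‖ = 1 / b := by simp
    rw [hn, one_div, inv_mul_le_iff₀ hbR, mul_one]
    exact hbs x
  · have e : ∀ j : ℕ, ψ (x + 1 + j * θ) = ψ (x + j * θ) := by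
      intro j
      have e1 : x + 1 + j * θ = x + j * θ + 1 := by ring
      rw [e1, h.per]
    simp only [e]

end Pool.H2.MT
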