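import Mathlib
import Pool.Agent.H75.AP.MertensB
import Pool.Agent.H5.Short.Second

/-!
Module MER (60 min). Two Mertens type bounds (tools: `Pool.Agent.H75.AP.mertens_one`, `mertens_ratio` (`∑_{u<p≤u^R} 1/p ≤ log R + ε`),
`MertB.piece`, `Pool.Agent.H5.Short.pi_le` (`π(X) ≤ C X/log X`)).

`mer_close`: (A) for `2 ≤ z`, `2 ≤ F`: `∑_{z<q≤Fz} 1/q ≤ K log F/log z`: by `pi_le` on dyadic intervals `(2^i z, 2^(i+1) z]`,
`i ≤ log F/log 2`, each `≤ K'/log z`. (B) `∑_{p∈S', p>z} 1/(p log p) ≤ K/log z`: dyadic intervals `(2^i z, 2^(i+1) z]`: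
`≤ K'/(log z + i log 2)²`, `∑_i ≤ K''/log z`. Sum over the pairs: for fixed `p` the inner sum over `q ∈ (p, Fp]` is `≤ K log F/log p`, then (B).

`mer_mid`: `mertens_ratio` with `R = (1/2+δ)·2 + small = 1 + 2δ + δ`, `ε = δ`, applied to `u` slightly below `x^(1/2)`
(`u = x^(1/2)/2`, `v = x^(1/2+δ) ≤ u^(1+3δ)` for `x` large): `log(1+3δ) + δ ≤ 4δ`.
-/

set_option autoImplicit false

open Finset

namespace Pool.H2.MT

open Pool.Agent.H75.AP Pool.Agent.H75.AP.MertB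

private theorem mer_A : ∃ K : ℝ, 0 < K ∧ ∀ p F : ℕ, 2 ≤ p → 2 ≤ F →
    ∑ q ∈ PI (p : ℝ) ((F : ℝ) * p), 1 / (q : ℝ) ≤ K * Real.log F / Real.log p := by
  obtain ⟨C, hC, h⟩ := piece
  have hl2 : 0 < Real.log 2 := Real.log_pos (by norm_num)
  refine ⟨1 + C / Real.log 2, by positivity, fun p F hp hF => ?_⟩
  have hp1 : (2 : ℝ) ≤ p := by exact_mod_cast hp
  have hF1 : (2 : ℝ) ≤ F := by exact_mod_cast hF
  have hlp : 0 < Real.log p := Real.log_pos (by linarith)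
  have hlF : Real.log 2 ≤ Real.log F := Real.log_le_log (by norm_num) hF1
  have h1 := h (p : ℝ) ((F : ℝ) * p) (by linarith) (by nlinarith)
  rw [Real.log_mul (by positivity) (by positivity)] at h1
  refine h1.trans ?_
  apply div_le_div_of_nonneg_right _ hlp.le
  have h2 : C ≤ C / Real.log 2 * Real.log F := by
    rw [div_mul_eq_mul_div, le_div_iff₀ hl2]
    exact mul_le_mul_of_nonneg_left hlF hC.le
  linarith

private theorem mer_B1 : ∃ D : ℝ, 0 < D ∧ ∀ z : ℕ, 2 ≤ z → ∀ n : ℕ,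
    ∑ p ∈ PI (z : ℝ) ((z : ℝ) ^ (2 ^ n)), 1 / ((p : ℝ) * Real.log p) ≤
      (∑ i ∈ range n, (1 / 2 : ℝ) ^ i) * (D / Real.log z) := by
  obtain ⟨C, hC, h⟩ := piece
  have hl2 : 0 < Real.log 2 := Real.log_pos (by norm_num)
  refine ⟨1 + C / Real.log 2, by positivity, fun z hz n => ?_⟩
  have hz1 : (2 : ℝ) ≤ z := by exact_mod_cast hz
  have hlz : Real.log 2 ≤ Real.log z := Real.log_le_log (by norm_num) hz1
  have hlz0 : 0 < Real.log z := by linarith
  induction n with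
  | zero =>
    rw [pow_zero, pow_one, range_zero, sum_empty, zero_mul]
    apply le_of_eq
    apply sum_eq_zero
    intro p hp
    rw [mem_PI (by linarith)] at hp
    linarith [hp.2.1, hp.2.2]
  | succ n ih =>
    have ha1 : (z : ℝ) ≤ (z : ℝ) ^ (2 ^ n) := by
      calc (z : ℝ) = (z : ℝ) ^ 1 := (pow_one _).symm
        _ ≤ (z : ℝ) ^ (2 ^ n) := pow_le_pow_right₀ (by linarith) Nat.one_le_two_pow
    have hab : (z : ℝ) ^ (2 ^ n) ≤ (z : ℝ) ^ (2 ^ (n + 1)) :=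
      pow_le_pow_right₀ (by linarith) (Nat.pow_le_pow_right (by norm_num) (Nat.le_succ n))
    rw [sum_split (by linarith) ha1 hab, sum_range_succ, add_mul]
    refine add_le_add ih ?_
    have ha : 1 < (z : ℝ) ^ (2 ^ n) := by linarith
    have h1 := h _ _ ha hab
    rw [Real.log_pow, Real.log_pow] at h1
    push_cast at h1
    set N : ℝ := (2 : ℝ) ^ n with hN
    have hN1 : 1 ≤ N := one_le_pow₀ (by norm_num)
    rw [show (2 : ℝ) ^ (n + 1) = 2 * N by rw [hN, pow_succ]; ring] at h1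
    have hNz : 0 < N * Real.log z := by positivity
    have h2 : ∑ p ∈ PI ((z : ℝ) ^ (2 ^ n)) ((z : ℝ) ^ (2 ^ (n + 1))), 1 / ((p : ℝ) * Real.log p) ≤
        (1 / (N * Real.log z)) *
          ∑ p ∈ PI ((z : ℝ) ^ (2 ^ n)) ((z : ℝ) ^ (2 ^ (n + 1))), 1 / (p : ℝ) := by
      rw [mul_sum]
      refine sum_le_sum fun p hp => ?_
      rw [mem_PI (by linarith)] at hp
      have hp0 : (0 : ℝ) < p := by linarith [hp.2.1]
      have h3 : N * Real.log z ≤ Real.log p := by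
        have := Real.log_le_log (by linarith) hp.2.1.le
        rw [Real.log_pow] at this
        push_cast at this
        exact this
      rw [one_div_mul_one_div, mul_comm (N * Real.log z)]
      apply one_div_le_one_div_of_le (by positivity)
      exact mul_le_mul_of_nonneg_left h3 hp0.le
    refine h2.trans ((mul_le_mul_of_nonneg_left h1 (by positivity)).trans ?_)
    have h4 : C / (N * Real.log z) ≤ C / Real.log 2 := by
      apply div_le_div_of_nonneg_left hC.le hl2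
      nlinarith
    have h5 : (1 / 2 : ℝ) ^ n = 1 / N := by rw [hN, div_pow, one_pow]
    rw [h5]
    calc 1 / (N * Real.log z) * ((2 * N * Real.log z - N * Real.log z + C) / (N * Real.log z))
        = 1 / (N * Real.log z) * (1 + C / (N * Real.log z)) := by
          field_simp
          ring
      _ ≤ 1 / (N * Real.log z) * (1 + C / Real.log 2) := by
          apply mul_le_mul_of_nonneg_left _ (by positivity)
          linarith
      _ = 1 / N * ((1 + C / Real.log 2) / Real.log z) := by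
          field_simp

private theorem mer_B : ∃ K : ℝ, 0 < K ∧ ∀ z : ℕ, 2 ≤ z → ∀ S : Finset ℕ,
    (∀ p ∈ S, p.Prime ∧ z < p) → ∑ p ∈ S, 1 / ((p : ℝ) * Real.log p) ≤ K / Real.log z := by
  obtain ⟨D, hD, h⟩ := mer_B1
  refine ⟨2 * D, by positivity, fun z hz S hS => ?_⟩
  have hz1 : (2 : ℝ) ≤ z := by exact_mod_cast hz
  have hlz0 : 0 < Real.log z := Real.log_pos (by linarith)
  set n : ℕ := S.sup id with hn
  have hsub : S ⊆ PI (z : ℝ) ((z : ℝ) ^ (2 ^ n)) := by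
    intro p hp
    rw [mem_PI (by linarith)]
    refine ⟨(hS p hp).1, by exact_mod_cast (hS p hp).2, ?_⟩
    have h1 : p ≤ n := le_sup (f := id) hp
    have h2 : p ≤ z ^ (2 ^ n) := by
      calc p ≤ 2 ^ n := h1.trans Nat.lt_two_pow_self.le
        _ ≤ 2 ^ (2 ^ n) := Nat.lt_two_pow_self.le
        _ ≤ z ^ (2 ^ n) := Nat.pow_le_pow_left hz _
    exact_mod_cast h2
  have h1 : ∑ p ∈ S, 1 / ((p : ℝ) * Real.log p) ≤
      ∑ p ∈ PI (z : ℝ) ((z : ℝ) ^ (2 ^ n)), 1 / ((p : ℝ) * Real.log p) := by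
    refine sum_le_sum_of_subset_of_nonneg hsub fun p hp _ => ?_
    have : 0 ≤ Real.log p := Real.log_natCast_nonneg p
    positivity
  refine h1.trans ((h z hz n).trans ?_)
  have h2 : ∑ i ∈ range n, (1 / 2 : ℝ) ^ i ≤ 2 := by
    have h3 := (summable_geometric_two).sum_le_tsum (range n) fun i _ => by positivity
    rw [tsum_geometric_two] at h3
    exact h3
  calc (∑ i ∈ range n, (1 / 2 : ℝ) ^ i) * (D / Real.log z) ≤ 2 * (D / Real.log z) :=
        mul_le_mul_of_nonneg_right h2 (by positivity)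
    _ = 2 * D / Real.log z := by ring

theorem mer_close : ∃ K : ℝ, 0 < K ∧ ∀ z F : ℕ, 2 ≤ z → 2 ≤ F → ∀ S : Finset (ℕ × ℕ),
    (∀ s ∈ S, s.1.Prime ∧ s.2.Prime ∧ z < s.1 ∧ s.1 < s.2 ∧ s.2 ≤ F * s.1) →
    ∑ s ∈ S, 1 / ((s.1 : ℝ) * s.2) ≤ K * Real.log F / Real.log z := by
  classical
  obtain ⟨K1, hK1, h1⟩ := mer_A
  obtain ⟨K2, hK2, h2⟩ := mer_B
  refine ⟨K1 * K2, by positivity, fun z F hz hF S hS => ?_⟩
  have hlF : 0 ≤ Real.log F := Real.log_natCast_nonneg F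
  have hmaps : ∀ s ∈ S, s.1 ∈ S.image Prod.fst := fun s hs => mem_image_of_mem _ hs
  rw [← sum_fiberwise_of_maps_to hmaps]
  have h3 : ∀ p ∈ S.image Prod.fst, ∑ s ∈ S with s.1 = p, 1 / ((s.1 : ℝ) * s.2) ≤
      K1 * Real.log F * (1 / ((p : ℝ) * Real.log p)) := by
    intro p hp
    obtain ⟨s0, hs0, rfl⟩ := mem_image.1 hp
    have hp2 : 2 ≤ s0.1 := by have := (hS s0 hs0).2.2.1; omega
    have hp0 : (0 : ℝ) < s0.1 := by exact_mod_cast (by omega : 0 < s0.1)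
    have h4 : ∑ s ∈ S with s.1 = s0.1, 1 / ((s.1 : ℝ) * s.2) ≤
        ∑ q ∈ PI (s0.1 : ℝ) ((F : ℝ) * s0.1), 1 / (s0.1 : ℝ) * (1 / (q : ℝ)) := by
      have h5 : ∑ s ∈ S with s.1 = s0.1, 1 / ((s.1 : ℝ) * s.2) =
          ∑ q ∈ (S.filter (fun s => s.1 = s0.1)).image Prod.snd, 1 / (s0.1 : ℝ) * (1 / (q : ℝ)) := by
        rw [sum_image]
        · refine sum_congr rfl fun s hs => ?_
          rw [(mem_filter.1 hs).2, one_div_mul_one_div]
        · intro a ha b hb hab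
          have ha' := (mem_filter.1 (mem_coe.1 ha)).2
          have hb' := (mem_filter.1 (mem_coe.1 hb)).2
          exact Prod.ext (ha'.trans hb'.symm) hab
      rw [h5]
      refine sum_le_sum_of_subset_of_nonneg ?_ fun q _ _ => by positivity
      intro q hq
      obtain ⟨s, hs, rfl⟩ := mem_image.1 hq
      obtain ⟨hs1, hs2⟩ := mem_filter.1 hs
      obtain ⟨-, a2, -, a4, a5⟩ := hS s hs1
      rw [mem_PI hp0.le]
      refine ⟨a2, ?_, ?_⟩
      · rw [← hs2]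
        exact_mod_cast a4
      · rw [← hs2]
        exact_mod_cast a5
    refine h4.trans ?_
    rw [← mul_sum]
    calc 1 / (s0.1 : ℝ) * ∑ q ∈ PI (s0.1 : ℝ) ((F : ℝ) * s0.1), 1 / (q : ℝ)
        ≤ 1 / (s0.1 : ℝ) * (K1 * Real.log F / Real.log s0.1) :=
          mul_le_mul_of_nonneg_left (h1 s0.1 F hp2 hF) (by positivity)
      _ = K1 * Real.log F * (1 / ((s0.1 : ℝ) * Real.log s0.1)) := by
          rw [one_div, one_div, mul_inv]
          ring
  refine (sum_le_sum h3).trans ?_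
  rw [← mul_sum]
  calc K1 * Real.log F * ∑ p ∈ S.image Prod.fst, 1 / ((p : ℝ) * Real.log p)
      ≤ K1 * Real.log F * (K2 / Real.log z) := by
        apply mul_le_mul_of_nonneg_left _ (by positivity)
        apply h2 z hz
        intro p hp
        obtain ⟨s, hs, rfl⟩ := mem_image.1 hp
        exact ⟨(hS s hs).1, (hS s hs).2.2.1⟩
    _ = K1 * K2 * Real.log F / Real.log z := by ring

theorem mer_mid : ∃ K : ℝ, 0 < K ∧ ∀ δ : ℝ, 0 < δ → δ ≤ 1 / 4 → ∃ x0 : ℕ, ∀ x : ℕ, x0 ≤ x →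
    ∀ S : Finset ℕ, (∀ q ∈ S, q.Prime ∧ (x : ℝ) ^ (1 / 2 : ℝ) ≤ q ∧ (q : ℝ) ≤ (x : ℝ) ^ (1 / 2 + δ : ℝ)) →
    ∑ q ∈ S, 1 / (q : ℝ) ≤ K * δ := by
  obtain ⟨C, hC, h⟩ := piece
  have hl2 : 0 < Real.log 2 := Real.log_pos (by norm_num)
  refine ⟨8, by norm_num, fun δ hδ hδ1 => ?_⟩
  obtain ⟨x0, hx0⟩ := Filter.eventually_atTop.1 ((Real.tendsto_log_atTop.comp
    tendsto_natCast_atTop_atTop).eventually_ge_atTop (max (8 * Real.log 2) ((Real.log 2 + C) / δ)))
  refine ⟨max x0 2, fun x hx S hS => ?_⟩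
  have hlx : max (8 * Real.log 2) ((Real.log 2 + C) / δ) ≤ Real.log x :=
    hx0 x ((le_max_left _ _).trans hx)
  have hlx1 : 8 * Real.log 2 ≤ Real.log x := (le_max_left _ _).trans hlx
  have hlx2 : (Real.log 2 + C) / δ ≤ Real.log x := (le_max_right _ _).trans hlx
  rw [div_le_iff₀ hδ] at hlx2
  have hx2 : (2 : ℝ) ≤ x := by exact_mod_cast (le_max_right _ _).trans hx
  have hx0' : (0 : ℝ) < x := by linarith
  have hx12 : (0 : ℝ) < (x : ℝ) ^ (1 / 2 : ℝ) := Real.rpow_pos_of_pos hx0' _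
  have hla : Real.log ((x : ℝ) ^ (1 / 2 : ℝ) / 2) = 1 / 2 * Real.log x - Real.log 2 := by
    rw [Real.log_div hx12.ne' (by norm_num), Real.log_rpow hx0']
  have hlb : Real.log ((x : ℝ) ^ (1 / 2 + δ : ℝ)) = (1 / 2 + δ) * Real.log x := Real.log_rpow hx0' _
  have ha : 1 < (x : ℝ) ^ (1 / 2 : ℝ) / 2 := by
    rw [← Real.log_pos_iff (by positivity), hla]
    linarith
  have hab : (x : ℝ) ^ (1 / 2 : ℝ) / 2 ≤ (x : ℝ) ^ (1 / 2 + δ : ℝ) := by
    have : (x : ℝ) ^ (1 / 2 : ℝ) ≤ (x : ℝ) ^ (1 / 2 + δ : ℝ) :=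
      Real.rpow_le_rpow_of_exponent_le (by linarith) (by linarith)
    linarith
  have h1 := h _ _ ha hab
  rw [hla, hlb] at h1
  have hsub : S ⊆ PI ((x : ℝ) ^ (1 / 2 : ℝ) / 2) ((x : ℝ) ^ (1 / 2 + δ : ℝ)) := by
    intro q hq
    rw [mem_PI (by positivity)]
    exact ⟨(hS q hq).1, by linarith [(hS q hq).2.1], (hS q hq).2.2⟩
  refine (sum_le_sum_of_subset_of_nonneg hsub fun q _ _ => by positivity).trans (h1.trans ?_)
  rw [div_le_iff₀ (by linarith)]
  nlinarith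

end Pool.H2.MT
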