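import Mathlib
import Pool.Agent.H2.MT.Mer
import Pool.Agent.H2.SpDiv

/-!
Module CLS (50 min). Close pairs of prime factors with bounded product.

`F = el x ^ b`, `p ≥ q/F > el x ^ (c-b) =: z`, `c - b ≥ c/2`. For `x` large `z > A, A'` so `p, q ∤ A A'` and the number of `t < x` with `p ∣ A t + B`,
`q ∣ A' t + B'` (`p ≠ q`: one class mod `p q`) is `≤ x/(pq) + 1 ≤ (K0 + 1) x/(p q)` as `p q ≤ K0 x`. Union bound over the finite set `S` of
pairs `(p,q)` of primes `z < p < q ≤ F p`, `p q ≤ K0 x`, and `mer_close` (for `x` large `z ≥ 2`, `F ≥ 2`): `≤ (K0+1) x K log F/log z`, `log F = b log el x`,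
`log z = (c-b) log el x`, ratio `≤ 2 b/c`. (`z = el x ^ (c - b)`; for `c ≥ 2b`, `b ≥ 1`.)
-/

set_option autoImplicit false

open Finset

namespace Pool.H2.MT

open Pool.H2.Sp

/-- at most `x/d + 1` elements of one class modulo `d` below `x` -/
lemma cls_cong (d x : ℕ) (T : Finset ℕ) (hT : T ⊆ range x)
    (hc : ∀ t ∈ T, ∀ t' ∈ T, t ≡ t' [MOD d]) : (T.card : ℝ) ≤ (x : ℝ) / d + 1 := by
  have h1 : T.card ≤ (range (x / d + 1)).card := by
    refine card_le_card_of_injOn (fun t => t / d) (fun t ht => ?_) (fun t ht t' ht' h => ?_)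
    · have h2 := mem_range.1 (hT ht)
      have h3 : t / d ≤ x / d := Nat.div_le_div_right h2.le
      simp only [coe_range, Set.mem_Iio]
      omega
    · have h2 : t % d = t' % d := hc t ht t' ht'
      have h3 : t / d = t' / d := h
      rw [← Nat.div_add_mod t d, ← Nat.div_add_mod t' d, h2, h3]
  rw [card_range] at h1
  have h2 : ((x / d + 1 : ℕ) : ℝ) ≤ (x : ℝ) / d + 1 := by
    push_cast
    have := Nat.cast_div_le (α := ℝ) (m := x) (n := d)
    linarith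
  exact (by exact_mod_cast h1 : (T.card : ℝ) ≤ ((x / d + 1 : ℕ) : ℝ)).trans h2

/-- one congruence -/
lemma cls_one {p A B t t' : ℕ} (hp : p.Prime) (hA : 0 < A) (hpA : A < p) (h : p ∣ A * t + B)
    (h' : p ∣ A * t' + B) : t ≡ t' [MOD p] := by
  have hcop : Nat.Coprime p A := by
    rw [Nat.Prime.coprime_iff_not_dvd hp]
    exact fun hd => absurd (Nat.le_of_dvd hA hd) (by omega)
  have h1 : A * t + B ≡ A * t' + B [MOD p] :=
    ((Nat.modEq_zero_iff_dvd).2 h).trans ((Nat.modEq_zero_iff_dvd).2 h').symm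
  exact Nat.ModEq.cancel_left_of_coprime hcop (Nat.ModEq.add_right_cancel' B h1)

open Classical in
theorem cls (A B A' B' K0 : ℕ) (hA : 0 < A) (hA' : 0 < A') :
    ∃ K : ℝ, 0 < K ∧ ∀ b c : ℕ, 1 ≤ b → 2 * b ≤ c → ∃ x0 : ℕ, ∀ x : ℕ, x0 ≤ x →
      (((range x).filter (fun t => ∃ p q : ℕ, p.Prime ∧ q.Prime ∧ p < q ∧ q ≤ el x ^ b * p ∧
        el x ^ c < q ∧ p * q ≤ K0 * x ∧ p ∣ A * t + B ∧ q ∣ A' * t + B')).card : ℝ) ≤
        K * ((b : ℝ) / c) * x := by
  obtain ⟨K, hK, hm⟩ := mer_close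
  refine ⟨(K0 + 1) * K * 2, by positivity, fun b c hb hc => ?_⟩
  obtain ⟨x0, hx0⟩ := Filter.eventually_atTop.1 ((Real.tendsto_log_atTop.comp
    tendsto_natCast_atTop_atTop).eventually_ge_atTop ((A + A' + 2 : ℕ) : ℝ))
  refine ⟨x0, fun x hx => ?_⟩
  have hel : A + A' + 2 ≤ el x := by
    have h1 : ((A + A' + 2 : ℕ) : ℝ) ≤ Real.log x := hx0 x hx
    have h2 := log_lt_el x
    have h3 : ((A + A' + 2 : ℕ) : ℝ) < (el x : ℝ) := lt_of_le_of_lt h1 h2
    exact (by exact_mod_cast h3 : A + A' + 2 < el x).le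
  obtain ⟨e, he⟩ : ∃ e, e = el x := ⟨_, rfl⟩
  rw [← he] at hel ⊢
  obtain ⟨F, hF⟩ : ∃ F, F = e ^ b := ⟨_, rfl⟩
  obtain ⟨z, hz⟩ : ∃ z, z = e ^ (c - b) := ⟨_, rfl⟩
  have hFz : e ^ c = F * z := by
    rw [hF, hz, ← pow_add]
    congr 1
    omega
  have heF : e ≤ F := by rw [hF]; exact Nat.le_self_pow (by omega) e
  have hez : e ≤ z := by rw [hz]; exact Nat.le_self_pow (by omega) e
  obtain ⟨S, hS⟩ : ∃ S : Finset (ℕ × ℕ), S = ((range (K0 * x + 1)) ×ˢ (range (K0 * x + 1))).filter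
    (fun s => s.1.Prime ∧ s.2.Prime ∧ z < s.1 ∧ s.1 < s.2 ∧ s.2 ≤ F * s.1 ∧ s.1 * s.2 ≤ K0 * x) :=
    ⟨_, rfl⟩
  have hsub : (range x).filter (fun t => ∃ p q : ℕ, p.Prime ∧ q.Prime ∧ p < q ∧ q ≤ e ^ b * p ∧
        e ^ c < q ∧ p * q ≤ K0 * x ∧ p ∣ A * t + B ∧ q ∣ A' * t + B') ⊆
      S.biUnion (fun s => (range x).filter (fun t => s.1 ∣ A * t + B ∧ s.2 ∣ A' * t + B')) := by
    intro t ht
    rw [mem_filter] at ht
    obtain ⟨htx, p, q, hp, hq, hpq, hqF, hcq, hprod, hd, hd'⟩ := ht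
    rw [mem_biUnion]
    refine ⟨(p, q), ?_, mem_filter.2 ⟨htx, hd, hd'⟩⟩
    rw [hS, mem_filter, mem_product, mem_range, mem_range]
    have hp1 := hp.one_lt
    have hq1 := hq.one_lt
    refine ⟨⟨?_, ?_⟩, hp, hq, ?_, hpq, ?_, hprod⟩
    · have : p * 1 ≤ p * q := Nat.mul_le_mul_left p hq1.le
      simp only
      omega
    · have : 1 * q ≤ p * q := Nat.mul_le_mul_right q hp1.le
      simp only
      omega
    · rw [hFz] at hcq
      rw [← hF] at hqF
      have h1 : F * z < F * p := lt_of_lt_of_le hcq hqF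
      exact lt_of_mul_lt_mul_left h1 (Nat.zero_le F)
    · rw [hF]
      exact hqF
  have hcard : ∀ s ∈ S, (((range x).filter
      (fun t => s.1 ∣ A * t + B ∧ s.2 ∣ A' * t + B')).card : ℝ) ≤
      (K0 + 1) * x * (1 / ((s.1 : ℝ) * s.2)) := by
    intro s hs
    rw [hS, mem_filter] at hs
    obtain ⟨_, hp, hq, hzp, hpq, hqF, hprod⟩ := hs
    have h1 := cls_cong (s.1 * s.2) x ((range x).filter
      (fun t => s.1 ∣ A * t + B ∧ s.2 ∣ A' * t + B')) (filter_subset _ _) (by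
        intro t ht t' ht'
        rw [mem_filter] at ht ht'
        have hcop : Nat.Coprime s.1 s.2 := (Nat.coprime_primes hp hq).2 hpq.ne
        refine (Nat.modEq_and_modEq_iff_modEq_mul hcop).1 ⟨?_, ?_⟩
        · exact cls_one hp hA (by omega) ht.2.1 ht'.2.1
        · exact cls_one hq hA' (by omega) ht.2.2 ht'.2.2)
    have hp0 : (0 : ℝ) < s.1 := by exact_mod_cast hp.pos
    have hq0 : (0 : ℝ) < s.2 := by exact_mod_cast hq.pos
    have h2 : (1 : ℝ) ≤ K0 * x * (1 / ((s.1 : ℝ) * s.2)) := by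
      rw [mul_one_div, le_div_iff₀ (by positivity), one_mul]
      exact_mod_cast hprod
    push_cast at h1
    calc (((range x).filter (fun t => s.1 ∣ A * t + B ∧ s.2 ∣ A' * t + B')).card : ℝ)
        ≤ x / (s.1 * s.2) + 1 := h1
      _ ≤ x / (s.1 * s.2) + K0 * x * (1 / ((s.1 : ℝ) * s.2)) := by linarith
      _ = (K0 + 1) * x * (1 / ((s.1 : ℝ) * s.2)) := by ring
  have hsum := hm z F (by omega) (by omega) S (by
    intro s hs
    rw [hS, mem_filter] at hs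
    obtain ⟨_, hp, hq, hzp, hpq, hqF, _⟩ := hs
    exact ⟨hp, hq, hzp, hpq, hqF⟩)
  have hle : 0 < Real.log e := Real.log_pos (by exact_mod_cast (by omega : 1 < e))
  have hratio : K * Real.log F / Real.log z ≤ K * (2 * ((b : ℝ) / c)) := by
    have hc0 : (0 : ℝ) < c := by exact_mod_cast (by omega : 0 < c)
    have hcb : (0 : ℝ) < ((c - b : ℕ) : ℝ) := by exact_mod_cast (by omega : 0 < c - b)
    have e1 : Real.log F = b * Real.log e := by
      rw [hF]
      push_cast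
      rw [Real.log_pow]
    have e2 : Real.log z = ((c - b : ℕ) : ℝ) * Real.log e := by
      rw [hz]
      push_cast
      rw [Real.log_pow]
    rw [e1, e2, mul_div_assoc]
    refine mul_le_mul_of_nonneg_left ?_ hK.le
    rw [mul_div_mul_right _ _ hle.ne', div_le_iff₀ hcb]
    have h3 : (c : ℝ) ≤ 2 * ((c - b : ℕ) : ℝ) := by exact_mod_cast (by omega : c ≤ 2 * (c - b))
    have h4 : (0 : ℝ) ≤ (b : ℝ) / c := by positivity
    calc (b : ℝ) = (b : ℝ) / c * c := by field_simp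
      _ ≤ (b : ℝ) / c * (2 * ((c - b : ℕ) : ℝ)) := mul_le_mul_of_nonneg_left h3 h4
      _ = 2 * ((b : ℝ) / c) * ((c - b : ℕ) : ℝ) := by ring
  calc (((range x).filter (fun t => ∃ p q : ℕ, p.Prime ∧ q.Prime ∧ p < q ∧ q ≤ e ^ b * p ∧
        e ^ c < q ∧ p * q ≤ K0 * x ∧ p ∣ A * t + B ∧ q ∣ A' * t + B')).card : ℝ)
      ≤ ((S.biUnion (fun s => (range x).filter
          (fun t => s.1 ∣ A * t + B ∧ s.2 ∣ A' * t + B'))).card : ℝ) := by
        exact_mod_cast card_le_card hsub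
    _ ≤ ∑ s ∈ S, (((range x).filter
          (fun t => s.1 ∣ A * t + B ∧ s.2 ∣ A' * t + B')).card : ℝ) := by
        exact_mod_cast card_biUnion_le
    _ ≤ ∑ s ∈ S, (K0 + 1) * x * (1 / ((s.1 : ℝ) * s.2)) := sum_le_sum hcard
    _ = (K0 + 1) * x * ∑ s ∈ S, 1 / ((s.1 : ℝ) * s.2) := by rw [mul_sum]
    _ ≤ (K0 + 1) * x * (K * (2 * ((b : ℝ) / c))) :=
        mul_le_mul_of_nonneg_left (hsum.trans hratio) (by positivity)
    _ = (K0 + 1) * K * 2 * ((b : ℝ) / c) * x := by ring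

end Pool.H2.MT
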