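import Mathlib
import Pool.Agent.H2.MT.Def
import Pool.Agent.H2.SpDiv
import Pool.Agent.H75.AP.MertensB

/-!
Module NOP (60 min). Almost every `t` has a prime of a thick set, larger than `(log x)^C`, dividing `A t + B` exactly once.

Copy of `H2/SpDiv.lean` (`win_tendsto`, `bad_tendsto`, lines 30 - 210) with `el N ^ 4` replaced by `el N ^ C`, `Q p = (p ∈ P)`,
`Δ = A` (a prime `p ∤ A`; primes `p > el N ^ C` do not divide `A` for large `N`), `Thick P` = `Div (· ∈ P)` after unfolding. The mass of the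
primes in `(log N, el N ^ C]` is bounded (`mertens_ratio` with `R = C + 1`, or dyadic sums as in `win_tendsto`). `B = 0` is allowed:
replace `B` by ... the number `t = 0` is one element; for `t ≥ 1` the form `A t` at `t` is the form `A t' + A` at `t' = t - 1`; or simply
generalise the copied proof.
-/

set_option autoImplicit false

open Finset Filter Topology

namespace Pool.H2.MT

open Pool.H2.Sp

private lemma mp_iter (x : ℕ) (hx : 2 ≤ x) (k : ℕ) :
    ∑ p ∈ (Ioc x (x ^ 4 ^ k)).filter Nat.Prime, (1 : ℝ) / p ≤ 28 * k := by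
  induction k with
  | zero => simp
  | succ k ih =>
    have h1 : x ≤ x ^ 4 ^ k := Nat.le_self_pow (by positivity) x
    have h2 : x ^ 4 ^ k ≤ x ^ 4 ^ (k + 1) :=
      Nat.pow_le_pow_right (by omega) (Nat.pow_le_pow_right (by norm_num) (Nat.le_succ k))
    have h3 : (Ioc x (x ^ 4 ^ (k + 1))).filter Nat.Prime
        = (Ioc x (x ^ 4 ^ k)).filter Nat.Prime ∪ (Ioc (x ^ 4 ^ k) (x ^ 4 ^ (k + 1))).filter Nat.Prime := by
      rw [← filter_union, Ioc_union_Ioc_eq_Ioc h1 h2]
    have h4 := mertens_pow (x ^ 4 ^ k) (hx.trans h1)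
    have h5 : (x ^ 4 ^ k) ^ 4 = x ^ 4 ^ (k + 1) := by rw [← pow_mul, pow_succ]
    rw [h5] at h4
    have h6 := sum_union_inter (s₁ := (Ioc x (x ^ 4 ^ k)).filter Nat.Prime)
      (s₂ := (Ioc (x ^ 4 ^ k) (x ^ 4 ^ (k + 1))).filter Nat.Prime) (f := fun p : ℕ => (1 : ℝ) / p)
    have h7 : 0 ≤ ∑ p ∈ (Ioc x (x ^ 4 ^ k)).filter Nat.Prime ∩
        (Ioc (x ^ 4 ^ k) (x ^ 4 ^ (k + 1))).filter Nat.Prime, (1 : ℝ) / p :=
      sum_nonneg fun p _ => by positivity
    rw [h3]
    push_cast
    linarith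

open Classical in
private noncomputable def wn (Q : ℕ → Prop) (k Δ N : ℕ) : Finset ℕ :=
  (Icc 1 N).filter (fun p => p.Prime ∧ Q p ∧ ¬ p ∣ Δ ∧ el N ^ 4 ^ k < p ∧ p ^ 2 ≤ N)

private lemma wn_tendsto (Q : ℕ → Prop) (hQ : Div Q) (k Δ : ℕ) (hΔ : 0 < Δ) :
    Tendsto (fun N : ℕ => ∑ p ∈ wn Q k Δ N, (1 : ℝ) / p) atTop atTop := by
  classical
  have h1 : ∀ᶠ N : ℕ in atTop, (∑ p ∈ (Icc 1 N).filter (fun p => p.Prime ∧ Q p ∧ Real.log N < p),
      (1 : ℝ) / p) + (- (Δ + ((1 + 28 * k) + (1 + 28)) : ℝ)) ≤ ∑ p ∈ wn Q k Δ N, (1 : ℝ) / p := by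
    filter_upwards [eventually_ge_atTop 3] with N hN
    have hl2 : 2 ≤ el N := by
      unfold el
      have h3 : (1 : ℝ) ≤ Real.log N := by
        rw [Real.le_log_iff_exp_le (by positivity)]
        have := Real.exp_one_lt_d9
        have h4 : (3 : ℝ) ≤ N := by exact_mod_cast hN
        linarith
      have : 1 ≤ ⌊Real.log N⌋₊ := Nat.one_le_floor_iff _ |>.2 h3
      omega
    set l := el N with hl
    set z := Nat.sqrt N with hz
    have hz1 : 1 ≤ z := by
      rw [hz]; exact Nat.sqrt_pos.2 (by omega)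
    have hz2 : N < (z + 1) ^ 2 := by
      have := Nat.lt_succ_sqrt N
      rw [pow_two]; exact this
    have hsub : (Icc 1 N).filter (fun p => p.Prime ∧ Q p ∧ Real.log N < p)
        ⊆ wn Q k Δ N ∪ (Δ.primeFactors ∪ (({l} ∪ (Ioc l (l ^ 4 ^ k)).filter Nat.Prime)
          ∪ ({z + 1} ∪ (Ioc (z + 1) ((z + 1) ^ 4)).filter Nat.Prime))) := by
      intro p hp
      rw [mem_filter, mem_Icc] at hp
      obtain ⟨⟨hp1, hpN⟩, hpp, hpQ, hpl⟩ := hp
      have hlp : l ≤ p := by
        have h5 := Nat.floor_lt (Real.log_natCast_nonneg N) |>.2 hpl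
        rw [hl]; unfold el; omega
      simp only [mem_union, mem_filter, mem_singleton, mem_Ioc, Nat.mem_primeFactors, wn, mem_Icc]
      by_cases h2 : p ∣ Δ
      · right; left; exact ⟨hpp, h2, hΔ.ne'⟩
      · by_cases h3 : l ^ 4 ^ k < p
        · by_cases h4 : p ^ 2 ≤ N
          · left; exact ⟨⟨hp1, hpN⟩, hpp, hpQ, h2, h3, h4⟩
          · right; right; right
            push Not at h4
            have h5 : z < p := by
              rw [hz]; exact Nat.sqrt_lt'.2 h4
            rcases Nat.lt_or_ge (z + 1) p with h6 | h6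
            · right
              refine ⟨⟨h6, ?_⟩, hpp⟩
              calc p ≤ N := hpN
                _ ≤ (z + 1) ^ 2 := hz2.le
                _ ≤ (z + 1) ^ 4 := Nat.pow_le_pow_right (by omega) (by norm_num)
            · left; omega
        · right; right; left
          push Not at h3
          rcases Nat.lt_or_ge l p with h6 | h6
          · right; exact ⟨⟨h6, h3⟩, hpp⟩
          · left; omega
    have hnn : ∀ p : ℕ, (0 : ℝ) ≤ 1 / p := fun p => by positivity
    have hu : ∀ S T : Finset ℕ, ∑ p ∈ S ∪ T, (1 : ℝ) / p ≤ ∑ p ∈ S, (1 : ℝ) / p + ∑ p ∈ T, (1 : ℝ) / p := by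
      intro S T
      have := sum_union_inter (s₁ := S) (s₂ := T) (f := fun p : ℕ => (1 : ℝ) / p)
      have h7 : 0 ≤ ∑ p ∈ S ∩ T, (1 : ℝ) / p := sum_nonneg fun p _ => hnn p
      linarith
    have hsing : ∀ a : ℕ, 1 ≤ a → ∑ p ∈ ({a} : Finset ℕ), (1 : ℝ) / p ≤ 1 := by
      intro a ha
      rw [sum_singleton]
      have : (1 : ℝ) ≤ a := by exact_mod_cast ha
      rw [div_le_one (by linarith)]
      exact this
    have hD : ∑ p ∈ Δ.primeFactors, (1 : ℝ) / p ≤ Δ := by
      calc ∑ p ∈ Δ.primeFactors, (1 : ℝ) / p ≤ ∑ p ∈ Δ.primeFactors, (1 : ℝ) := by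
            apply sum_le_sum
            intro p hp
            have : (1 : ℝ) ≤ p := by exact_mod_cast (Nat.prime_of_mem_primeFactors hp).one_lt.le
            rw [div_le_one (by linarith)]
            exact this
        _ = (Δ.primeFactors.card : ℝ) := by simp
        _ ≤ Δ := by
            have h8 : Δ.primeFactors ⊆ Icc 1 Δ := by
              intro p hp
              rw [mem_Icc]
              exact ⟨(Nat.prime_of_mem_primeFactors hp).one_lt.le,
                Nat.le_of_dvd hΔ (Nat.dvd_of_mem_primeFactors hp)⟩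
            have := card_le_card h8
            simp at this
            exact_mod_cast this
    have hM1 := mp_iter l hl2 k
    have hM2 := mertens_pow (z + 1) (by omega)
    have h9 : ∑ p ∈ (Icc 1 N).filter (fun p => p.Prime ∧ Q p ∧ Real.log N < p), (1 : ℝ) / p
        ≤ ∑ p ∈ wn Q k Δ N, (1 : ℝ) / p + (Δ + ((1 + 28 * k) + (1 + 28))) := by
      refine (sum_le_sum_of_subset_of_nonneg hsub (fun p _ _ => hnn p)).trans ?_
      refine (hu _ _).trans ?_
      gcongr
      refine (hu _ _).trans ?_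
      gcongr
      refine (hu _ _).trans ?_
      gcongr
      · refine (hu _ _).trans ?_
        gcongr
        exact hsing l (by omega)
      · refine (hu _ _).trans ?_
        gcongr
        exact hsing (z + 1) (by omega)
    linarith
  exact tendsto_atTop_mono' _ h1 (tendsto_atTop_add_const_right _ _ hQ)

open Classical in
private noncomputable def bd (Q : ℕ → Prop) (k A B N : ℕ) : Finset ℕ :=
  (range N).filter (fun n => ∀ p, Q p → p.Prime → el N ^ 4 ^ k < p →
    (A * n + B).factorization p ≠ 1)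

private lemma bd_tendsto (Q : ℕ → Prop) (hQ : Div Q) (k A B : ℕ) (hA : 0 < A) (hB : 0 < B) :
    Tendsto (fun N : ℕ => ((bd Q k A B N).card : ℝ) / N) atTop (𝓝 0) := by
  classical
  have hE := wn_tendsto Q hQ k A hA
  have hel : Tendsto (fun N : ℕ => ((el N : ℝ)) ^ 4 ^ k) atTop atTop := by
    apply (tendsto_pow_atTop (by positivity)).comp
    refine tendsto_atTop_mono (fun N => (log_lt_el N).le) ?_
    exact Real.tendsto_log_atTop.comp tendsto_natCast_atTop_atTop
  have hlim : Tendsto (fun N : ℕ => 5 / (∑ p ∈ wn Q k A N, (1 : ℝ) / p)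
      + (A + B : ℝ) * (2 / (el N : ℝ) ^ 4 ^ k)) atTop (𝓝 0) := by
    have h1 : Tendsto (fun N : ℕ => 5 / (∑ p ∈ wn Q k A N, (1 : ℝ) / p)) atTop (𝓝 0) :=
      hE.const_div_atTop 5
    have h2 : Tendsto (fun N : ℕ => 2 / (el N : ℝ) ^ 4 ^ k) atTop (𝓝 0) := hel.const_div_atTop 2
    have h3 := h1.add (h2.const_mul (A + B : ℝ))
    simpa using h3
  refine squeeze_zero' (Eventually.of_forall fun N => by positivity) ?_ hlim
  filter_upwards [hE.eventually_ge_atTop 1, eventually_ge_atTop 1] with N hN1 hN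
  have hNr : (0 : ℝ) < N := by exact_mod_cast hN
  have hsub : bd Q k A B N ⊆ (range N).filter (fun n => ∀ p ∈ wn Q k A N, ¬ p ∣ A * n + B)
      ∪ (range N).filter (fun n => ∃ p ∈ wn Q k A N, p ^ 2 ∣ A * n + B) := by
    intro n hn
    simp only [bd, mem_filter] at hn
    simp only [mem_union, mem_filter]
    by_cases h : ∀ p ∈ wn Q k A N, ¬ p ∣ A * n + B
    · left; exact ⟨hn.1, h⟩
    · right
      refine ⟨hn.1, ?_⟩
      push Not at h
      obtain ⟨p, hp, hpd⟩ := h
      refine ⟨p, hp, ?_⟩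
      simp only [wn, mem_filter] at hp
      have h1 := hn.2 p hp.2.2.1 hp.2.1 hp.2.2.2.2.1
      have h2 : A * n + B ≠ 0 := by omega
      have h3 := hp.2.1.factorization_pos_of_dvd h2 hpd
      rw [hp.2.1.pow_dvd_iff_le_factorization h2]
      omega
  have hS : ∀ p ∈ wn Q k A N, p.Prime ∧ ¬ p ∣ A := by
    intro p hp
    simp only [wn, mem_filter] at hp
    exact ⟨hp.2.1, hp.2.2.2.1⟩
  have hcard : (wn Q k A N).card ^ 2 ≤ N := by
    have h1 : wn Q k A N ⊆ Icc 1 (Nat.sqrt N) := by
      intro p hp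
      simp only [wn, mem_filter, mem_Icc] at hp
      rw [mem_Icc]
      exact ⟨hp.1.1, Nat.le_sqrt'.2 hp.2.2.2.2.2⟩
    have h2 := card_le_card h1
    simp only [Nat.card_Icc, add_tsub_cancel_right] at h2
    calc (wn Q k A N).card ^ 2 ≤ (Nat.sqrt N) ^ 2 := by gcongr
      _ ≤ N := Nat.sqrt_le' N
  have h1 := card_none A B (wn Q k A N) hS N hcard hN1
  have hy : 0 < el N ^ 4 ^ k := pow_pos (el_pos N) _
  have h2 := card_square A B hA hB (wn Q k A N) (el N ^ 4 ^ k) hy (by
    intro p hp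
    simp only [wn, mem_filter] at hp
    exact hp.2.2.2.2.1) N
  rw [div_le_iff₀ hNr]
  calc ((bd Q k A B N).card : ℝ)
      ≤ (((range N).filter (fun n => ∀ p ∈ wn Q k A N, ¬ p ∣ A * n + B)).card : ℝ)
        + (((range N).filter (fun n => ∃ p ∈ wn Q k A N, p ^ 2 ∣ A * n + B)).card : ℝ) := by
        exact_mod_cast (card_le_card hsub).trans (card_union_le _ _)
    _ ≤ 5 * N / (∑ p ∈ wn Q k A N, (1 : ℝ) / p) + (A + B) * N * (2 / ((el N ^ 4 ^ k : ℕ) : ℝ)) := by
        gcongr
    _ = _ := by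
        push_cast
        ring

open Classical in
theorem nop (P : Set ℕ) (hP : Pool.H2.Sp.Thick P) (C A B : ℕ) (hA : 0 < A) :
    Tendsto (fun x : ℕ => (((range x).filter (fun t => ∀ q ∈ P, q.Prime → Pool.H2.Sp.el x ^ C < q →
      (A * t + B).factorization q ≠ 1)).card : ℝ) / x) atTop (𝓝 0) := by
  have hQ : Div (fun p => p ∈ P) := hP
  have hpow : ∀ x : ℕ, el x ^ C ≤ el x ^ 4 ^ C := fun x =>
    Nat.pow_le_pow_right (el_pos x) (Nat.lt_pow_self (by norm_num)).le
  have hsq : ∀ B' : ℕ, 0 < B' → Tendsto (fun x : ℕ =>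
      (((bd (fun p => p ∈ P) C A B' x).card : ℝ) + 1) / x) atTop (𝓝 0) := by
    intro B' hB'
    have h1 := bd_tendsto (fun p => p ∈ P) hQ C A B' hA hB'
    have h2 : Tendsto (fun x : ℕ => (1 : ℝ) / x) atTop (𝓝 0) := tendsto_one_div_atTop_nhds_zero_nat
    have h3 := h1.add h2
    rw [add_zero] at h3
    refine h3.congr fun x => ?_
    rw [add_div]
  rcases Nat.eq_zero_or_pos B with hB | hB
  · subst hB
    refine squeeze_zero (fun x => by positivity) (fun x => ?_) (hsq A hA)
    have h1 : (range x).filter (fun t => ∀ q ∈ P, q.Prime → el x ^ C < q →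
        (A * t + 0).factorization q ≠ 1) ⊆ insert 0 ((bd (fun p => p ∈ P) C A A x).image (· + 1)) := by
      intro t ht
      rw [mem_filter, mem_range] at ht
      rw [mem_insert, mem_image]
      rcases Nat.eq_zero_or_pos t with h | h
      · left; exact h
      · right
        refine ⟨t - 1, ?_, by omega⟩
        unfold bd
        rw [mem_filter, mem_range]
        refine ⟨by omega, fun q hq hqp hqx => ?_⟩
        have h2 := ht.2 q hq hqp ((hpow x).trans_lt hqx)
        have h3 : A * (t - 1) + A = A * t + 0 := by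
          obtain ⟨s, rfl⟩ : ∃ s, t = s + 1 := ⟨t - 1, by omega⟩
          simp only [Nat.add_sub_cancel]
          ring
        rw [h3]
        exact h2
    have h2 := (card_le_card h1).trans (card_insert_le _ _)
    have h3 := h2.trans (Nat.add_le_add_right card_image_le 1)
    gcongr
    exact_mod_cast h3
  · refine squeeze_zero (fun x => by positivity) (fun x => ?_) (hsq B hB)
    have h1 : (range x).filter (fun t => ∀ q ∈ P, q.Prime → el x ^ C < q →
        (A * t + B).factorization q ≠ 1) ⊆ bd (fun p => p ∈ P) C A B x := by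
      intro t ht
      rw [mem_filter] at ht
      unfold bd
      rw [mem_filter]
      exact ⟨ht.1, fun q hq hqp hqx => ht.2 q hq hqp ((hpow x).trans_lt hqx)⟩
    have h2 := card_le_card h1
    gcongr
    have h3 := h2.trans (Nat.le_succ _)
    exact_mod_cast h3

end Pool.H2.MT
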