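import Mathlib
import Pool.Agent.H2.MT.Mer

/-!
Module STR (30 min). The strip: few `t` have a prime factor of `A t + B` in `[x^(1/2), x^(1/2+δ)]`.

For `x` large such primes do not divide `A`, so at most `x/q + 1 ≤ 2 x/q` values `t < x` per prime (`q ≤ x^(3/4) ≤ x`); `mer_mid`.
-/

set_option autoImplicit false

open Finset

namespace Pool.H2.MT

private lemma str_one (q A B x : ℕ) (hq : q.Prime) (hA : 0 < A) (hAq : A < q) :
    (((range x).filter (fun t => q ∣ A * t + B)).card : ℝ) ≤ (x : ℝ) / q + 1 := by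
  have hcop : Nat.Coprime q A := by
    rw [Nat.Prime.coprime_iff_not_dvd hq]
    exact fun hd => absurd (Nat.le_of_dvd hA hd) (by omega)
  have hc : ∀ t ∈ (range x).filter (fun t => q ∣ A * t + B),
      ∀ t' ∈ (range x).filter (fun t => q ∣ A * t + B), t ≡ t' [MOD q] := by
    intro t ht t' ht'
    rw [mem_filter] at ht ht'
    have h1 : A * t + B ≡ A * t' + B [MOD q] :=
      ((Nat.modEq_zero_iff_dvd).2 ht.2).trans ((Nat.modEq_zero_iff_dvd).2 ht'.2).symm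
    exact Nat.ModEq.cancel_left_of_coprime hcop (Nat.ModEq.add_right_cancel' B h1)
  have h1 : ((range x).filter (fun t => q ∣ A * t + B)).card ≤ (range (x / q + 1)).card := by
    refine card_le_card_of_injOn (fun t => t / q) (fun t ht => ?_) (fun t ht t' ht' h => ?_)
    · have h2 := mem_range.1 (mem_filter.1 ht).1
      have h3 : t / q ≤ x / q := Nat.div_le_div_right h2.le
      simp only [coe_range, Set.mem_Iio]
      omega
    · have h2 : t % q = t' % q := hc t ht t' ht'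
      have h3 : t / q = t' / q := h
      rw [← Nat.div_add_mod t q, ← Nat.div_add_mod t' q, h2, h3]
  rw [card_range] at h1
  have h2 : ((x / q + 1 : ℕ) : ℝ) ≤ (x : ℝ) / q + 1 := by
    push_cast
    have := Nat.cast_div_le (α := ℝ) (m := x) (n := q)
    linarith
  exact (by exact_mod_cast h1 : (((range x).filter (fun t => q ∣ A * t + B)).card : ℝ) ≤
    ((x / q + 1 : ℕ) : ℝ)).trans h2

open Classical in
theorem strip (A B : ℕ) (hA : 0 < A) : ∃ K : ℝ, 0 < K ∧ ∀ δ : ℝ, 0 < δ → δ ≤ 1 / 4 →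
    ∃ x0 : ℕ, ∀ x : ℕ, x0 ≤ x →
      (((range x).filter (fun t => ∃ q : ℕ, q.Prime ∧ (x : ℝ) ^ (1 / 2 : ℝ) ≤ q ∧
        (q : ℝ) ≤ (x : ℝ) ^ (1 / 2 + δ : ℝ) ∧ q ∣ A * t + B)).card : ℝ) ≤ K * δ * x := by
  obtain ⟨K, hK, hm⟩ := mer_mid
  refine ⟨2 * K, by positivity, fun δ hδ hδ1 => ?_⟩
  obtain ⟨x1, hx1⟩ := hm δ hδ hδ1
  refine ⟨max x1 ((A + 1) ^ 2), fun x hx => ?_⟩
  have hxx := hx1 x ((le_max_left _ _).trans hx)
  have hxA : (A + 1) ^ 2 ≤ x := (le_max_right _ _).trans hx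
  have hx0 : 1 ≤ x := le_trans (Nat.one_le_pow _ _ (by omega)) hxA
  have hxr : (1 : ℝ) ≤ x := by exact_mod_cast hx0
  have hhalf : ((A + 1 : ℕ) : ℝ) ≤ (x : ℝ) ^ (1 / 2 : ℝ) := by
    rw [← Real.sqrt_eq_rpow]
    apply Real.le_sqrt_of_sq_le
    exact_mod_cast hxA
  obtain ⟨S, hS⟩ : ∃ S : Finset ℕ, S = (range (x + 1)).filter (fun q : ℕ => q.Prime ∧
    (x : ℝ) ^ (1 / 2 : ℝ) ≤ q ∧ (q : ℝ) ≤ (x : ℝ) ^ (1 / 2 + δ : ℝ)) := ⟨_, rfl⟩
  have hsub : (range x).filter (fun t => ∃ q : ℕ, q.Prime ∧ (x : ℝ) ^ (1 / 2 : ℝ) ≤ q ∧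
        (q : ℝ) ≤ (x : ℝ) ^ (1 / 2 + δ : ℝ) ∧ q ∣ A * t + B) ⊆
      S.biUnion (fun q => (range x).filter (fun t => q ∣ A * t + B)) := by
    intro t ht
    rw [mem_filter] at ht
    obtain ⟨htx, q, hq, h1, h2, hd⟩ := ht
    rw [mem_biUnion]
    refine ⟨q, ?_, mem_filter.2 ⟨htx, hd⟩⟩
    rw [hS, mem_filter, mem_range]
    refine ⟨?_, hq, h1, h2⟩
    have h3 : (x : ℝ) ^ (1 / 2 + δ : ℝ) ≤ (x : ℝ) ^ (1 : ℝ) :=
      Real.rpow_le_rpow_of_exponent_le hxr (by linarith)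
    rw [Real.rpow_one] at h3
    have h4 : (q : ℝ) ≤ x := h2.trans h3
    have h5 : q ≤ x := by exact_mod_cast h4
    omega
  have hcard : ∀ q ∈ S, (((range x).filter (fun t => q ∣ A * t + B)).card : ℝ) ≤
      2 * x * (1 / (q : ℝ)) := by
    intro q hq
    rw [hS, mem_filter, mem_range] at hq
    obtain ⟨hqx, hqp, h1, _⟩ := hq
    have hAq : A < q := by
      have h2 : ((A + 1 : ℕ) : ℝ) ≤ q := hhalf.trans h1
      have h3 : A + 1 ≤ q := by exact_mod_cast h2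
      omega
    have hq0 : (0 : ℝ) < q := by exact_mod_cast hqp.pos
    have h4 : (1 : ℝ) ≤ x * (1 / (q : ℝ)) := by
      rw [mul_one_div, le_div_iff₀ hq0, one_mul]
      exact_mod_cast (by omega : q ≤ x)
    have h5 := str_one q A B x hqp hA hAq
    calc (((range x).filter (fun t => q ∣ A * t + B)).card : ℝ) ≤ x / q + 1 := h5
      _ ≤ x / q + x * (1 / (q : ℝ)) := by linarith
      _ = 2 * x * (1 / (q : ℝ)) := by ring
  have hsum := hxx S (by
    intro q hq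
    rw [hS, mem_filter] at hq
    exact hq.2)
  calc (((range x).filter (fun t => ∃ q : ℕ, q.Prime ∧ (x : ℝ) ^ (1 / 2 : ℝ) ≤ q ∧
        (q : ℝ) ≤ (x : ℝ) ^ (1 / 2 + δ : ℝ) ∧ q ∣ A * t + B)).card : ℝ)
      ≤ ((S.biUnion (fun q => (range x).filter (fun t => q ∣ A * t + B))).card : ℝ) := by
        exact_mod_cast card_le_card hsub
    _ ≤ ∑ q ∈ S, (((range x).filter (fun t => q ∣ A * t + B)).card : ℝ) := by
        exact_mod_cast card_biUnion_le
    _ ≤ ∑ q ∈ S, 2 * x * (1 / (q : ℝ)) := sum_le_sum hcard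
    _ = 2 * x * ∑ q ∈ S, 1 / (q : ℝ) := by rw [mul_sum]
    _ ≤ 2 * x * (K * δ) := mul_le_mul_of_nonneg_left hsum (by positivity)
    _ = 2 * K * δ * x := by ring

end Pool.H2.MT
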