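import Mathlib
import Pool.Agent.H5.W.Defs
import Pool.Agent.H5.W.Inner2

/-!
Module RHO (50 min, elementary). `rho n = ∏_{p ∣ n} (1 + 1/p)`.

`rho_sub`: `rho (m n) ≤ rho m * rho n` for `m, n ≥ 1` (`(m n).primeFactors = m.primeFactors ∪ n.primeFactors`, factors `≥ 1`).
`rho_sum`: `rho(n)² ≤ ∑_{d ∣ n, d squarefree} 3^ω(d)/d` (`(1 + 1/p)² ≤ 1 + 3/p`, `Finset.prod_one_add`/`Nat.sum_divisors..` as in
H5/W). Hence `∑_{n∈S} rho(n)²/n ≤ ∑_{d ≤ M} (3^ω(d)/d²) ∑_{k : dk ∈ [a,M]} 1/k`, `∑_{k∈[a/d, M/d]} 1/k ≤ 1 + log(M/a) + 1` (for `a/d < 1` it is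
`≤ 1 + log(M/d) ≤ 1 + log(M/a)`; else `≤ 1/k_0 + log(M/a)`), and `∑_d 3^ω(d)/d² ≤ ∏_p (1 + 3/p²) < ∞`
(or `3^ω(d) ≤ K √d`: `3^ω(d) ≤ ∏_{p∣d} 3`, `∑ 1/d^(3/2)` converges).
-/

set_option autoImplicit false

open Finset

namespace Pool.H2.MT

open Pool.Agent.H5.W

theorem rho_sub (m n : ℕ) (hm : 1 ≤ m) (hn : 1 ≤ n) : rho (m * n) ≤ rho m * rho n := by
  unfold rho
  rw [Nat.primeFactors_mul (by omega) (by omega)]
  have h1 : (∏ p ∈ m.primeFactors ∪ n.primeFactors, (1 + 1 / (p : ℝ))) *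
      (∏ p ∈ m.primeFactors ∩ n.primeFactors, (1 + 1 / (p : ℝ))) =
      (∏ p ∈ m.primeFactors, (1 + 1 / (p : ℝ))) * ∏ p ∈ n.primeFactors, (1 + 1 / (p : ℝ)) :=
    Finset.prod_union_inter
  rw [← h1]
  have h2 : (1 : ℝ) ≤ ∏ p ∈ m.primeFactors ∩ n.primeFactors, (1 + 1 / (p : ℝ)) := by
    apply Finset.one_le_prod
    intro p _
    have : (0 : ℝ) ≤ 1 / (p : ℝ) := by positivity
    linarith
  have h3 : (0 : ℝ) ≤ ∏ p ∈ m.primeFactors ∪ n.primeFactors, (1 + 1 / (p : ℝ)) :=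
    prod_nonneg fun p _ => by positivity
  exact le_mul_of_one_le_right h3 h2

private lemma harm (k n : ℕ) (hk : 1 ≤ k) :
    ∑ i ∈ Ioc k (k + n), 1 / (i : ℝ) ≤ Real.log (((k + n : ℕ) : ℝ) / k) := by
  have hk0 : (0 : ℝ) < k := by exact_mod_cast hk
  induction n with
  | zero => simp [div_self hk0.ne']
  | succ n ih =>
    rw [show k + (n + 1) = (k + n) + 1 by ring, ← Finset.insert_Ioc_right_eq_Ioc_add_one (by omega),
      sum_insert (by simp)]
    have hm : (0 : ℝ) < ((k + n : ℕ) : ℝ) := by exact_mod_cast (by omega : 0 < k + n)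
    have h1 : 1 / (((k + n + 1 : ℕ) : ℝ)) ≤ Real.log ((((k + n + 1 : ℕ) : ℝ)) / ((k + n : ℕ) : ℝ)) := by
      have h2 := Real.one_sub_inv_le_log_of_pos
        (show (0 : ℝ) < (((k + n + 1 : ℕ) : ℝ)) / ((k + n : ℕ) : ℝ) by positivity)
      have h3 : 1 - ((((k + n + 1 : ℕ) : ℝ)) / ((k + n : ℕ) : ℝ))⁻¹ = 1 / (((k + n + 1 : ℕ) : ℝ)) := by
        push_cast at hm ⊢
        field_simp
        ring
      rw [h3] at h2
      exact h2
    have h4 : Real.log ((((k + n + 1 : ℕ) : ℝ)) / k) =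
        Real.log ((((k + n + 1 : ℕ) : ℝ)) / ((k + n : ℕ) : ℝ)) + Real.log (((k + n : ℕ) : ℝ) / k) := by
      rw [← Real.log_mul (by positivity) (by positivity)]
      congr 1
      field_simp
    rw [h4]
    exact add_le_add h1 ih

private lemma harm_set (a M : ℝ) (ha : 0 < a) (haM : a ≤ M) (S : Finset ℕ)
    (hS : ∀ k ∈ S, 1 ≤ k ∧ a ≤ k ∧ (k : ℝ) ≤ M) :
    ∑ k ∈ S, 1 / (k : ℝ) ≤ 1 + Real.log (M / a) := by
  have hl : 0 ≤ Real.log (M / a) := Real.log_nonneg (by rwa [le_div_iff₀ ha, one_mul])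
  rcases S.eq_empty_or_nonempty with rfl | hne
  · simp; linarith
  · have hmin := S.min'_mem hne
    have hmax := S.max'_mem hne
    set k0 := S.min' hne with hk0
    set k1 := S.max' hne with hk1
    have h01 : k0 ≤ k1 := S.min'_le_max' hne
    have hk0' := hS k0 hmin
    have hk1' := hS k1 hmax
    have hk0r : (0 : ℝ) < k0 := by exact_mod_cast hk0'.1
    have hsub : S ⊆ insert k0 (Ioc k0 (k0 + (k1 - k0))) := by
      intro k hk
      have h1 := S.min'_le k hk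
      have h2 := S.le_max' k hk
      rw [mem_insert, mem_Ioc]
      omega
    calc ∑ k ∈ S, 1 / (k : ℝ) ≤ ∑ k ∈ insert k0 (Ioc k0 (k0 + (k1 - k0))), 1 / (k : ℝ) :=
          sum_le_sum_of_subset_of_nonneg hsub fun _ _ _ => by positivity
      _ = 1 / (k0 : ℝ) + ∑ k ∈ Ioc k0 (k0 + (k1 - k0)), 1 / (k : ℝ) := by
          rw [sum_insert (by simp)]
      _ ≤ 1 + Real.log (((k0 + (k1 - k0) : ℕ) : ℝ) / k0) := by
          apply add_le_add _ (harm k0 (k1 - k0) hk0'.1)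
          rw [div_le_one hk0r]
          exact_mod_cast hk0'.1
      _ ≤ 1 + Real.log (M / a) := by
          rw [show k0 + (k1 - k0) = k1 by omega]
          have h3 : (k1 : ℝ) / k0 ≤ M / a := by
            apply div_le_div₀ (ha.le.trans haM) hk1'.2.2 ha hk0'.2.1
          have h4 : (0 : ℝ) < (k1 : ℝ) / k0 := by
            have : (0 : ℝ) < k1 := by exact_mod_cast hk1'.1
            positivity
          have := Real.log_le_log h4 h3
          linarith

private lemma three_pow (S : Finset ℕ) (hS : ∀ p ∈ S, p.Prime) :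
    ∏ p ∈ S, (3 / (p : ℝ)) ≤ 81 * (1 / Real.sqrt ((∏ p ∈ S, p : ℕ) : ℝ)) := by
  have h1 : ∏ p ∈ S, (3 / (p : ℝ)) ≤
      ∏ p ∈ S, ((if p < 9 then (3 : ℝ) else 1) * (1 / Real.sqrt p)) := by
    apply prod_le_prod
    · intro p _; positivity
    · intro p hp
      have hp0 : (0 : ℝ) < p := by exact_mod_cast (hS p hp).pos
      have hs : (0 : ℝ) < Real.sqrt p := Real.sqrt_pos.2 hp0
      have hss : Real.sqrt p * Real.sqrt p = p := Real.mul_self_sqrt hp0.le
      rw [mul_one_div, div_le_div_iff₀ hp0 hs]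
      split_ifs with h
      · have h2 : Real.sqrt p ≤ p := by
          rw [Real.sqrt_le_left hp0.le]
          have : (1 : ℝ) ≤ p := by exact_mod_cast (hS p hp).one_lt.le
          nlinarith
        nlinarith
      · have h3 : (9 : ℝ) ≤ p := by exact_mod_cast not_lt.1 h
        have h4 : (3 : ℝ) ≤ Real.sqrt p := by
          rw [Real.le_sqrt (by norm_num) hp0.le]
          linarith
        nlinarith
  refine h1.trans ?_
  rw [prod_mul_distrib]
  have h5 : ∏ p ∈ S, (if p < 9 then (3 : ℝ) else 1) ≤ 81 := by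
    rw [prod_ite, prod_const_one, mul_one, prod_const]
    have h6 : (S.filter (fun p => p < 9)) ⊆ {2, 3, 5, 7} := by
      intro p hp
      rw [mem_filter] at hp
      have hpp := hS p hp.1
      have := hp.2
      interval_cases p <;> first | (simp; done) | (exfalso; revert hpp; norm_num)
    have h7 := card_le_card h6
    have h8 : (({2, 3, 5, 7} : Finset ℕ)).card = 4 := by decide
    rw [h8] at h7
    calc (3 : ℝ) ^ (S.filter (fun p => p < 9)).card ≤ 3 ^ 4 :=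
          pow_le_pow_right₀ (by norm_num) h7
      _ = 81 := by norm_num
  have h9 : ∏ p ∈ S, (1 / Real.sqrt (p : ℝ)) = 1 / Real.sqrt ((∏ p ∈ S, p : ℕ) : ℝ) := by
    rw [prod_div_distrib, prod_const_one]
    congr 1
    push_cast
    rw [Real.sqrt_prod]
    exact fun p _ => Nat.cast_nonneg p
  rw [h9]
  exact mul_le_mul_of_nonneg_right h5 (by positivity)

private lemma rho_sq (n : ℕ) (hn : 1 ≤ n) :
    rho n ^ 2 ≤ 81 * ∑ d ∈ n.divisors, 1 / Real.sqrt (d : ℝ) := by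
  unfold rho
  rw [← prod_pow]
  have h1 : ∏ p ∈ n.primeFactors, (1 + 1 / (p : ℝ)) ^ 2 ≤
      ∏ p ∈ n.primeFactors, (1 + 3 / (p : ℝ)) := by
    apply prod_le_prod
    · intro p _; positivity
    · intro p hp
      have hp0 : (1 : ℝ) ≤ p := by exact_mod_cast (Nat.prime_of_mem_primeFactors hp).one_lt.le
      have h2 : 1 / (p : ℝ) ≤ 1 := by rw [div_le_one (by linarith)]; exact hp0
      have h3 : 0 ≤ 1 / (p : ℝ) := by positivity
      have h4 : 3 / (p : ℝ) = 3 * (1 / (p : ℝ)) := by ring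
      rw [h4]
      nlinarith
  refine h1.trans ?_
  rw [prod_one_add, mul_sum]
  have h5 : ∑ t ∈ n.primeFactors.powerset, ∏ p ∈ t, (3 / (p : ℝ)) ≤
      ∑ t ∈ n.primeFactors.powerset, 81 * (1 / Real.sqrt ((∏ p ∈ t, p : ℕ) : ℝ)) := by
    apply sum_le_sum
    intro t ht
    rw [mem_powerset] at ht
    exact three_pow t fun p hp => Nat.prime_of_mem_primeFactors (ht hp)
  refine h5.trans ?_
  have hinj : Set.InjOn (fun t : Finset ℕ => ∏ p ∈ t, p) (n.primeFactors.powerset : Set (Finset ℕ)) := by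
    intro t ht t' ht' heq
    rw [mem_coe, mem_powerset] at ht ht'
    have e1 := Nat.primeFactors_prod (fun p hp => Nat.prime_of_mem_primeFactors (ht hp))
    have e2 := Nat.primeFactors_prod (fun p hp => Nat.prime_of_mem_primeFactors (ht' hp))
    simp only at heq
    rw [← e1, ← e2, heq]
  rw [← sum_image (f := fun d : ℕ => 81 * (1 / Real.sqrt (d : ℝ))) hinj]
  apply sum_le_sum_of_subset_of_nonneg
  · intro d hd
    rw [mem_image] at hd
    obtain ⟨t, ht, rfl⟩ := hd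
    rw [mem_powerset] at ht
    rw [Nat.mem_divisors]
    exact ⟨(Finset.prod_dvd_prod_of_subset _ _ _ ht).trans (Nat.prod_primeFactors_dvd n), by omega⟩
  · intro _ _ _; positivity

theorem rho_sum : ∃ K : ℝ, 0 < K ∧ ∀ (a M : ℝ) (S : Finset ℕ), 1 ≤ a → a ≤ M →
    (∀ n ∈ S, a ≤ n ∧ (n : ℝ) ≤ M) → ∑ n ∈ S, rho n ^ 2 / n ≤ K * (1 + Real.log (M / a)) := by
  obtain ⟨C, hC, hsum⟩ := sum_three_half
  refine ⟨81 * C, by positivity, ?_⟩
  intro a M S ha haM hS
  have hl : 0 ≤ Real.log (M / a) := Real.log_nonneg (by rwa [le_div_iff₀ (by linarith), one_mul])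
  have hn1 : ∀ n ∈ S, 1 ≤ n := by
    intro n hn
    have := (hS n hn).1
    exact_mod_cast ha.trans this
  have h1 : ∑ n ∈ S, rho n ^ 2 / n ≤ ∑ n ∈ S, ∑ d ∈ n.divisors, 81 * (1 / Real.sqrt (d : ℝ)) / n := by
    apply sum_le_sum
    intro n hn
    rw [← sum_div, ← mul_sum]
    exact div_le_div_of_nonneg_right (rho_sq n (hn1 n hn)) (Nat.cast_nonneg n)
  refine h1.trans ?_
  obtain ⟨B, hB⟩ : ∃ B : ℕ, B = ⌊M⌋₊ := ⟨_, rfl⟩
  have h2 : ∑ n ∈ S, ∑ d ∈ n.divisors, 81 * (1 / Real.sqrt (d : ℝ)) / n =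
      ∑ n ∈ S, ∑ d ∈ (Icc 1 B).filter (fun d => d ∣ n), 81 * (1 / Real.sqrt (d : ℝ)) / n := by
    refine sum_congr rfl fun n hn => ?_
    congr 1
    ext d
    rw [Nat.mem_divisors, mem_filter, mem_Icc]
    constructor
    · rintro ⟨h3, h4⟩
      have h5 : d ≤ n := Nat.le_of_dvd (by omega) h3
      have h6 : n ≤ B := by rw [hB]; exact Nat.le_floor (hS n hn).2
      exact ⟨⟨Nat.pos_of_dvd_of_pos h3 (by omega), by omega⟩, h3⟩
    · rintro ⟨_, h3⟩
      exact ⟨h3, by have := hn1 n hn; omega⟩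
  rw [h2]
  simp only [sum_filter]
  rw [sum_comm]
  have h3 : ∀ d ∈ Icc 1 B, ∑ n ∈ S, (if d ∣ n then 81 * (1 / Real.sqrt (d : ℝ)) / n else 0) ≤
      81 * (1 / ((d : ℝ) * Real.sqrt d)) * (1 + Real.log (M / a)) := by
    intro d hd
    rw [mem_Icc] at hd
    have hd0 : (0 : ℝ) < d := by exact_mod_cast hd.1
    rw [← sum_filter]
    have h4 : ∑ n ∈ S.filter (fun n => d ∣ n), 81 * (1 / Real.sqrt (d : ℝ)) / (n : ℝ) =
        ∑ k ∈ (S.filter (fun n => d ∣ n)).image (fun n => n / d),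
          81 * (1 / ((d : ℝ) * Real.sqrt d)) * (1 / (k : ℝ)) := by
      rw [sum_image]
      · refine sum_congr rfl fun n hn => ?_
        rw [mem_filter] at hn
        rw [Nat.cast_div hn.2 hd0.ne']
        have hn0 : (n : ℝ) ≠ 0 := by
          have := hn1 n hn.1
          exact_mod_cast (by omega : n ≠ 0)
        have hs : Real.sqrt (d : ℝ) ≠ 0 := (Real.sqrt_pos.2 hd0).ne'
        field_simp
      · intro n hn n' hn' heq
        rw [mem_coe, mem_filter] at hn hn'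
        simp only at heq
        have e1 := Nat.div_mul_cancel hn.2
        have e2 := Nat.div_mul_cancel hn'.2
        rw [← e1, ← e2, heq]
    rw [h4, ← mul_sum]
    apply mul_le_mul_of_nonneg_left _ (by positivity)
    have h5 : M / a = (M / d) / (a / d) := by field_simp
    rw [h5]
    apply harm_set (a / d) (M / d) (by positivity) (by gcongr)
    intro k hk
    rw [mem_image] at hk
    obtain ⟨n, hn, rfl⟩ := hk
    rw [mem_filter] at hn
    have hn0 := hn1 n hn.1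
    have hdn : d ≤ n := Nat.le_of_dvd (by omega) hn.2
    rw [Nat.cast_div hn.2 hd0.ne']
    refine ⟨Nat.div_pos hdn hd.1, ?_, ?_⟩
    · exact div_le_div_of_nonneg_right (hS n hn.1).1 hd0.le
    · exact div_le_div_of_nonneg_right (hS n hn.1).2 hd0.le
  refine (sum_le_sum h3).trans ?_
  rw [← sum_mul, ← mul_sum]
  exact mul_le_mul_of_nonneg_right (mul_le_mul_of_nonneg_left (hsum _) (by norm_num)) (by linarith)

end Pool.H2.MT
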