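import Mathlib
import Pool.Agent.H2.MT.Rho
import Pool.Agent.H5.W.PairSieve

/-!
Module SVA (50 min). Pair sieve for two forms with prescribed cofactors.

`Pool.Agent.H5.W.pair_sieve` with `v = A A' t + A' B + A B'`: `A t + B = p m` gives `v = A B' + p (A' m)`, `A' t + B' = q m'` gives `v = A' B + q (A m')`. So the
parameters of `pair_sieve` are `m := A B'`, `m' := A' B` (different by `hne`), `w := A' m`, `w' := A m'`, `V := A A' x + A' B + A B'`, the finite set
`S` = image of the set of `t` under the injective map `t ↦ v` (if `v = 0` is excluded by `t ≥ 1`). `gcd(A' m, A m') ≤ A A' gcd(m, m')`, and if the set is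
non-empty `gcd(m,m')` divides `A (A' t + B') - A' (A t + B) = A B' - A' B ≠ 0`, so `gcd(m,m') ≤ A B' + A' B`.
`rhoz J E ≤ rho E` (`rhoz_le_rho`), `E = 2 w w' |A B' - A' B|`, `rho_sub`: `rho E ≤ K rho m rho m'`. `w w' = A A' m m'`. All constants depend only on
`A, B, A', B'`. `V ≤ K x` for `x ≥ 1`.
-/

set_option autoImplicit false

open Finset

namespace Pool.H2.MT

open Pool.Agent.H5.W

open Classical in
theorem sva (A B A' B' : ℕ) (hA : 0 < A) (hA' : 0 < A') (hne : A * B' ≠ A' * B) :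
    ∃ K : ℝ, 0 < K ∧ ∀ x J m m' : ℕ, 1 ≤ x → 2 ≤ J → 1 ≤ m → 1 ≤ m' →
      (((range x).filter (fun t => 1 ≤ t ∧ ∃ p q : ℕ, p.Prime ∧ q.Prime ∧ J < p ∧ J < q ∧
        A * t + B = p * m ∧ A' * t + B' = q * m')).card : ℝ) ≤
        K * x * (rho m ^ 2 / m) * (rho m' ^ 2 / m') / Real.log J ^ 2 + (J : ℝ) ^ 4 := by
  obtain ⟨C, hC, hps⟩ := pair_sieve
  obtain ⟨V1, hV1⟩ : ∃ V1 : ℕ, V1 = A * A' + A' * B + A * B' := ⟨_, rfl⟩
  obtain ⟨G, hG⟩ : ∃ G : ℕ, G = A * A' * (A * B' + A' * B) := ⟨_, rfl⟩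
  obtain ⟨R, hR⟩ : ∃ R : ℝ, R = rho 2 * (rho A' * rho A) * rho ((A * B' : ℕ) - (A' * B : ℕ) : ℤ).natAbs :=
    ⟨_, rfl⟩
  have hR1 : 1 ≤ R := by
    rw [hR]
    have := rho_ge_one 2
    have := rho_ge_one A'
    have := rho_ge_one A
    have := rho_ge_one ((A * B' : ℕ) - (A' * B : ℕ) : ℤ).natAbs
    have h1 : 1 ≤ rho A' * rho A := one_le_mul_of_one_le_of_one_le (by assumption) (by assumption)
    have h2 : 1 ≤ rho 2 * (rho A' * rho A) := one_le_mul_of_one_le_of_one_le (by assumption) h1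
    exact one_le_mul_of_one_le_of_one_le h2 (by assumption)
  have hV1p : 0 < V1 := by rw [hV1]; positivity
  have hGp : 0 < G := by
    rw [hG]
    have : 0 < A * B' + A' * B := by
      by_contra h
      have h0 : A * B' = 0 ∧ A' * B = 0 := by omega
      exact hne (h0.1.trans h0.2.symm)
    positivity
  refine ⟨C * (V1 * G) * R ^ 2, by positivity, ?_⟩
  intro x J m m' hx hJ hm hm'
  have hlog : 0 < Real.log J := Real.log_pos (by exact_mod_cast (by omega : 1 < J))
  have hmr : (0 : ℝ) < m := by exact_mod_cast hm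
  have hmr' : (0 : ℝ) < m' := by exact_mod_cast hm'
  set T : Finset ℕ := (range x).filter (fun t => 1 ≤ t ∧ ∃ p q : ℕ, p.Prime ∧ q.Prime ∧ J < p ∧
    J < q ∧ A * t + B = p * m ∧ A' * t + B' = q * m') with hT
  rcases T.eq_empty_or_nonempty with h0 | ⟨t0, ht0⟩
  · rw [h0]
    simp only [card_empty, Nat.cast_zero]
    positivity
  -- the gcd
  have hgcd : Nat.gcd (A' * m) (A * m') ≤ G := by
    rw [hT, mem_filter] at ht0
    obtain ⟨_, _, p, q, _, _, _, _, e1, e2⟩ := ht0
    obtain ⟨g, hg⟩ : ∃ g : ℕ, g = Nat.gcd m m' := ⟨_, rfl⟩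
    have hd1 : (g : ℤ) ∣ A * B' - A' * B := by
      have h1 : (g : ℤ) ∣ (A * t0 + B : ℕ) := by
        rw [e1]; push_cast
        exact Dvd.dvd.mul_left (by rw [hg]; exact_mod_cast Nat.gcd_dvd_left m m') _
      have h2 : (g : ℤ) ∣ (A' * t0 + B' : ℕ) := by
        rw [e2]; push_cast
        exact Dvd.dvd.mul_left (by rw [hg]; exact_mod_cast Nat.gcd_dvd_right m m') _
      have h3 := (h2.mul_left (A : ℤ)).sub (h1.mul_left (A' : ℤ))
      have h4 : (A : ℤ) * ((A' * t0 + B' : ℕ) : ℤ) - (A' : ℤ) * ((A * t0 + B : ℕ) : ℤ) =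
          A * B' - A' * B := by push_cast; ring
      rwa [h4] at h3
    have hne' : (A : ℤ) * B' - A' * B ≠ 0 := by
      intro h
      apply hne
      have : (A : ℤ) * B' = A' * B := by linarith
      exact_mod_cast this
    have hgle : g ≤ A * B' + A' * B := by
      have h5 : (g : ℤ).natAbs ≤ ((A : ℤ) * B' - A' * B).natAbs :=
        Nat.le_of_dvd (Int.natAbs_pos.2 hne') (Int.natAbs_dvd_natAbs.2 hd1)
      have h6 : ((A : ℤ) * B' - A' * B).natAbs ≤ A * B' + A' * B := by
        have h7 := Int.natAbs_sub_le ((A : ℤ) * B') (A' * B)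
        have h8 : ((A : ℤ) * B').natAbs = A * B' := by
          rw [← Nat.cast_mul]; exact Int.natAbs_natCast _
        have h9 : ((A' : ℤ) * B).natAbs = A' * B := by
          rw [← Nat.cast_mul]; exact Int.natAbs_natCast _
        rw [h8, h9] at h7
        exact h7
      rw [Int.natAbs_natCast] at h5
      omega
    have hgd : Nat.gcd (A' * m) (A * m') ∣ A * A' * g := by
      rw [hg, ← Nat.gcd_mul_left]
      apply Nat.dvd_gcd
      · refine (Nat.gcd_dvd_left _ _).trans ?_
        exact ⟨A, by ring⟩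
      · refine (Nat.gcd_dvd_right _ _).trans ?_
        exact ⟨A', by ring⟩
    have hgp : 0 < g := by rw [hg]; exact Nat.gcd_pos_of_pos_left _ hm
    refine (Nat.le_of_dvd (by positivity) hgd).trans ?_
    rw [hG]
    exact Nat.mul_le_mul_left _ hgle
  -- the sieve
  have hinj : Function.Injective (fun t : ℕ => A * A' * t + A' * B + A * B') := by
    intro t t' h
    simp only at h
    have h1 : A * A' * t = A * A' * t' := by omega
    exact Nat.eq_of_mul_eq_mul_left (by positivity) h1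
  have key := hps J (A * B') (A' * B) (A' * m) (A * m') (A * A' * x + A' * B + A * B') hJ
    (by positivity) (by positivity) hne (T.image (fun t : ℕ => A * A' * t + A' * B + A * B')) (by
      intro v hv
      rw [mem_image] at hv
      obtain ⟨t, ht, rfl⟩ := hv
      rw [hT, mem_filter, mem_range] at ht
      obtain ⟨h1, h2, p, q, hp, hq, hJp, hJq, e1, e2⟩ := ht
      refine ⟨?_, ?_, p, q, hp, hq, hJp, hJq, ?_, ?_⟩
      · have : 0 < A * A' * t := by positivity
        omega
      · have : A * A' * t ≤ A * A' * x := Nat.mul_le_mul_left _ h1.le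
        omega
      · have : A' * (A * t + B) = A' * (p * m) := by rw [e1]
        nlinarith
      · have : A * (A' * t + B') = A * (q * m') := by rw [e2]
        nlinarith)
  rw [card_image_of_injective _ hinj] at key
  refine key.trans ?_
  apply add_le_add _ le_rfl
  apply div_le_div_of_nonneg_right _ (by positivity)
  -- bound of `rhoz`
  have hE0 : EE (A * B') (A' * B) (A' * m) (A * m') ≠ 0 :=
    (EE_pos (by positivity) (by positivity) hne).ne'
  have hrz0 : 0 ≤ rhoz J (EE (A * B') (A' * B) (A' * m) (A * m')) := by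
    unfold rhoz
    exact prod_nonneg fun p _ => by positivity
  have hrho : rhoz J (EE (A * B') (A' * B) (A' * m) (A * m')) ≤ R * (rho m * rho m') := by
    refine (rhoz_le_rho _ _ hE0).trans ?_
    unfold EE
    have hd : 1 ≤ ((((A * B' : ℕ) : ℤ)) - ((A' * B : ℕ) : ℤ)).natAbs := by
      rw [Nat.one_le_iff_ne_zero, Int.natAbs_ne_zero]
      intro h
      apply hne
      exact_mod_cast sub_eq_zero.1 h
    have r0 : ∀ n, 0 ≤ rho n := fun n => zero_le_one.trans (rho_ge_one n)
    have s1 := rho_sub (2 * (A' * m) * (A * m')) _ (Nat.succ_le_of_lt (by positivity)) hd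
    have s2 := rho_sub (2 * (A' * m)) (A * m') (Nat.succ_le_of_lt (by positivity))
      (Nat.succ_le_of_lt (by positivity))
    have s3 := rho_sub 2 (A' * m) (by norm_num) (Nat.succ_le_of_lt (by positivity))
    have s4 := rho_sub A' m hA' hm
    have s5 := rho_sub A m' hA hm'
    refine s1.trans ?_
    rw [hR]
    have t1 : rho (2 * (A' * m) * (A * m')) ≤ rho 2 * (rho A' * rho m) * (rho A * rho m') := by
      refine s2.trans ?_
      apply mul_le_mul _ s5 (r0 _) (by have := r0 2; have := r0 A'; have := r0 m; positivity)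
      exact s3.trans (mul_le_mul_of_nonneg_left s4 (r0 2))
    refine (mul_le_mul_of_nonneg_right t1 (r0 _)).trans (le_of_eq ?_)
    push_cast
    ring
  have hrho2 : rhoz J (EE (A * B') (A' * B) (A' * m) (A * m')) ^ 2 ≤
      R ^ 2 * (rho m ^ 2 * rho m' ^ 2) := by
    refine (pow_le_pow_left₀ hrz0 hrho 2).trans (le_of_eq ?_)
    ring
  have hVx : (((A * A' * x + A' * B + A * B' : ℕ)) : ℝ) ≤ V1 * x := by
    have : A * A' * x + A' * B + A * B' ≤ V1 * x := by
      rw [hV1]
      have h1 : A' * B ≤ A' * B * x := Nat.le_mul_of_pos_right _ hx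
      have h2 : A * B' ≤ A * B' * x := Nat.le_mul_of_pos_right _ hx
      nlinarith
    exact_mod_cast this
  have hww : (((A' * m : ℕ) : ℝ)) * ((A * m' : ℕ) : ℝ) ≥ m * m' := by
    have : m * m' ≤ (A' * m) * (A * m') := by
      have h1 : m ≤ A' * m := Nat.le_mul_of_pos_left _ hA'
      have h2 : m' ≤ A * m' := Nat.le_mul_of_pos_left _ hA
      exact Nat.mul_le_mul h1 h2
    exact_mod_cast this
  have hmm : (0 : ℝ) < m * m' := by positivity
  have hGr : ((Nat.gcd (A' * m) (A * m') : ℕ) : ℝ) ≤ G := by exact_mod_cast hgcd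
  have hfrac : (((A * A' * x + A' * B + A * B' : ℕ)) : ℝ) * ((Nat.gcd (A' * m) (A * m') : ℕ) : ℝ) /
      (((A' * m : ℕ) : ℝ) * ((A * m' : ℕ) : ℝ)) ≤ (V1 * x) * G / (m * m') := by
    apply div_le_div₀ (by positivity) _ hmm hww
    exact mul_le_mul hVx hGr (Nat.cast_nonneg _) (by positivity)
  calc _ ≤ C * ((V1 * x) * G / (m * m')) * (R ^ 2 * (rho m ^ 2 * rho m' ^ 2)) := by
        apply mul_le_mul _ hrho2 (by positivity) (by positivity)
        exact mul_le_mul_of_nonneg_left hfrac hC.le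
    _ = C * (V1 * G) * R ^ 2 * x * (rho m ^ 2 / m) * (rho m' ^ 2 / m') := by
        field_simp

end Pool.H2.MT
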