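import Mathlib
import Pool.Agent.H2.MT.Sva
import Pool.Agent.H2.SpDiv

/-!
Module SVC (75 min). Close pairs of very large prime factors of two different forms.

`C0 = A + B + A' + B' + 1`. For `t ≥ 1`, `t < x`: `A t + B, A' t + B' ≤ C0 x` and `1/C0 ≤ (A t + B)/(A' t + B') ≤ C0`. `F = el x ^ b ≤ x^(δ/2)` for `x` large, so
`q > x^(1/2+δ)`, `p ≥ q/F ≥ x^(1/2+δ/2)`; `m = (A t + B)/p ≤ C0 x^(1/2 - δ/2)`, `m' = (A' t + B')/q ≤ C0 x^(1/2-δ)`, and
`m/m' = ((A t + B)/(A' t + B')) (q/p) ∈ [1/C0, C0 F]`. Union bound over the pairs `(m,m')` with `1 ≤ m, m' ≤ C0 x^(1/2-δ/2)`, `m' ≤ C0 m`, `m ≤ C0 F m'`,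
`sva` with `J = ⌊x^(δ/20)⌋₊`: `∑_{(m,m')} K x (rho m²/m)(rho m'²/m')/(log J)² + (number of pairs) J^4`. By `rho_sum` for fixed `m`:
`∑_{m'} ≤ K (1 + log(C0² F))` (`m' ∈ [max(1, m/(C0 F)), C0 m]`), then `∑_{m ≤ C0 x} rho m²/m ≤ K (1 + log(C0 x))`: the first part is
`≤ K' x log x (1 + b log el x)/(δ log x)² = o(x)`; the second `≤ C0² x^(1-δ) x^(δ/5) = o(x)`.
-/

set_option autoImplicit false

open Finset

namespace Pool.H2.MT

open Pool.H2.Sp
open Pool.Agent.H5.W (rho)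

private lemma svc_asy (c0 β η : ℝ) (hη : 0 < η) :
    ∀ᶠ x : ℕ in Filter.atTop, c0 + β * Real.log (Real.log x + 1) ≤ η * Real.log x := by
  have hlog : Filter.Tendsto (fun x : ℕ => Real.log x) Filter.atTop Filter.atTop :=
    Real.tendsto_log_atTop.comp tendsto_natCast_atTop_atTop
  have h1 : ∀ᶠ y : ℝ in Filter.atTop, Real.log y ≤ (η / (4 * (|β| + 1))) * y := by
    have h := Real.isLittleO_log_id_atTop.bound (show 0 < η / (4 * (|β| + 1)) by positivity)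
    filter_upwards [h, Filter.eventually_ge_atTop (0 : ℝ)] with y hy hy0
    rw [id, Real.norm_eq_abs, Real.norm_eq_abs, abs_of_nonneg hy0] at hy
    exact (le_abs_self _).trans hy
  have h2 : ∀ᶠ y : ℝ in Filter.atTop, c0 + β * Real.log (y + 1) ≤ η * y := by
    have h3 : Filter.Tendsto (fun y : ℝ => y + 1) Filter.atTop Filter.atTop :=
      Filter.tendsto_atTop_add_const_right _ _ Filter.tendsto_id
    filter_upwards [h3.eventually h1, Filter.eventually_ge_atTop (1 : ℝ),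
      Filter.eventually_ge_atTop (2 * |c0| / η)] with y hy hy1 hy2
    have hb : 0 ≤ |β| := abs_nonneg β
    have hl : 0 ≤ Real.log (y + 1) := Real.log_nonneg (by linarith)
    have e1 : β * Real.log (y + 1) ≤ |β| * Real.log (y + 1) :=
      mul_le_mul_of_nonneg_right (le_abs_self β) hl
    have e2 : |β| * Real.log (y + 1) ≤ |β| * ((η / (4 * (|β| + 1))) * (y + 1)) :=
      mul_le_mul_of_nonneg_left hy hb
    have e3 : |β| * ((η / (4 * (|β| + 1))) * (y + 1)) ≤ η / 4 * (y + 1) := by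
      have : |β| * ((η / (4 * (|β| + 1))) * (y + 1)) = (|β| / (|β| + 1)) * (η / 4 * (y + 1)) := by
        field_simp
      rw [this]
      have h5 : |β| / (|β| + 1) ≤ 1 := by rw [div_le_one (by linarith)]; linarith
      have h6 : 0 ≤ η / 4 * (y + 1) := by positivity
      nlinarith
    have e4 : c0 ≤ η / 2 * y := by
      rw [div_le_iff₀ hη] at hy2
      have := le_abs_self c0
      linarith
    nlinarith
  exact hlog.eventually h2

open Classical in
theorem svc (A B A' B' : ℕ) (hA : 0 < A) (hA' : 0 < A') (hne : A * B' ≠ A' * B) (b : ℕ) (δ : ℝ)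
    (hδ : 0 < δ) (hδ' : δ ≤ 1 / 4) (ε : ℝ) (hε : 0 < ε) :
    ∃ x0 : ℕ, ∀ x : ℕ, x0 ≤ x →
      (((range x).filter (fun t => 1 ≤ t ∧ ∃ p q : ℕ, p.Prime ∧ q.Prime ∧ p < q ∧
        q ≤ el x ^ b * p ∧ (x : ℝ) ^ (1 / 2 + δ : ℝ) < q ∧ p ∣ A * t + B ∧
        q ∣ A' * t + B')).card : ℝ) ≤ ε * x := by
  obtain ⟨K1, hK1, hsva⟩ := sva A B A' B' hA hA' hne
  obtain ⟨K2, hK2, hrho⟩ := rho_sum
  set C0 : ℕ := A + B + A' + B' + 1 with hC0
  have hC1 : 1 ≤ C0 := by omega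
  have hC1r : (1 : ℝ) ≤ C0 := by exact_mod_cast hC1
  have hlC : 0 ≤ Real.log C0 := Real.log_nonneg hC1r
  have hlog : Filter.Tendsto (fun x : ℕ => Real.log x) Filter.atTop Filter.atTop :=
    Real.tendsto_log_atTop.comp tendsto_natCast_atTop_atTop
  have hrpow : ∀ s : ℝ, 0 < s → Filter.Tendsto (fun x : ℕ => (x : ℝ) ^ s) Filter.atTop Filter.atTop :=
    fun s hs => (tendsto_rpow_atTop hs).comp tendsto_natCast_atTop_atTop
  set η : ℝ := ε * (δ / 40) ^ 2 / (8 * K1 * K2 * K2) with hη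
  have hη0 : 0 < η := by positivity
  have E1 := svc_asy (1 + 2 * Real.log C0) b η hη0
  have E2 := svc_asy 0 b (δ / 2) (by positivity)
  have E3 := hlog.eventually_ge_atTop (1 + Real.log C0)
  have E4 := (hrpow (δ / 40) (by positivity)).eventually_ge_atTop 2
  have E5 := (hrpow δ hδ).eventually_ge_atTop (2 * (C0 : ℝ) ^ 2 / ε)
  obtain ⟨x0, hx0⟩ := (E1.and (E2.and (E3.and (E4.and E5)))).exists_forall_of_atTop
  refine ⟨max x0 1, fun x hx => ?_⟩
  obtain ⟨h1, h2, h3, h4, h5⟩ := hx0 x (by omega)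
  have hx1 : 1 ≤ x := by omega
  have hxr : (1 : ℝ) ≤ x := by exact_mod_cast hx1
  have hxp : (0 : ℝ) < x := by linarith
  set y : ℝ := Real.log x with hy
  have hy1 : 1 ≤ y := by linarith
  have hel : (el x : ℝ) ≤ y + 1 := el_le x
  have help : (0 : ℝ) < el x := by exact_mod_cast el_pos x
  set F : ℕ := el x ^ b with hF
  have hFp : 0 < F := pow_pos (el_pos x) b
  have hF1 : (1 : ℝ) ≤ F := by exact_mod_cast hFp
  have hlF : Real.log F ≤ b * Real.log (y + 1) := by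
    rw [hF]
    push_cast
    rw [Real.log_pow]
    exact mul_le_mul_of_nonneg_left (Real.log_le_log help hel) (by positivity)
  have hFx : (F : ℝ) ≤ (x : ℝ) ^ (δ / 2) := by
    rw [← Real.log_le_log_iff (by linarith) (Real.rpow_pos_of_pos hxp _), Real.log_rpow hxp]
    linarith
  -- the level
  set J : ℕ := ⌊(x : ℝ) ^ (δ / 20)⌋₊ with hJ
  have hxx : (x : ℝ) ^ (δ / 20) = (x : ℝ) ^ (δ / 40) * (x : ℝ) ^ (δ / 40) := by
    rw [← Real.rpow_add hxp]
    congr 1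
    ring
  have hJge : (x : ℝ) ^ (δ / 40) ≤ J := by
    have h6 : (x : ℝ) ^ (δ / 20) < J + 1 := Nat.lt_floor_add_one _
    rw [hxx] at h6
    nlinarith
  have hJ2 : 2 ≤ J := by
    have : (2 : ℝ) ≤ J := h4.trans hJge
    exact_mod_cast this
  have hJle : (J : ℝ) ≤ (x : ℝ) ^ (δ / 20) := Nat.floor_le (by positivity)
  have hlJ : δ / 40 * y ≤ Real.log J := by
    have h6 := Real.log_le_log (Real.rpow_pos_of_pos hxp _) hJge
    rwa [Real.log_rpow hxp] at h6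
  have hlJ0 : 0 < Real.log J := lt_of_lt_of_le (by positivity) hlJ
  set M1 : ℝ := C0 * (x : ℝ) ^ (1 / 2 - δ / 2 : ℝ) with hM1
  set M2 : ℝ := C0 * (x : ℝ) ^ (1 / 2 - δ : ℝ) with hM2
  have hM10 : 0 ≤ M1 := by positivity
  have hM20 : 0 ≤ M2 := by positivity
  set T : ℕ → ℕ → Finset ℕ := fun m m' => (range x).filter (fun t => 1 ≤ t ∧ ∃ p q : ℕ, p.Prime ∧
    q.Prime ∧ J < p ∧ J < q ∧ A * t + B = p * m ∧ A' * t + B' = q * m') with hT
  set S2 : ℕ → Finset ℕ := fun m => (Icc 1 ⌊M2⌋₊).filter (fun m' => m' ≤ C0 * m ∧ m ≤ C0 * F * m') with hS2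
  have hsub : (range x).filter (fun t => 1 ≤ t ∧ ∃ p q : ℕ, p.Prime ∧ q.Prime ∧ p < q ∧
        q ≤ F * p ∧ (x : ℝ) ^ (1 / 2 + δ : ℝ) < q ∧ p ∣ A * t + B ∧ q ∣ A' * t + B') ⊆
      (Icc 1 ⌊M1⌋₊).biUnion (fun m => (S2 m).biUnion (fun m' => T m m')) := by
    intro t ht
    rw [mem_filter, mem_range] at ht
    obtain ⟨htx, ht1, p, q, hp, hq, hpq, hqF, hxq, hpd, hqd⟩ := ht
    obtain ⟨m, hm⟩ := hpd
    obtain ⟨m', hm'⟩ := hqd
    have u1 : t ≤ A * t + B := by nlinarith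
    have u2 : A * t + B ≤ C0 * t := by nlinarith
    have u3 : t ≤ A' * t + B' := by nlinarith
    have u4 : A' * t + B' ≤ C0 * t := by nlinarith
    have hm1 : 1 ≤ m := by
      rcases Nat.eq_zero_or_pos m with h | h
      · rw [h, mul_zero] at hm; omega
      · exact h
    have hm1' : 1 ≤ m' := by
      rcases Nat.eq_zero_or_pos m' with h | h
      · rw [h, mul_zero] at hm'; omega
      · exact h
    have hp0 : 0 < p := hp.pos
    have hq0 : 0 < q := hq.pos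
    have v1 : m' ≤ C0 * m := by
      have w1 : q * m' ≤ C0 * (p * m) := by
        calc q * m' = A' * t + B' := hm'.symm
          _ ≤ C0 * t := u4
          _ ≤ C0 * (A * t + B) := Nat.mul_le_mul_left _ u1
          _ = C0 * (p * m) := by rw [hm]
      have w2 : q * m' ≤ q * (C0 * m) := by
        calc q * m' ≤ C0 * (p * m) := w1
          _ = p * (C0 * m) := by ring
          _ ≤ q * (C0 * m) := Nat.mul_le_mul_right _ hpq.le
      exact Nat.le_of_mul_le_mul_left w2 hq0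
    have v2 : m ≤ C0 * F * m' := by
      have w1 : p * m ≤ p * (C0 * F * m') := by
        calc p * m = A * t + B := hm.symm
          _ ≤ C0 * t := u2
          _ ≤ C0 * (A' * t + B') := Nat.mul_le_mul_left _ u3
          _ = C0 * (q * m') := by rw [hm']
          _ ≤ C0 * ((F * p) * m') := Nat.mul_le_mul_left _ (Nat.mul_le_mul_right _ hqF)
          _ = p * (C0 * F * m') := by ring
      exact Nat.le_of_mul_le_mul_left w1 hp0
    have hCx : (C0 : ℝ) * t ≤ C0 * x := by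
      have : (t : ℝ) ≤ x := by exact_mod_cast htx.le
      gcongr
    have hpx : (x : ℝ) ^ (1 / 2 + δ / 2 : ℝ) ≤ p := by
      have w1 : (q : ℝ) ≤ F * p := by exact_mod_cast hqF
      have w2 : (x : ℝ) ^ (1 / 2 + δ : ℝ) = (x : ℝ) ^ (1 / 2 + δ / 2 : ℝ) * (x : ℝ) ^ (δ / 2) := by
        rw [← Real.rpow_add hxp]
        congr 1
        ring
      have hp0r : (0 : ℝ) ≤ p := by positivity
      have w3 : (x : ℝ) ^ (1 / 2 + δ / 2 : ℝ) * (x : ℝ) ^ (δ / 2) ≤ (x : ℝ) ^ (δ / 2) * p := by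
        rw [← w2]
        calc (x : ℝ) ^ (1 / 2 + δ : ℝ) ≤ q := hxq.le
          _ ≤ F * p := w1
          _ ≤ (x : ℝ) ^ (δ / 2) * p := mul_le_mul_of_nonneg_right hFx hp0r
      rw [mul_comm ((x : ℝ) ^ (1 / 2 + δ / 2 : ℝ))] at w3
      exact le_of_mul_le_mul_left w3 (Real.rpow_pos_of_pos hxp _)
    have hJp : J < p := by
      have : (J : ℝ) < p := by
        calc (J : ℝ) ≤ (x : ℝ) ^ (δ / 20) := hJle
          _ < (x : ℝ) ^ (1 / 2 + δ / 2 : ℝ) := by
              refine Real.rpow_lt_rpow_of_exponent_lt ?_ (by linarith)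
              by_contra hcon
              have : (x : ℝ) = 1 := by linarith
              rw [hy, this, Real.log_one] at hy1
              linarith
          _ ≤ p := hpx
      exact_mod_cast this
    have hmM : (m : ℝ) ≤ M1 := by
      have w1 : (p : ℝ) * m ≤ C0 * x := by
        have : ((p * m : ℕ) : ℝ) ≤ ((C0 * t : ℕ) : ℝ) := by
          rw [← hm]; exact_mod_cast u2
        push_cast at this
        linarith
      have w2 : (x : ℝ) ^ (1 / 2 + δ / 2 : ℝ) * m ≤ C0 * x :=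
        (mul_le_mul_of_nonneg_right hpx (by positivity)).trans w1
      have w3 : (C0 : ℝ) * x = (x : ℝ) ^ (1 / 2 + δ / 2 : ℝ) * M1 := by
        rw [hM1]
        have : (x : ℝ) ^ (1 / 2 + δ / 2 : ℝ) * (x : ℝ) ^ (1 / 2 - δ / 2 : ℝ) = x := by
          rw [← Real.rpow_add hxp]
          have : (1 / 2 + δ / 2 : ℝ) + (1 / 2 - δ / 2) = 1 := by ring
          rw [this, Real.rpow_one]
        calc (C0 : ℝ) * x = C0 * ((x : ℝ) ^ (1 / 2 + δ / 2 : ℝ) * (x : ℝ) ^ (1 / 2 - δ / 2 : ℝ)) := by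
              rw [this]
          _ = _ := by ring
      rw [w3] at w2
      exact le_of_mul_le_mul_left w2 (Real.rpow_pos_of_pos hxp _)
    have hmM' : (m' : ℝ) ≤ M2 := by
      have w1 : (q : ℝ) * m' ≤ C0 * x := by
        have : ((q * m' : ℕ) : ℝ) ≤ ((C0 * t : ℕ) : ℝ) := by
          rw [← hm']; exact_mod_cast u4
        push_cast at this
        linarith
      have w2 : (x : ℝ) ^ (1 / 2 + δ : ℝ) * m' ≤ C0 * x :=
        (mul_le_mul_of_nonneg_right hxq.le (by positivity)).trans w1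
      have w3 : (C0 : ℝ) * x = (x : ℝ) ^ (1 / 2 + δ : ℝ) * M2 := by
        rw [hM2]
        have : (x : ℝ) ^ (1 / 2 + δ : ℝ) * (x : ℝ) ^ (1 / 2 - δ : ℝ) = x := by
          rw [← Real.rpow_add hxp]
          have : (1 / 2 + δ : ℝ) + (1 / 2 - δ) = 1 := by ring
          rw [this, Real.rpow_one]
        calc (C0 : ℝ) * x = C0 * ((x : ℝ) ^ (1 / 2 + δ : ℝ) * (x : ℝ) ^ (1 / 2 - δ : ℝ)) := by
              rw [this]
          _ = _ := by ring
      rw [w3] at w2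
      exact le_of_mul_le_mul_left w2 (Real.rpow_pos_of_pos hxp _)
    rw [mem_biUnion]
    refine ⟨m, ?_, ?_⟩
    · rw [mem_Icc]
      exact ⟨hm1, Nat.le_floor hmM⟩
    · rw [mem_biUnion]
      refine ⟨m', ?_, ?_⟩
      · rw [hS2, mem_filter, mem_Icc]
        exact ⟨⟨hm1', Nat.le_floor hmM'⟩, v1, v2⟩
      · rw [hT, mem_filter, mem_range]
        exact ⟨htx, ht1, p, q, hp, hq, hJp, hJp.trans hpq, hm, hm'⟩
  have hcard : ((((range x).filter (fun t => 1 ≤ t ∧ ∃ p q : ℕ, p.Prime ∧ q.Prime ∧ p < q ∧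
        q ≤ F * p ∧ (x : ℝ) ^ (1 / 2 + δ : ℝ) < q ∧ p ∣ A * t + B ∧ q ∣ A' * t + B')).card : ℕ) : ℝ) ≤
      ∑ m ∈ Icc 1 ⌊M1⌋₊, ∑ m' ∈ S2 m, ((T m m').card : ℝ) := by
    have w1 := card_le_card hsub
    have w2 : ((Icc 1 ⌊M1⌋₊).biUnion (fun m => (S2 m).biUnion (fun m' => T m m'))).card ≤
        ∑ m ∈ Icc 1 ⌊M1⌋₊, ∑ m' ∈ S2 m, (T m m').card :=
      card_biUnion_le.trans (sum_le_sum fun m _ => card_biUnion_le)
    have w3 := w1.trans w2
    calc ((((range x).filter (fun t => 1 ≤ t ∧ ∃ p q : ℕ, p.Prime ∧ q.Prime ∧ p < q ∧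
        q ≤ F * p ∧ (x : ℝ) ^ (1 / 2 + δ : ℝ) < q ∧ p ∣ A * t + B ∧ q ∣ A' * t + B')).card : ℕ) : ℝ) ≤
          ((∑ m ∈ Icc 1 ⌊M1⌋₊, ∑ m' ∈ S2 m, (T m m').card : ℕ) : ℝ) := by exact_mod_cast w3
      _ = _ := by push_cast; rfl
  refine hcard.trans ?_
  -- the inner sums
  set I : ℝ := K2 * (1 + Real.log ((C0 : ℝ) ^ 2 * F)) with hI
  have hinner : ∀ m ∈ Icc 1 ⌊M1⌋₊, ∑ m' ∈ S2 m, rho m' ^ 2 / m' ≤ I := by
    intro m hm
    rw [mem_Icc] at hm
    have hmr : (1 : ℝ) ≤ m := by exact_mod_cast hm.1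
    have hCF : (0 : ℝ) < C0 * F := by positivity
    have ha1 : (1 : ℝ) ≤ max 1 ((m : ℝ) / (C0 * F)) := le_max_left _ _
    have hCm : (1 : ℝ) ≤ C0 * m := by nlinarith
    have haM : max 1 ((m : ℝ) / (C0 * F)) ≤ C0 * m := by
      refine max_le hCm ?_
      rw [div_le_iff₀ hCF]
      have w0 : (1 : ℝ) ≤ C0 * (C0 * F) := by
        have : (1 : ℝ) ≤ C0 * F := by nlinarith
        nlinarith
      calc (m : ℝ) = m * 1 := by ring
        _ ≤ m * (C0 * (C0 * F)) := mul_le_mul_of_nonneg_left w0 (by linarith)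
        _ = C0 * m * (C0 * F) := by ring
    refine (hrho _ _ (S2 m) ha1 haM ?_).trans ?_
    · intro n hn
      rw [hS2, mem_filter, mem_Icc] at hn
      obtain ⟨⟨hn1, -⟩, hn2, hn3⟩ := hn
      constructor
      · refine max_le (by exact_mod_cast hn1) ?_
        rw [div_le_iff₀ hCF]
        have : (m : ℝ) ≤ ((C0 * F * n : ℕ) : ℝ) := by exact_mod_cast hn3
        push_cast at this
        linarith
      · exact_mod_cast hn2
    · rw [hI]
      refine mul_le_mul_of_nonneg_left ?_ hK2.le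
      have w1 : (C0 : ℝ) * m / max 1 ((m : ℝ) / (C0 * F)) ≤ (C0 : ℝ) ^ 2 * F := by
        rw [div_le_iff₀ (by positivity)]
        have w2 : (m : ℝ) / (C0 * F) ≤ max 1 ((m : ℝ) / (C0 * F)) := le_max_right _ _
        calc (C0 : ℝ) * m = (C0 : ℝ) ^ 2 * F * (m / (C0 * F)) := by field_simp
          _ ≤ (C0 : ℝ) ^ 2 * F * max 1 ((m : ℝ) / (C0 * F)) := mul_le_mul_of_nonneg_left w2 (by positivity)
      have w3 := Real.log_le_log (by positivity) w1
      linarith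
  have houter : ∑ m ∈ Icc 1 ⌊M1⌋₊, rho m ^ 2 / m ≤ K2 * (1 + Real.log (C0 * x / 1)) := by
    have hCx : (1 : ℝ) ≤ C0 * x := by nlinarith
    refine hrho 1 (C0 * x) _ le_rfl hCx fun n hn => ?_
    rw [mem_Icc] at hn
    refine ⟨by exact_mod_cast hn.1, ?_⟩
    calc (n : ℝ) ≤ (⌊M1⌋₊ : ℝ) := by exact_mod_cast hn.2
      _ ≤ M1 := Nat.floor_le hM10
      _ ≤ C0 * (x : ℝ) ^ (1 : ℝ) := by
          rw [hM1]
          refine mul_le_mul_of_nonneg_left (Real.rpow_le_rpow_of_exponent_le hxr (by linarith)) (by positivity)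
      _ = C0 * x := by rw [Real.rpow_one]
  have hterm : ∀ m ∈ Icc 1 ⌊M1⌋₊, ∑ m' ∈ S2 m, ((T m m').card : ℝ) ≤
      K1 * x / Real.log J ^ 2 * (rho m ^ 2 / m) * I + M2 * (J : ℝ) ^ 4 := by
    intro m hm
    have hm1 := (mem_Icc.1 hm).1
    calc ∑ m' ∈ S2 m, ((T m m').card : ℝ) ≤ ∑ m' ∈ S2 m,
          (K1 * x * (rho m ^ 2 / m) * (rho m' ^ 2 / m') / Real.log J ^ 2 + (J : ℝ) ^ 4) := by
          refine sum_le_sum fun m' hm' => ?_
          rw [hS2, mem_filter, mem_Icc] at hm'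
          exact hsva x J m m' hx1 hJ2 hm1 hm'.1.1
      _ = K1 * x / Real.log J ^ 2 * (rho m ^ 2 / m) * (∑ m' ∈ S2 m, rho m' ^ 2 / m') +
            ((S2 m).card : ℝ) * (J : ℝ) ^ 4 := by
          rw [sum_add_distrib, sum_const, nsmul_eq_mul, mul_sum]
          congr 1
          refine sum_congr rfl fun m' _ => ?_
          ring
      _ ≤ K1 * x / Real.log J ^ 2 * (rho m ^ 2 / m) * I + M2 * (J : ℝ) ^ 4 := by
          have w1 : ((S2 m).card : ℝ) ≤ M2 := by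
            have w2 : (S2 m).card ≤ ⌊M2⌋₊ := by
              refine (card_filter_le _ _).trans ?_
              rw [Nat.card_Icc]
              omega
            calc ((S2 m).card : ℝ) ≤ (⌊M2⌋₊ : ℝ) := by exact_mod_cast w2
              _ ≤ M2 := Nat.floor_le hM20
          have w3 := hinner m hm
          have w4 : 0 ≤ K1 * x / Real.log J ^ 2 * (rho m ^ 2 / m) := by positivity
          gcongr
  have hI0 : 0 ≤ I := by
    rw [hI]
    have : (1 : ℝ) ≤ (C0 : ℝ) ^ 2 * F := by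
      have : (1 : ℝ) ≤ (C0 : ℝ) ^ 2 := one_le_pow₀ hC1r
      nlinarith
    have := Real.log_nonneg this
    positivity
  have htotal : ∑ m ∈ Icc 1 ⌊M1⌋₊, ∑ m' ∈ S2 m, ((T m m').card : ℝ) ≤
      K1 * x / Real.log J ^ 2 * I * (K2 * (1 + Real.log (C0 * x))) + M1 * (M2 * (J : ℝ) ^ 4) := by
    calc ∑ m ∈ Icc 1 ⌊M1⌋₊, ∑ m' ∈ S2 m, ((T m m').card : ℝ) ≤ ∑ m ∈ Icc 1 ⌊M1⌋₊,
          (K1 * x / Real.log J ^ 2 * (rho m ^ 2 / m) * I + M2 * (J : ℝ) ^ 4) := sum_le_sum hterm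
      _ = K1 * x / Real.log J ^ 2 * I * (∑ m ∈ Icc 1 ⌊M1⌋₊, rho m ^ 2 / m) +
            (⌊M1⌋₊ : ℝ) * (M2 * (J : ℝ) ^ 4) := by
          rw [sum_add_distrib, sum_const, nsmul_eq_mul, Nat.card_Icc, Nat.add_sub_cancel, mul_sum]
          congr 1
          refine sum_congr rfl fun m _ => ?_
          ring
      _ ≤ _ := by
          have w1 := houter
          rw [div_one] at w1
          have w2 : (⌊M1⌋₊ : ℝ) ≤ M1 := Nat.floor_le hM10
          have w3 : 0 ≤ K1 * x / Real.log J ^ 2 * I := by positivity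
          gcongr
  refine htotal.trans ?_
  -- sizes
  have hfirst : K1 * x / Real.log J ^ 2 * I * (K2 * (1 + Real.log (C0 * x))) ≤ ε / 2 * x := by
    have w1 : 1 + Real.log (C0 * x) ≤ 2 * y := by
      rw [Real.log_mul (by positivity) (by positivity)]
      linarith
    have w2 : I ≤ K2 * (η * y) := by
      rw [hI]
      refine mul_le_mul_of_nonneg_left ?_ hK2.le
      rw [Real.log_mul (by positivity) (by positivity), Real.log_pow]
      push_cast
      linarith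
    have w3 : K1 * x / Real.log J ^ 2 ≤ K1 * x / (δ / 40 * y) ^ 2 := by gcongr
    have w0 : 0 ≤ K2 * (1 + Real.log (C0 * x)) := by
      have := Real.log_nonneg (show (1 : ℝ) ≤ C0 * x by nlinarith)
      exact mul_nonneg hK2.le (by linarith)
    calc K1 * x / Real.log J ^ 2 * I * (K2 * (1 + Real.log (C0 * x))) ≤
          K1 * x / (δ / 40 * y) ^ 2 * (K2 * (η * y)) * (K2 * (2 * y)) :=
          mul_le_mul (mul_le_mul w3 w2 hI0 (by positivity)) (mul_le_mul_of_nonneg_left w1 hK2.le) w0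
            (by positivity)
      _ = (2 * K1 * K2 * K2 * η / (δ / 40) ^ 2) * x := by field_simp
      _ = ε / 4 * x := by
          rw [hη]
          field_simp
          ring
      _ ≤ ε / 2 * x := by nlinarith
  have hsecond : M1 * (M2 * (J : ℝ) ^ 4) ≤ ε / 2 * x := by
    have w1 : (J : ℝ) ^ 4 ≤ (x : ℝ) ^ (δ / 5) := by
      calc (J : ℝ) ^ 4 ≤ ((x : ℝ) ^ (δ / 20)) ^ 4 := by gcongr
        _ = (x : ℝ) ^ (δ / 5) := by
            rw [← Real.rpow_natCast, ← Real.rpow_mul hxp.le]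
            congr 1
            push_cast
            ring
    have w2 : M1 * (M2 * (J : ℝ) ^ 4) ≤ (C0 : ℝ) ^ 2 * (x : ℝ) ^ (1 - δ : ℝ) := by
      calc M1 * (M2 * (J : ℝ) ^ 4) ≤ M1 * (M2 * (x : ℝ) ^ (δ / 5)) := by gcongr
        _ = (C0 : ℝ) ^ 2 * ((x : ℝ) ^ (1 / 2 - δ / 2 : ℝ) * ((x : ℝ) ^ (1 / 2 - δ : ℝ) * (x : ℝ) ^ (δ / 5))) := by
            rw [hM1, hM2]; ring
        _ = (C0 : ℝ) ^ 2 * (x : ℝ) ^ (1 / 2 - δ / 2 + (1 / 2 - δ + δ / 5) : ℝ) := by
            rw [← Real.rpow_add hxp, ← Real.rpow_add hxp]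
        _ ≤ (C0 : ℝ) ^ 2 * (x : ℝ) ^ (1 - δ : ℝ) := by
            refine mul_le_mul_of_nonneg_left (Real.rpow_le_rpow_of_exponent_le hxr (by linarith)) (by positivity)
    refine w2.trans ?_
    have w3 : (x : ℝ) ^ (1 - δ : ℝ) * (x : ℝ) ^ δ = x := by
      rw [← Real.rpow_add hxp, sub_add_cancel, Real.rpow_one]
    have w4 : 0 < (x : ℝ) ^ (1 - δ : ℝ) := Real.rpow_pos_of_pos hxp _
    rw [div_le_iff₀ hε] at h5
    have w5 : (x : ℝ) ^ (1 - δ : ℝ) * (2 * (C0 : ℝ) ^ 2) ≤ (x : ℝ) ^ (1 - δ : ℝ) * ((x : ℝ) ^ δ * ε) :=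
      mul_le_mul_of_nonneg_left h5 w4.le
    rw [← mul_assoc, ← mul_assoc, w3] at w5
    linarith
  linarith

end Pool.H2.MT
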