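import Mathlib
import Pool.Agent.H2.MT.Nop
import Pool.Agent.H2.MT.Sqd
import Pool.Agent.H2.MT.Cls
import Pool.Agent.H2.MT.Str
import Pool.Agent.H2.MT.Svc

/-!
Module BAD (60 min). The proportion of bad `t` is small (assembly of NOP, SQD, CLS, STR, SVC).

`Y = el x ^ c`, `F = el x ^ b`. Let `t ≥ 1`, `t < x`, not in the exceptional sets
(i) `nop` for the form `0`: so there is a prime `q ∈ P`, `q > Y`, dividing `L_0(t)`; let `q` be the largest prime of `P` dividing one of the `L_l(t)`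
(finite non-empty set: divisors of `∏ L_l(t) ≥ 1`); `q > Y`;
(ii) `sqd_el` for every form: `q² ∤ L_l(t)` for all `l`;
(iii) `q` divides only one form: if `q ∣ L_l(t), L_{l'}(t)` then `q ∣ A_l L_{l'}(t) - A_{l'} L_l(t) = A_l B_{l'} - A_{l'} B_l ≠ 0` (integers), impossible for `x` large, as
`q > el x ≥` that number in absolute value (`c ≥ 1`);
(iv) for every ordered pair `(l,l')` (also `l = l'`): `t` is in none of the sets of `cls` (`K0 = A_l + B_l + 1` if `l = l'`, `K0 = 1` if `l ≠ l'`; take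
`K0 = ∑ (A + B) + 1` always), `strip` (form `l'`, for `l ≠ l'`), `svc` (`l ≠ l'`) with this `b` and a `δ` with `(number of pairs) K δ ≤ ε/4`. If `p ∈ P`, `p ≠ q` divides
`L_l(t)` and `F p > q` then `p < q` (maximality), `q ≤ F p`, `q ∣ L_{l'}(t)`: if `l = l'`: `p q ∣ L_l(t) ≤ (A_l+B_l) x`, in `cls`; if `l ≠ l'`: `p q ≤ x`: `cls`; else
`q² ≥ p q > x`, so `q ≥ x^(1/2)`, and `q ≤ x^(1/2+δ)`: `strip`, otherwise `svc`.
So `t` is good. Choose first `δ`, then `c0 ≥ 2b` with `r² K b/c0 ≤ ε/4`, then `x0`. `t = 0`: one element.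
-/

set_option autoImplicit false

open Finset

namespace Pool.H2.MT

open Pool.H2.Sp

open Classical in
theorem bad_le (P : Set ℕ) (hP : Thick P) {r : ℕ} (hr : 1 ≤ r) (E : Frm r) (b : ℕ) (hb : 1 ≤ b)
    (ε : ℝ) (hε : 0 < ε) : ∃ c0 : ℕ, ∀ c : ℕ, c0 ≤ c → ∃ x0 : ℕ, ∀ x : ℕ, x0 ≤ x →
      (((range x).filter (fun t => ¬ Good P E (el x ^ c) (el x ^ b) t)).card : ℝ) ≤ ε * x := by
  have hr0 : (0 : ℝ) < r := by exact_mod_cast hr
  set l0 : Fin r := ⟨0, hr⟩ with hl0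
  -- constants
  set K0 : ℕ := ∑ l, (E.A l + E.B l) + 1 with hK0
  have hK0l : ∀ l, E.A l + E.B l ≤ K0 := fun l => by
    have := single_le_sum (f := fun l => E.A l + E.B l) (fun _ _ => Nat.zero_le _) (mem_univ l)
    omega
  have hcls : ∀ l l' : Fin r, ∃ K : ℝ, 0 < K ∧ ∀ c : ℕ, 2 * b ≤ c → ∀ᶠ x : ℕ in Filter.atTop,
      ∃ S : Finset ℕ, (∀ t < x, (∃ p q : ℕ, p.Prime ∧ q.Prime ∧ p < q ∧ q ≤ el x ^ b * p ∧
        el x ^ c < q ∧ p * q ≤ K0 * x ∧ p ∣ E.L l t ∧ q ∣ E.L l' t) → t ∈ S) ∧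
        (S.card : ℝ) ≤ K * ((b : ℝ) / c) * x := by
    intro l l'
    obtain ⟨K, hK, h⟩ := cls (E.A l) (E.B l) (E.A l') (E.B l') K0 (E.pos l) (E.pos l')
    refine ⟨K, hK, fun c hc => ?_⟩
    obtain ⟨x0, hx0⟩ := h b c hb hc
    filter_upwards [Filter.eventually_ge_atTop x0] with x hx
    exact ⟨_, fun t ht hpq => mem_filter.2 ⟨mem_range.2 ht, hpq⟩, hx0 x hx⟩
  choose K3 hK3 h3 using hcls
  have hstr : ∀ l : Fin r, ∃ K : ℝ, 0 < K ∧ ∀ δ : ℝ, 0 < δ → δ ≤ 1 / 4 → ∀ᶠ x : ℕ in Filter.atTop,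
      ∃ S : Finset ℕ, (∀ t < x, (∃ q : ℕ, q.Prime ∧ (x : ℝ) ^ (1 / 2 : ℝ) ≤ q ∧
        (q : ℝ) ≤ (x : ℝ) ^ (1 / 2 + δ : ℝ) ∧ q ∣ E.L l t) → t ∈ S) ∧ (S.card : ℝ) ≤ K * δ * x := by
    intro l
    obtain ⟨K, hK, h⟩ := strip (E.A l) (E.B l) (E.pos l)
    refine ⟨K, hK, fun δ hδ hδ' => ?_⟩
    obtain ⟨x0, hx0⟩ := h δ hδ hδ'
    filter_upwards [Filter.eventually_ge_atTop x0] with x hx
    exact ⟨_, fun t ht hpq => mem_filter.2 ⟨mem_range.2 ht, hpq⟩, hx0 x hx⟩
  choose K4 hK4 h4 using hstr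
  set s3 : ℝ := ∑ l, ∑ l', K3 l l' with hs3
  set s4 : ℝ := ∑ l, K4 l with hs4
  have hs30 : 0 ≤ s3 := sum_nonneg fun l _ => sum_nonneg fun l' _ => (hK3 l l').le
  have hs40 : 0 ≤ s4 := sum_nonneg fun l _ => (hK4 l).le
  set δ : ℝ := min (1 / 4) (ε / (8 * (s4 + 1))) with hδ
  have hδ0 : 0 < δ := lt_min (by norm_num) (by positivity)
  have hδ4 : δ ≤ 1 / 4 := min_le_left _ _
  have hδs : s4 * δ ≤ ε / 8 := by
    have h1 : δ ≤ ε / (8 * (s4 + 1)) := min_le_right _ _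
    rw [le_div_iff₀ (by positivity)] at h1
    nlinarith
  have hsvc : ∀ l l' : Fin r, ∀ᶠ x : ℕ in Filter.atTop, ∃ S : Finset ℕ, (l ≠ l' → ∀ t < x, 1 ≤ t →
      (∃ p q : ℕ, p.Prime ∧ q.Prime ∧ p < q ∧ q ≤ el x ^ b * p ∧ (x : ℝ) ^ (1 / 2 + δ : ℝ) < q ∧
        p ∣ E.L l t ∧ q ∣ E.L l' t) → t ∈ S) ∧ (S.card : ℝ) ≤ ε / (8 * r ^ 2) * x := by
    intro l l'
    by_cases hll : l = l'
    · exact Filter.Eventually.of_forall fun x => ⟨∅, fun h => absurd hll h, by
        rw [card_empty, Nat.cast_zero]; positivity⟩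
    · obtain ⟨x0, hx0⟩ := svc (E.A l) (E.B l) (E.A l') (E.B l') (E.pos l) (E.pos l') (E.ne l l' hll) b δ
        hδ0 hδ4 (ε / (8 * r ^ 2)) (by positivity)
      filter_upwards [Filter.eventually_ge_atTop x0] with x hx
      exact ⟨_, fun _ t ht ht1 hpq => mem_filter.2 ⟨mem_range.2 ht, ht1, hpq⟩, hx0 x hx⟩
  obtain ⟨c1, hc1⟩ := exists_nat_ge (8 * s3 * b / ε)
  refine ⟨max (max c1 (2 * b)) 1, fun c hc => ?_⟩
  have hcc1 : c1 ≤ c := by omega
  have hcb : 2 * b ≤ c := by omega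
  have hc1' : 1 ≤ c := by omega
  have hc0 : (0 : ℝ) < c := by exact_mod_cast hc1'
  have hs3c : s3 * ((b : ℝ) / c) ≤ ε / 8 := by
    have h1 : 8 * s3 * b / ε ≤ c := hc1.trans (by exact_mod_cast hcc1)
    rw [div_le_iff₀ hε] at h1
    rw [mul_div_assoc', div_le_div_iff₀ hc0 (by norm_num)]
    linarith
  have hnop : ∀ᶠ x : ℕ in Filter.atTop, ∃ S : Finset ℕ, (∀ t < x, (∀ q ∈ P, q.Prime → el x ^ c < q →
      (E.L l0 t).factorization q ≠ 1) → t ∈ S) ∧ (S.card : ℝ) ≤ ε / 8 * x := by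
    have h1 := (nop P hP c (E.A l0) (E.B l0) (E.pos l0)).eventually (gt_mem_nhds (show 0 < ε / 8 by positivity))
    filter_upwards [h1, Filter.eventually_gt_atTop 0] with x hx hx0
    have hx0r : (0 : ℝ) < x := by exact_mod_cast hx0
    rw [div_lt_iff₀ hx0r] at hx
    exact ⟨_, fun t ht h => mem_filter.2 ⟨mem_range.2 ht, h⟩, hx.le⟩
  have hsqd : ∀ l : Fin r, ∀ᶠ x : ℕ in Filter.atTop, ∃ S : Finset ℕ, (∀ t < x, 1 ≤ t →
      (∃ q, el x ^ c < q ∧ q ^ 2 ∣ E.L l t) → t ∈ S) ∧ (S.card : ℝ) ≤ ε / (8 * r) * x := by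
    intro l
    obtain ⟨x0, hx0⟩ := sqd_el (E.A l) (E.B l) (E.pos l) c hc1' (ε / (8 * r)) (by positivity)
    filter_upwards [Filter.eventually_ge_atTop x0] with x hx
    exact ⟨_, fun t ht ht1 h => mem_filter.2 ⟨mem_range.2 ht, ht1, h⟩, hx0 x hx⟩
  set D : ℕ := ∑ l, ∑ l', (E.A l * E.B l' + E.A l' * E.B l) with hD
  have hDl : ∀ l l', E.A l * E.B l' + E.A l' * E.B l ≤ D := fun l l' => by
    have h1 := single_le_sum (f := fun l' => E.A l * E.B l' + E.A l' * E.B l)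
      (fun _ _ => Nat.zero_le _) (mem_univ l')
    have h2 := single_le_sum (f := fun l => ∑ l', (E.A l * E.B l' + E.A l' * E.B l))
      (fun _ _ => Nat.zero_le _) (mem_univ l)
    exact h1.trans h2
  have hlog : Filter.Tendsto (fun x : ℕ => Real.log x) Filter.atTop Filter.atTop :=
    Real.tendsto_log_atTop.comp tendsto_natCast_atTop_atTop
  have hall := ((((Filter.eventually_all.2 fun l => Filter.eventually_all.2 fun l' => h3 l l' c hcb).and
    (Filter.eventually_all.2 fun l => h4 l δ hδ0 hδ4)).and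
    (Filter.eventually_all.2 fun l => Filter.eventually_all.2 fun l' => hsvc l l')).and
    (hnop.and (Filter.eventually_all.2 hsqd))).and
    ((hlog.eventually_ge_atTop (D : ℝ)).and ((tendsto_natCast_atTop_atTop (R := ℝ)).eventually_ge_atTop (8 / ε)))
  obtain ⟨x0, hx0⟩ := hall.exists_forall_of_atTop
  refine ⟨x0, fun x hx => ?_⟩
  obtain ⟨⟨⟨⟨g3, g4⟩, g5⟩, g1, g2⟩, gD, gx⟩ := hx0 x hx
  choose S3 g3a g3b using g3
  choose S4 g4a g4b using g4
  choose S5 g5a g5b using g5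
  obtain ⟨S1, g1a, g1b⟩ := g1
  choose S2 g2a g2b using g2
  have hDel : D < el x := by
    have h1 := lt_of_le_of_lt gD (log_lt_el x)
    exact_mod_cast h1
  have helc : el x ≤ el x ^ c := Nat.le_self_pow (by omega) _
  have hsub : (range x).filter (fun t => ¬ Good P E (el x ^ c) (el x ^ b) t) ⊆
      {0} ∪ (S1 ∪ (univ.biUnion S2 ∪ (univ.biUnion (fun l => univ.biUnion (fun l' => S3 l l')) ∪
        (univ.biUnion S4 ∪ univ.biUnion (fun l => univ.biUnion (fun l' => S5 l l')))))) := by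
    intro t ht
    rw [mem_filter, mem_range] at ht
    obtain ⟨htx, hng⟩ := ht
    by_contra hcon
    simp only [mem_union, mem_singleton, mem_biUnion, mem_univ, true_and, not_or, not_exists] at hcon
    obtain ⟨n0, n1, n2, n3, n4, n5⟩ := hcon
    have ht1 : 1 ≤ t := by omega
    apply hng
    -- the prime
    have hex : ∃ q ∈ P, q.Prime ∧ el x ^ c < q ∧ (E.L l0 t).factorization q = 1 := by
      by_contra hc'
      push Not at hc'
      exact n1 (g1a t htx fun q hq hqp hqc => hc' q hq hqp hqc)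
    obtain ⟨q1, hq1P, hq1p, hq1c, hq1f⟩ := hex
    have hq1d : q1 ∣ E.L l0 t := Nat.dvd_of_factorization_pos (by omega)
    have hLpos : ∀ l, E.L l t ≠ 0 := fun l => by have := E.L_pos l ht1; omega
    set Q : Finset ℕ := (univ.biUnion (fun l => (E.L l t).primeFactors)).filter (fun p => p ∈ P) with hQ
    have hQmem : ∀ p, p ∈ P → p.Prime → (∃ l, p ∣ E.L l t) → p ∈ Q := by
      rintro p hpP hp ⟨l, hl⟩
      rw [hQ, mem_filter, mem_biUnion]
      exact ⟨⟨l, mem_univ l, Nat.mem_primeFactors.2 ⟨hp, hl, hLpos l⟩⟩, hpP⟩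
    have hQne : Q.Nonempty := ⟨q1, hQmem q1 hq1P hq1p ⟨l0, hq1d⟩⟩
    obtain ⟨q, hqQ, hqmax⟩ := Q.exists_max_image id hQne
    have hqQ' := hqQ
    rw [hQ, mem_filter, mem_biUnion] at hqQ'
    obtain ⟨⟨l1, -, hl1⟩, hqP⟩ := hqQ'
    obtain ⟨hqp, hqd, -⟩ := Nat.mem_primeFactors.1 hl1
    have hqc : el x ^ c < q := lt_of_lt_of_le hq1c (hqmax q1 (hQmem q1 hq1P hq1p ⟨l0, hq1d⟩))
    have hqsq : ∀ l, ¬ q ^ 2 ∣ E.L l t := fun l hdvd => n2 l (g2a l t htx ht1 ⟨q, hqc, hdvd⟩)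
    have hqone : ∀ l', l' ≠ l1 → ¬ q ∣ E.L l' t := by
      intro l' hl' hdvd
      have e1 : (q : ℤ) ∣ (E.A l1 : ℤ) * E.L l' t - (E.A l' : ℤ) * E.L l1 t :=
        dvd_sub (Dvd.dvd.mul_left (Int.natCast_dvd_natCast.2 hdvd) _)
          (Dvd.dvd.mul_left (Int.natCast_dvd_natCast.2 hqd) _)
      have e2 : (E.A l1 : ℤ) * E.L l' t - (E.A l' : ℤ) * E.L l1 t =
          (E.A l1 : ℤ) * E.B l' - (E.A l' : ℤ) * E.B l1 := by
        unfold Frm.L
        push_cast
        ring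
      rw [e2] at e1
      have hne : (E.A l1 : ℤ) * E.B l' - (E.A l' : ℤ) * E.B l1 ≠ 0 := by
        intro h0
        have h1 : (E.A l1 : ℤ) * E.B l' = (E.A l' : ℤ) * E.B l1 := by linarith
        exact E.ne l1 l' (Ne.symm hl') (by exact_mod_cast h1)
      have e3 := Int.le_of_dvd (abs_pos.2 hne) ((dvd_abs _ _).2 e1)
      have e4 : |(E.A l1 : ℤ) * E.B l' - (E.A l' : ℤ) * E.B l1| ≤ (D : ℤ) := by
        have h1 := hDl l1 l'
        have h2 : ((E.A l1 * E.B l' + E.A l' * E.B l1 : ℕ) : ℤ) ≤ (D : ℤ) := by exact_mod_cast h1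
        push_cast at h2
        have h3 : (0 : ℤ) ≤ (E.A l1 : ℤ) * E.B l' := by positivity
        have h4 : (0 : ℤ) ≤ (E.A l' : ℤ) * E.B l1 := by positivity
        rw [abs_le]
        constructor <;> linarith
      have e5 : (q : ℤ) ≤ D := e3.trans e4
      have e6 : q ≤ D := by exact_mod_cast e5
      omega
    refine ⟨ht1, q, hqP, hqp, hqc, ⟨l1, hqd, hqsq l1, hqone⟩, ?_⟩
    rintro p hpP hp hpq ⟨l, hpl⟩
    by_contra hFp
    rw [not_le] at hFp
    have hplt : p < q := lt_of_le_of_ne (hqmax p (hQmem p hpP hp ⟨l, hpl⟩)) hpq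
    by_cases hll : l = l1
    · refine n3 l l1 (g3a l l1 t htx ⟨p, q, hp, hqp, hplt, hFp.le, hqc, ?_, hpl, hqd⟩)
      have hcop : Nat.Coprime p q := (Nat.coprime_primes hp hqp).2 hpq
      have h1 : p * q ∣ E.L l t := hcop.mul_dvd_of_dvd_of_dvd hpl (by rw [hll]; exact hqd)
      have h2 := Nat.le_of_dvd (Nat.pos_of_ne_zero (hLpos l)) h1
      refine h2.trans ?_
      calc E.L l t = E.A l * t + E.B l := rfl
        _ ≤ E.A l * x + E.B l * x := by
            have : E.B l * 1 ≤ E.B l * x := Nat.mul_le_mul_left _ (by omega)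
            have : E.A l * t ≤ E.A l * x := Nat.mul_le_mul_left _ htx.le
            omega
        _ = (E.A l + E.B l) * x := by ring
        _ ≤ K0 * x := Nat.mul_le_mul_right _ (hK0l l)
    · by_cases hpqx : p * q ≤ x
      · refine n3 l l1 (g3a l l1 t htx ⟨p, q, hp, hqp, hplt, hFp.le, hqc, ?_, hpl, hqd⟩)
        calc p * q ≤ x := hpqx
          _ = 1 * x := (one_mul x).symm
          _ ≤ K0 * x := Nat.mul_le_mul_right _ (by omega)
      · rw [not_le] at hpqx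
        have hq2 : x ≤ q ^ 2 := by
          have : p * q ≤ q * q := Nat.mul_le_mul_right _ hplt.le
          rw [sq]
          omega
        have hxq : (x : ℝ) ^ (1 / 2 : ℝ) ≤ q := by
          rw [← Real.sqrt_eq_rpow]
          exact Real.sqrt_le_iff.2 ⟨by positivity, by exact_mod_cast hq2⟩
        by_cases hqd' : (q : ℝ) ≤ (x : ℝ) ^ (1 / 2 + δ : ℝ)
        · exact n4 l1 (g4a l1 t htx ⟨q, hqp, hxq, hqd', hqd⟩)
        · rw [not_le] at hqd'
          exact n5 l l1 (g5a l l1 hll t htx ht1 ⟨p, q, hp, hqp, hplt, hFp.le, hqd', hpl, hqd⟩)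
  have hcard := card_le_card hsub
  have hbi2 : ((univ.biUnion S2).card : ℝ) ≤ ε / 8 * x := by
    calc ((univ.biUnion S2).card : ℝ) ≤ ((∑ l, (S2 l).card : ℕ) : ℝ) := by exact_mod_cast card_biUnion_le
      _ = ∑ l, ((S2 l).card : ℝ) := by push_cast; rfl
      _ ≤ ∑ _l : Fin r, ε / (8 * r) * x := sum_le_sum fun l _ => g2b l
      _ = ε / 8 * x := by
          rw [sum_const, card_univ, Fintype.card_fin, nsmul_eq_mul]
          field_simp
  have hbi3 : ((univ.biUnion (fun l => univ.biUnion (fun l' => S3 l l'))).card : ℝ) ≤ ε / 8 * x := by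
    calc ((univ.biUnion (fun l => univ.biUnion (fun l' => S3 l l'))).card : ℝ) ≤
          ((∑ l, ∑ l', (S3 l l').card : ℕ) : ℝ) := by
          exact_mod_cast card_biUnion_le.trans (sum_le_sum fun l _ => card_biUnion_le)
      _ = ∑ l, ∑ l', ((S3 l l').card : ℝ) := by push_cast; rfl
      _ ≤ ∑ l, ∑ l', K3 l l' * ((b : ℝ) / c) * x := sum_le_sum fun l _ => sum_le_sum fun l' _ => g3b l l'
      _ = s3 * ((b : ℝ) / c) * x := by
          rw [hs3, sum_mul, sum_mul]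
          refine sum_congr rfl fun l _ => ?_
          rw [sum_mul, sum_mul]
      _ ≤ ε / 8 * x := mul_le_mul_of_nonneg_right hs3c (by positivity)
  have hbi4 : ((univ.biUnion S4).card : ℝ) ≤ ε / 8 * x := by
    calc ((univ.biUnion S4).card : ℝ) ≤ ((∑ l, (S4 l).card : ℕ) : ℝ) := by exact_mod_cast card_biUnion_le
      _ = ∑ l, ((S4 l).card : ℝ) := by push_cast; rfl
      _ ≤ ∑ l, K4 l * δ * x := sum_le_sum fun l _ => g4b l
      _ = s4 * δ * x := by rw [hs4, sum_mul, sum_mul]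
      _ ≤ ε / 8 * x := mul_le_mul_of_nonneg_right hδs (by positivity)
  have hbi5 : ((univ.biUnion (fun l => univ.biUnion (fun l' => S5 l l'))).card : ℝ) ≤ ε / 8 * x := by
    calc ((univ.biUnion (fun l => univ.biUnion (fun l' => S5 l l'))).card : ℝ) ≤
          ((∑ l, ∑ l', (S5 l l').card : ℕ) : ℝ) := by
          exact_mod_cast card_biUnion_le.trans (sum_le_sum fun l _ => card_biUnion_le)
      _ = ∑ l, ∑ l', ((S5 l l').card : ℝ) := by push_cast; rfl
      _ ≤ ∑ _l : Fin r, ∑ _l' : Fin r, ε / (8 * r ^ 2) * x :=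
          sum_le_sum fun l _ => sum_le_sum fun l' _ => g5b l l'
      _ = ε / 8 * x := by
          rw [sum_const, sum_const, card_univ, Fintype.card_fin, nsmul_eq_mul, nsmul_eq_mul]
          field_simp
  have hone : (1 : ℝ) ≤ ε / 8 * x := by
    rw [div_le_iff₀ hε] at gx
    linarith
  have htot : ((({0} ∪ (S1 ∪ (univ.biUnion S2 ∪ (univ.biUnion (fun l => univ.biUnion (fun l' => S3 l l')) ∪
        (univ.biUnion S4 ∪ univ.biUnion (fun l => univ.biUnion (fun l' => S5 l l')))))) : Finset ℕ).card : ℕ) : ℝ) ≤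
      1 + ((S1.card : ℝ) + ((univ.biUnion S2).card + ((univ.biUnion (fun l => univ.biUnion (fun l' => S3 l l'))).card +
        ((univ.biUnion S4).card + (univ.biUnion (fun l => univ.biUnion (fun l' => S5 l l'))).card)))) := by
    have h1 := card_union_le ({0} : Finset ℕ) (S1 ∪ (univ.biUnion S2 ∪ (univ.biUnion (fun l => univ.biUnion (fun l' => S3 l l')) ∪
        (univ.biUnion S4 ∪ univ.biUnion (fun l => univ.biUnion (fun l' => S5 l l'))))))
    have h2 := card_union_le S1 (univ.biUnion S2 ∪ (univ.biUnion (fun l => univ.biUnion (fun l' => S3 l l')) ∪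
        (univ.biUnion S4 ∪ univ.biUnion (fun l => univ.biUnion (fun l' => S5 l l')))))
    have h3 := card_union_le (univ.biUnion S2) (univ.biUnion (fun l => univ.biUnion (fun l' => S3 l l')) ∪
        (univ.biUnion S4 ∪ univ.biUnion (fun l => univ.biUnion (fun l' => S5 l l'))))
    have h4 := card_union_le (univ.biUnion (fun l => univ.biUnion (fun l' => S3 l l')))
        (univ.biUnion S4 ∪ univ.biUnion (fun l => univ.biUnion (fun l' => S5 l l')))
    have h5 := card_union_le (univ.biUnion S4) (univ.biUnion (fun l => univ.biUnion (fun l' => S5 l l')))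
    rw [card_singleton] at h1
    have h6 := h1.trans (Nat.add_le_add_left (h2.trans (Nat.add_le_add_left (h3.trans
      (Nat.add_le_add_left (h4.trans (Nat.add_le_add_left h5 _)) _)) _)) _)
    exact_mod_cast h6
  have hcard' : ((((range x).filter (fun t => ¬ Good P E (el x ^ c) (el x ^ b) t)).card : ℕ) : ℝ) ≤
      ((({0} ∪ (S1 ∪ (univ.biUnion S2 ∪ (univ.biUnion (fun l => univ.biUnion (fun l' => S3 l l')) ∪
        (univ.biUnion S4 ∪ univ.biUnion (fun l => univ.biUnion (fun l' => S5 l l')))))) : Finset ℕ).card : ℕ) : ℝ) := by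
    exact_mod_cast hcard
  refine hcard'.trans (htot.trans ?_)
  have hxp : (0 : ℝ) ≤ ε * x := by positivity
  linarith

end Pool.H2.MT
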