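import Mathlib
import Pool.Agent.H2.MT.Def

/-!
Module EXC (60 min, elementary). Exceptional pairs.

Fix `q, b, c` with `1 ≤ c ≤ b < b1`, `s = 1/κ`. Let `Z` = set of `q' ∈ P`, `Y < q' ≤ q`, `|θ' - c/b| ≤ 1/(b b2)`, `θ' = a q'/a q`. For `q1 < q2` in `Z`:
`a q2/a q1 = θ2/θ1 ≤ (c + 1/b2)/(c - 1/b2) ≤ (1 + 1/b2)/(1 - 1/b2) ≤ 1 + 4/b2` (`b2 ≥ 4`, `c ≥ 1`), and `(q2/q1)^κ ≤ a q2/a q1` (`grow`), so
`q2 ≤ q1 (1 + 4/b2)^s ≤ q1 (1 + 2^s * 4/b2)` (for `0 ≤ u ≤ 1`, `s > 0`: `(1+u)^s ≤ 1 + 2^s u`; if `s ≥ 1` convexity, if `s < 1` `(1+u)^s ≤ 1 + u`). With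
`q0 = min Z`: all elements lie in `[q0, q0 (1 + K/b2)]`, so `∑_{q'∈Z} 1/q' ≤ (q0 K/b2 + 1)/q0 ≤ K/b2 + 1/Y`.
For `q'` the number of `t < x`, `t ≥ 1`, with `q' ∣ L_l(t)` is `≤ (A_l x + B_l)/q' + 1` (injectivity of `t ↦ L_l(t)/q'`) and `q' ≤ L_l(t) ≤ (A_l + B_l) x`, so it is
`≤ 2 (A_l + B_l) x/q'`. Sum over `l`, `q' ∈ Z` and the at most `b1²` pairs `(b, c)`.
-/

set_option autoImplicit false

open Finset

namespace Pool.H2.MT

private lemma pow_lin (m : ℕ) {u : ℝ} (h0 : 0 ≤ u) (h1 : u ≤ 1) :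
    (1 + u) ^ m ≤ 1 + 2 ^ m * u := by
  have key : (1 + u) ^ m ≤ 1 + (2 ^ m - 1) * u := by
    induction m with
    | zero => simp
    | succ m ih =>
      have h2 : (1 : ℝ) ≤ 2 ^ m := one_le_pow₀ (by norm_num)
      calc (1 + u) ^ (m + 1) = (1 + u) ^ m * (1 + u) := pow_succ _ _
        _ ≤ (1 + (2 ^ m - 1) * u) * (1 + u) := mul_le_mul_of_nonneg_right ih (by linarith)
        _ ≤ 1 + (2 ^ (m + 1) - 1) * u := by
          rw [pow_succ]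
          nlinarith [mul_nonneg (mul_nonneg (sub_nonneg.2 h2) h0) (sub_nonneg.2 h1)]
  linarith

private lemma exc_ratio {b2 b c : ℕ} (hb2 : 4 ≤ b2) (hc : 1 ≤ c) (hcb : c ≤ b) {t1 t2 : ℝ}
    (h1 : |t1 - (c : ℝ) / b| ≤ 1 / ((b : ℝ) * b2)) (h2 : |t2 - (c : ℝ) / b| ≤ 1 / ((b : ℝ) * b2)) :
    0 < t1 ∧ t2 ≤ (1 + 4 / b2) * t1 := by
  have hb20 : (4 : ℝ) ≤ b2 := by exact_mod_cast hb2
  have hb0 : (1 : ℝ) ≤ b := by exact_mod_cast hc.trans hcb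
  have hc0 : (1 : ℝ) ≤ c := by exact_mod_cast hc
  set u : ℝ := 1 / b2 with hu
  have hu0 : 0 < u := by positivity
  have hu4 : u ≤ 1 / 4 := one_div_le_one_div_of_le (by norm_num) hb20
  have e1 : 1 / ((b : ℝ) * b2) = u / b := by
    rw [hu]
    field_simp
  have e2 : (4 : ℝ) / b2 = 4 * u := by rw [hu]; ring
  rw [e1] at h1 h2
  have h3 := (abs_le.1 h1).1
  have h4 := (abs_le.1 h2).2
  have h5 : ((c : ℝ) - u) / b ≤ t1 := by
    rw [sub_div]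
    linarith
  have h6 : t2 ≤ ((c : ℝ) + u) / b := by
    rw [add_div]
    linarith
  have h7 : 0 < ((c : ℝ) - u) / b := div_pos (by linarith) (by linarith)
  refine ⟨lt_of_lt_of_le h7 h5, ?_⟩
  rw [e2]
  have h8 : ((c : ℝ) + u) / b ≤ (1 + 4 * u) * (((c : ℝ) - u) / b) := by
    rw [mul_div_assoc', div_le_div_iff_of_pos_right (by linarith)]
    nlinarith
  refine h6.trans (h8.trans ?_)
  exact mul_le_mul_of_nonneg_left h5 (by linarith)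

private lemma exc_pair (D : Dat) {b2 b c q q1 q2 : ℕ} (hb2 : 4 ≤ b2) (hc : 1 ≤ c) (hcb : c ≤ b)
    (hq : q ∈ D.P) (hq1 : q1 ∈ D.P) (hq2 : q2 ∈ D.P) (h12 : q1 < q2)
    (h1 : |D.a q1 / D.a q - (c : ℝ) / b| ≤ 1 / ((b : ℝ) * b2))
    (h2 : |D.a q2 / D.a q - (c : ℝ) / b| ≤ 1 / ((b : ℝ) * b2)) :
    (q2 : ℝ) ≤ q1 * (1 + 2 ^ ⌈1 / D.κ⌉₊ * (4 / b2)) := by
  obtain ⟨h3, h4⟩ := exc_ratio hb2 hc hcb h1 h2
  have hq10 : (0 : ℝ) < q1 := by exact_mod_cast (D.prime q1 hq1).pos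
  have hb20 : (4 : ℝ) ≤ b2 := by exact_mod_cast hb2
  have hu0 : (0 : ℝ) ≤ 4 / b2 := by positivity
  have hu1 : (4 : ℝ) / b2 ≤ 1 := by
    rw [div_le_one (by linarith)]
    exact hb20
  have ha : 0 < D.a q := D.apos q hq
  have ha1 : 0 < D.a q1 := D.apos q1 hq1
  have h5 := D.grow q1 hq1 q2 hq2 h12
  have h6 : D.a q2 ≤ (1 + 4 / b2) * D.a q1 := by
    rw [← mul_div_assoc, div_le_div_iff_of_pos_right ha] at h4
    exact h4
  have h7 : ((q2 : ℝ) / q1) ^ D.κ ≤ 1 + 4 / b2 :=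
    le_of_mul_le_mul_right (h5.trans h6) ha1
  have h8 : (0 : ℝ) ≤ (q2 : ℝ) / q1 := by positivity
  have h9 : (q2 : ℝ) / q1 ≤ (1 + 4 / b2) ^ (1 / D.κ) := by
    have h10 : (((q2 : ℝ) / q1) ^ D.κ) ^ (1 / D.κ) = (q2 : ℝ) / q1 := by
      rw [← Real.rpow_mul h8, mul_one_div_cancel D.kpos.ne', Real.rpow_one]
    rw [← h10]
    exact Real.rpow_le_rpow (Real.rpow_nonneg h8 _) h7 (one_div_pos.2 D.kpos).le
  have h11 : (1 + 4 / b2 : ℝ) ^ (1 / D.κ) ≤ (1 + 4 / b2 : ℝ) ^ ⌈1 / D.κ⌉₊ := by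
    rw [← Real.rpow_natCast]
    exact Real.rpow_le_rpow_of_exponent_le (by linarith) (Nat.le_ceil _)
  have h12 := h9.trans (h11.trans (pow_lin ⌈1 / D.κ⌉₊ hu0 hu1))
  rw [div_le_iff₀ hq10] at h12
  rw [mul_comm]
  exact h12

open Classical in
private lemma exc_sum (D : Dat) {b2 b c q Y : ℕ} (hb2 : 4 ≤ b2) (hY : 1 ≤ Y) (hc : 1 ≤ c)
    (hcb : c ≤ b) (hq : q ∈ D.P) :
    ∑ q' ∈ (Finset.Icc (Y + 1) q).filter (fun q' => q' ∈ D.P ∧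
      |D.a q' / D.a q - (c : ℝ) / b| ≤ 1 / ((b : ℝ) * b2)), (1 : ℝ) / q' ≤
      2 ^ ⌈1 / D.κ⌉₊ * (4 / b2) + 1 / Y := by
  set Z := (Finset.Icc (Y + 1) q).filter (fun q' => q' ∈ D.P ∧
      |D.a q' / D.a q - (c : ℝ) / b| ≤ 1 / ((b : ℝ) * b2)) with hZ
  set K0 : ℝ := 2 ^ ⌈1 / D.κ⌉₊ * (4 / b2) with hK0
  have hK00 : 0 ≤ K0 := by positivity
  have hY0 : (1 : ℝ) ≤ Y := by exact_mod_cast hY
  rcases Z.eq_empty_or_nonempty with h | h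
  · rw [h, Finset.sum_empty]
    positivity
  · obtain ⟨q0, hq0, hmin⟩ := Z.exists_min_image id h
    have hm0 := (Finset.mem_filter.1 hq0)
    have hm1 := Finset.mem_Icc.1 hm0.1
    have hq00 : (1 : ℝ) ≤ q0 := by exact_mod_cast (by omega : 1 ≤ q0)
    have hYq : (Y : ℝ) ≤ q0 := by exact_mod_cast (by omega : Y ≤ q0)
    have h1 : ∀ q' ∈ Z, q' ∈ Finset.Icc q0 ⌊(q0 : ℝ) * (1 + K0)⌋₊ := by
      intro q' hq'
      rw [Finset.mem_Icc]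
      have h2 : q0 ≤ q' := hmin q' hq'
      refine ⟨h2, Nat.le_floor ?_⟩
      rcases h2.eq_or_lt with h3 | h3
      · rw [← h3]
        nlinarith
      · have hm' := (Finset.mem_filter.1 hq')
        exact exc_pair D hb2 hc hcb hq hm0.2.1 hm'.2.1 h3 hm0.2.2 hm'.2.2
    have h2 : (Z.card : ℝ) ≤ q0 * K0 + 1 := by
      have h3 := Finset.card_le_card (show Z ⊆ Finset.Icc q0 ⌊(q0 : ℝ) * (1 + K0)⌋₊ from
        fun q' hq' => h1 q' hq')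
      rw [Nat.card_Icc] at h3
      have h4 : (⌊(q0 : ℝ) * (1 + K0)⌋₊ : ℝ) ≤ q0 * (1 + K0) := Nat.floor_le (by positivity)
      have h5 : q0 ≤ ⌊(q0 : ℝ) * (1 + K0)⌋₊ + 1 := by
        have := (Finset.mem_Icc.1 (h1 q0 hq0)).2
        omega
      have h6 : (Z.card : ℝ) ≤ (⌊(q0 : ℝ) * (1 + K0)⌋₊ + 1 - q0 : ℕ) := by exact_mod_cast h3
      rw [Nat.cast_sub h5] at h6
      push_cast at h6
      linarith
    have h3 : ∑ q' ∈ Z, (1 : ℝ) / q' ≤ ∑ _q' ∈ Z, (1 : ℝ) / q0 := by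
      refine Finset.sum_le_sum fun q' hq' => ?_
      have h4 : (q0 : ℝ) ≤ q' := by exact_mod_cast hmin q' hq'
      exact one_div_le_one_div_of_le (by linarith) h4
    refine h3.trans ?_
    rw [Finset.sum_const, nsmul_eq_mul]
    have h4 : (Z.card : ℝ) * (1 / q0) ≤ (q0 * K0 + 1) * (1 / q0) :=
      mul_le_mul_of_nonneg_right h2 (by positivity)
    refine h4.trans ?_
    have h5 : ((q0 : ℝ) * K0 + 1) * (1 / q0) = K0 + 1 / q0 := by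
      field_simp
    rw [h5]
    have h6 : (1 : ℝ) / q0 ≤ 1 / Y := one_div_le_one_div_of_le (by linarith) hYq
    linarith

open Classical in
private lemma exc_cnt {r : ℕ} (E : Frm r) (l : Fin r) {x p : ℕ} (hp : 1 ≤ p) :
    (((range x).filter (fun t => 1 ≤ t ∧ p ∣ E.L l t)).card : ℝ) ≤
      (E.A l + E.B l) * x * (1 / p) := by
  have hp0 : (0 : ℝ) < p := by exact_mod_cast hp
  have h1 : ((range x).filter (fun t => 1 ≤ t ∧ p ∣ E.L l t)).card ≤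
      (Finset.Icc 1 ((E.A l + E.B l) * x / p)).card := by
    refine Finset.card_le_card_of_injOn (fun t => E.L l t / p) ?_ ?_
    · intro t ht
      have ht' := Finset.mem_filter.1 (Finset.mem_coe.1 ht)
      have htx := Finset.mem_range.1 ht'.1
      have h2 : E.L l t ≤ (E.A l + E.B l) * x := by
        unfold Frm.L
        rw [Nat.add_mul]
        have h7 : E.A l * t ≤ E.A l * x := Nat.mul_le_mul_left _ htx.le
        have h8 : E.B l ≤ E.B l * x := Nat.le_mul_of_pos_right _ (by omega)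
        omega
      refine Finset.mem_coe.2 (Finset.mem_Icc.2 ⟨?_, Nat.div_le_div_right h2⟩)
      exact Nat.div_pos (Nat.le_of_dvd (E.L_pos l ht'.2.1) ht'.2.2) hp
    · intro t ht t' ht' heq
      have h3 := (Finset.mem_filter.1 (Finset.mem_coe.1 ht)).2.2
      have h4 := (Finset.mem_filter.1 (Finset.mem_coe.1 ht')).2.2
      have h5 : E.L l t = E.L l t' := by
        have h6 : E.L l t / p = E.L l t' / p := heq
        rw [← Nat.div_mul_cancel h3, ← Nat.div_mul_cancel h4, h6]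
      unfold Frm.L at h5
      have h7 : E.A l * t = E.A l * t' := by omega
      exact Nat.eq_of_mul_eq_mul_left (E.pos l) h7
  rw [Nat.card_Icc, Nat.add_sub_cancel] at h1
  have h2 : (((E.A l + E.B l) * x / p : ℕ) : ℝ) ≤ ((E.A l + E.B l) * x : ℕ) / p :=
    Nat.cast_div_le
  push_cast at h2
  have h3 : (((range x).filter (fun t => 1 ≤ t ∧ p ∣ E.L l t)).card : ℝ) ≤
      (((E.A l + E.B l) * x / p : ℕ) : ℝ) := by exact_mod_cast h1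
  refine h3.trans (h2.trans (le_of_eq ?_))
  ring

open Classical in
theorem exc (D : Dat) {r : ℕ} (E : Frm r) : ∃ K : ℝ, 0 < K ∧ ∀ b1 b2 Y x q : ℕ, 1 ≤ b1 → 4 ≤ b2 →
    1 ≤ Y → q ∈ D.P →
    (((range x).filter (fun t => 1 ≤ t ∧ ∃ q' ∈ D.P, Y < q' ∧ q' ≤ q ∧ (∃ l, q' ∣ E.L l t) ∧
      ∃ b c : ℕ, 1 ≤ c ∧ c ≤ b ∧ b < b1 ∧
        |D.a q' / D.a q - (c : ℝ) / b| ≤ 1 / ((b : ℝ) * b2))).card : ℝ) ≤
      K * (b1 : ℝ) ^ 2 * x * (1 / (b2 : ℝ) + 1 / Y) := by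
  set C : ℝ := ∑ l, ((E.A l : ℝ) + E.B l) with hC
  have hC0 : 0 ≤ C := Finset.sum_nonneg fun l _ => by positivity
  set K0 : ℝ := 4 * 2 ^ ⌈1 / D.κ⌉₊ with hK0
  have hK01 : (1 : ℝ) ≤ K0 := by
    have : (1 : ℝ) ≤ 2 ^ ⌈1 / D.κ⌉₊ := one_le_pow₀ (by norm_num)
    linarith
  refine ⟨C * K0 + 1, by positivity, ?_⟩
  intro b1 b2 Y x q hb1 hb2 hY hq
  have hb20 : (4 : ℝ) ≤ b2 := by exact_mod_cast hb2
  have hY0 : (1 : ℝ) ≤ Y := by exact_mod_cast hY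
  set Z : ℕ → ℕ → Finset ℕ := fun b c => (Finset.Icc (Y + 1) q).filter (fun q' => q' ∈ D.P ∧
      |D.a q' / D.a q - (c : ℝ) / b| ≤ 1 / ((b : ℝ) * b2)) with hZ
  set PP : Finset (ℕ × ℕ) := (range b1 ×ˢ range b1).filter (fun z => 1 ≤ z.2 ∧ z.2 ≤ z.1) with hPP
  have hsub : (range x).filter (fun t => 1 ≤ t ∧ ∃ q' ∈ D.P, Y < q' ∧ q' ≤ q ∧
      (∃ l, q' ∣ E.L l t) ∧ ∃ b c : ℕ, 1 ≤ c ∧ c ≤ b ∧ b < b1 ∧
        |D.a q' / D.a q - (c : ℝ) / b| ≤ 1 / ((b : ℝ) * b2)) ⊆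
      PP.biUnion fun z => (Z z.1 z.2).biUnion fun q' => (univ : Finset (Fin r)).biUnion fun l =>
        (range x).filter (fun t => 1 ≤ t ∧ q' ∣ E.L l t) := by
    intro t ht
    obtain ⟨htx, ht1, q', hq', hYq, hqq, ⟨l, hl⟩, b, c, hc, hcb, hb, hab⟩ := Finset.mem_filter.1 ht
    refine Finset.mem_biUnion.2 ⟨(b, c), ?_, ?_⟩
    · rw [hPP, Finset.mem_filter, Finset.mem_product, Finset.mem_range, Finset.mem_range]
      exact ⟨⟨hb, lt_of_le_of_lt hcb hb⟩, hc, hcb⟩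
    · refine Finset.mem_biUnion.2 ⟨q', ?_, ?_⟩
      · rw [hZ, Finset.mem_filter, Finset.mem_Icc]
        exact ⟨⟨hYq, hqq⟩, hq', hab⟩
      · refine Finset.mem_biUnion.2 ⟨l, Finset.mem_univ l, ?_⟩
        rw [Finset.mem_filter]
        exact ⟨htx, ht1, hl⟩
  have h1 : (((range x).filter (fun t => 1 ≤ t ∧ ∃ q' ∈ D.P, Y < q' ∧ q' ≤ q ∧
      (∃ l, q' ∣ E.L l t) ∧ ∃ b c : ℕ, 1 ≤ c ∧ c ≤ b ∧ b < b1 ∧
        |D.a q' / D.a q - (c : ℝ) / b| ≤ 1 / ((b : ℝ) * b2))).card : ℝ) ≤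
      ∑ z ∈ PP, ∑ q' ∈ Z z.1 z.2, ∑ l, (((range x).filter
        (fun t => 1 ≤ t ∧ q' ∣ E.L l t)).card : ℝ) := by
    have h2 := (Finset.card_le_card hsub).trans (Finset.card_biUnion_le.trans
      (Finset.sum_le_sum fun z _ => Finset.card_biUnion_le.trans
        (Finset.sum_le_sum fun q' _ => Finset.card_biUnion_le)))
    exact_mod_cast h2
  refine h1.trans ?_
  have hx0 : (0 : ℝ) ≤ x := Nat.cast_nonneg x
  have h3 : ∀ z ∈ PP, ∑ q' ∈ Z z.1 z.2, ∑ l, (((range x).filter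
        (fun t => 1 ≤ t ∧ q' ∣ E.L l t)).card : ℝ) ≤
      C * x * (K0 * (1 / b2 + 1 / Y)) := by
    intro z hz
    obtain ⟨_, hz1, hz2⟩ := Finset.mem_filter.1 hz
    have h4 : ∀ q' ∈ Z z.1 z.2, ∑ l, (((range x).filter
        (fun t => 1 ≤ t ∧ q' ∣ E.L l t)).card : ℝ) ≤ C * x * (1 / q') := by
      intro q' hq'
      have hq1 : 1 ≤ q' := by
        have := (Finset.mem_Icc.1 (Finset.mem_filter.1 hq').1).1
        omega
      calc ∑ l, (((range x).filter (fun t => 1 ≤ t ∧ q' ∣ E.L l t)).card : ℝ)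
          ≤ ∑ l, ((E.A l : ℝ) + E.B l) * x * (1 / q') :=
            Finset.sum_le_sum fun l _ => exc_cnt E l hq1
        _ = C * x * (1 / q') := by
          rw [hC, Finset.sum_mul, Finset.sum_mul]
    refine (Finset.sum_le_sum h4).trans ?_
    rw [← Finset.mul_sum]
    refine mul_le_mul_of_nonneg_left ?_ (by positivity)
    refine (exc_sum D hb2 hY hz1 hz2 hq).trans ?_
    have h5 : (1 : ℝ) / Y ≤ K0 * (1 / Y) := le_mul_of_one_le_left (by positivity) hK01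
    have h6 : 2 ^ ⌈1 / D.κ⌉₊ * (4 / (b2 : ℝ)) = K0 * (1 / b2) := by
      rw [hK0]
      ring
    rw [h6, mul_add]
    linarith
  refine (Finset.sum_le_sum h3).trans ?_
  rw [Finset.sum_const, nsmul_eq_mul]
  have h7 : (PP.card : ℝ) ≤ (b1 : ℝ) ^ 2 := by
    have h8 : PP.card ≤ b1 ^ 2 := by
      refine (Finset.card_filter_le _ _).trans ?_
      rw [Finset.card_product, Finset.card_range, pow_two]
    exact_mod_cast h8
  have h9 : 0 ≤ C * x * (K0 * (1 / b2 + 1 / Y)) := by positivity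
  refine (mul_le_mul_of_nonneg_right h7 h9).trans ?_
  have h10 : (b1 : ℝ) ^ 2 * (C * x * (K0 * (1 / b2 + 1 / Y))) =
      (C * K0) * ((b1 : ℝ) ^ 2 * x * (1 / b2 + 1 / Y)) := by ring
  have h11 : (C * K0 + 1) * (b1 : ℝ) ^ 2 * x * (1 / b2 + 1 / Y) =
      (C * K0 + 1) * ((b1 : ℝ) ^ 2 * x * (1 / b2 + 1 / Y)) := by ring
  rw [h10, h11]
  exact mul_le_mul_of_nonneg_right (by linarith) (by positivity)

end Pool.H2.MT
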