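import Mathlib
import Pool.Agent.H2.MT.Def
import Pool.Agent.H2.MT.PerS

/-!
Module MOO (elementary, 40 min). Rules for `Osc` and `Mo`.

`osc_cj`: conjugation is an isometry commuting with the integral (`integral_conj`, `intervalIntegral` version: write the interval
integral over `[0,1]` as a set integral or use `intervalIntegral.intervalIntegral_eq_integral_uIoc`).
`mo_osc`: `per_lip`. `mo_cj`: isometry. `mo_const`. `mo_mul`: `‖R₁R₂(x+s) - R₁R₂(x)‖ ≤ ‖R₁(x+s) - R₁ x‖ + ‖R₂(x+s) - R₂ x‖`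
(norms `≤ 1`) and `intervalIntegral.integral_mono_on` + `integral_add` (everything is bounded and measurable, hence
interval integrable). `mo_prod`: induction on the finset (`Finset.induction_on`), base `mo_const`. `mo_mono`: `M ≤ M'`.
-/

set_option autoImplicit false

open Finset MeasureTheory

namespace Pool.H2.MT

open Pool.H2.EL

private theorem cj_true (z : ℂ) : cj true z = z := rfl

private theorem cj_false (z : ℂ) : cj false z = (starRingEnd ℂ) z := rfl

private theorem cj_sub (b : Bool) (z w : ℂ) : cj b z - cj b w = cj b (z - w) := by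
  cases b
  · rw [cj_false, cj_false, cj_false, map_sub]
  · rfl

private theorem cj_meas (b : Bool) {R : ℝ → ℂ} (h : Measurable R) :
    Measurable (fun x => cj b (R x)) := by
  cases b
  · exact Complex.continuous_conj.measurable.comp h
  · exact h

private theorem ii_bd {g : ℝ → ℝ} (hm : Measurable g) {K : ℝ} (hb : ∀ x, ‖g x‖ ≤ K) (a b : ℝ) :
    IntervalIntegrable g volume a b := by
  rw [intervalIntegrable_iff]
  exact Measure.integrableOn_of_bounded (by simp [Set.uIoc]) hm.aestronglyMeasurable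
    (Filter.Eventually.of_forall hb)

theorem osc_cj {V : ℝ} {ψ : ℝ → ℂ} (h : Osc V ψ) (b : Bool) : Osc V (fun x => cj b (ψ x)) := by
  refine ⟨cj_meas b h.meas, fun x => ?_, fun x => ?_, ?_, fun t => ?_⟩
  · rw [cj_norm]
    exact h.bd x
  · show cj b (ψ (x + 1)) = cj b (ψ x)
    rw [h.per]
  · cases b
    · have h1 := h.mean
      rw [intervalIntegral.integral_of_le zero_le_one] at h1 ⊢
      have h2 : ∫ x in Set.Ioc (0 : ℝ) 1, cj false (ψ x) =
          (starRingEnd ℂ) (∫ x in Set.Ioc (0 : ℝ) 1, ψ x) := integral_conj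
      rw [h2, h1, map_zero]
    · exact h.mean
  · have h1 : ∀ x, ‖cj b (ψ (x + t)) - cj b (ψ x)‖ = ‖ψ (x + t) - ψ x‖ := fun x => by
      rw [cj_sub, cj_norm]
    simp only [h1]
    exact h.lip t

theorem mo_osc {V : ℝ} {ψ : ℝ → ℂ} (h : Osc V ψ) (T a : ℝ) (hT : 0 ≤ T) (ha : 0 < a) :
    Mo T (V * (2 * T * a + 1)) (fun x => ψ (x * a)) := by
  refine ⟨h.meas.comp (measurable_id.mul_const a), fun x => h.bd _, fun s hs => ?_⟩
  have h1 := per_lip h T a hT ha s
  rwa [abs_of_nonneg hs] at h1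

theorem mo_cj {T M : ℝ} {R : ℝ → ℂ} (h : Mo T M R) (b : Bool) : Mo T M (fun x => cj b (R x)) := by
  refine ⟨cj_meas b h.meas, fun x => ?_, fun s hs => ?_⟩
  · rw [cj_norm]
    exact h.bd x
  · have h1 : ∀ x, ‖cj b (R (x + s)) - cj b (R x)‖ = ‖R (x + s) - R x‖ := fun x => by
      rw [cj_sub, cj_norm]
    simp only [h1]
    exact h.mo s hs

theorem mo_const (T : ℝ) (z : ℂ) (hz : ‖z‖ ≤ 1) : Mo T 0 (fun _ => z) := by
  refine ⟨measurable_const, fun _ => hz, fun s _ => ?_⟩
  simp only [sub_self, norm_zero, intervalIntegral.integral_zero, zero_mul]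
  exact le_rfl

theorem mo_mul {T M M' : ℝ} {R R' : ℝ → ℂ} (hT : 0 ≤ T) (h : Mo T M R) (h' : Mo T M' R') :
    Mo T (M + M') (fun x => R x * R' x) := by
  refine ⟨h.meas.mul h'.meas, fun x => ?_, fun s hs => ?_⟩
  · rw [norm_mul]
    exact mul_le_one₀ (h.bd x) (norm_nonneg _) (h'.bd x)
  · have hd : ∀ {Q : ℝ → ℂ} {K : ℝ}, Mo T K Q → Measurable (fun x => ‖Q (x + s) - Q x‖) :=
      fun {Q K} hQ => ((hQ.meas.comp (measurable_id.add_const s)).sub hQ.meas).norm
    have hb : ∀ {Q : ℝ → ℂ} {K : ℝ}, Mo T K Q → ∀ x, ‖‖Q (x + s) - Q x‖‖ ≤ 2 :=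
      fun {Q K} hQ x => by
        rw [norm_norm]
        exact (norm_sub_le _ _).trans (by linarith [hQ.bd (x + s), hQ.bd x])
    have hi : ∀ {Q : ℝ → ℂ} {K : ℝ}, Mo T K Q →
        IntervalIntegrable (fun x => ‖Q (x + s) - Q x‖) volume (-T) T :=
      fun {Q K} hQ => ii_bd (hd hQ) (hb hQ) _ _
    have hle : (-T : ℝ) ≤ T := by linarith
    have hpt : ∀ x, ‖R (x + s) * R' (x + s) - R x * R' x‖ ≤
        ‖R (x + s) - R x‖ + ‖R' (x + s) - R' x‖ := by
      intro x
      have e : R (x + s) * R' (x + s) - R x * R' x =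
          (R (x + s) - R x) * R' (x + s) + R x * (R' (x + s) - R' x) := by ring
      rw [e]
      refine (norm_add_le _ _).trans (add_le_add ?_ ?_)
      · rw [norm_mul]
        exact mul_le_of_le_one_right (norm_nonneg _) (h'.bd _)
      · rw [norm_mul]
        exact mul_le_of_le_one_left (norm_nonneg _) (h.bd _)
    have hm : Measurable (fun x => ‖R (x + s) * R' (x + s) - R x * R' x‖) :=
      (((h.meas.mul h'.meas).comp (measurable_id.add_const s)).sub (h.meas.mul h'.meas)).norm
    have hbb : ∀ x, ‖‖R (x + s) * R' (x + s) - R x * R' x‖‖ ≤ 4 := by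
      intro x
      rw [norm_norm]
      have h1 := hb h x
      have h2 := hb h' x
      rw [norm_norm] at h1 h2
      linarith [hpt x]
    calc ∫ x in (-T)..T, ‖R (x + s) * R' (x + s) - R x * R' x‖
        ≤ ∫ x in (-T)..T, (‖R (x + s) - R x‖ + ‖R' (x + s) - R' x‖) :=
          intervalIntegral.integral_mono_on hle (ii_bd hm hbb _ _) ((hi h).add (hi h'))
            (fun x _ => hpt x)
      _ = (∫ x in (-T)..T, ‖R (x + s) - R x‖) + ∫ x in (-T)..T, ‖R' (x + s) - R' x‖ :=
          intervalIntegral.integral_add (hi h) (hi h')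
      _ ≤ M * s + M' * s := add_le_add (h.mo s hs) (h'.mo s hs)
      _ = (M + M') * s := by ring

theorem mo_prod {ι : Type} {T : ℝ} (hT : 0 ≤ T) (S : Finset ι) (M : ι → ℝ) (R : ι → ℝ → ℂ)
    (h : ∀ i ∈ S, Mo T (M i) (R i)) : Mo T (∑ i ∈ S, M i) (fun x => ∏ i ∈ S, R i x) := by
  classical
  induction S using Finset.induction_on with
  | empty =>
    simp only [Finset.sum_empty, Finset.prod_empty]
    exact mo_const T 1 (by simp)
  | insert i S hi ih =>
    rw [Finset.sum_insert hi]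
    simp only [Finset.prod_insert hi]
    exact mo_mul hT (h i (Finset.mem_insert_self i S))
      (ih fun j hj => h j (Finset.mem_insert_of_mem hj))

theorem mo_mono {T M M' : ℝ} {R : ℝ → ℂ} (h : Mo T M R) (hM : M ≤ M') : Mo T M' R :=
  ⟨h.meas, h.bd, fun s hs => (h.mo s hs).trans (mul_le_mul_of_nonneg_right hM hs)⟩

end Pool.H2.MT
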