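import Mathlib
import Pool.Agent.H2.MT.Moo

/-!
Module FAC (60 min). Factorisation at a good `t`.

`l0` = the form of `Dom` with `q ∣ L_{l0}(t)`, `q² ∤`. `q ∈ ex (L_{l0} t)`, so `U α (L_{l0} t) = ψ_q(α a_q) * ∏_{p ∈ ex.erase q} fv α p` (`Finset.mul_prod_erase`; `fv α q = ψ q (α * a q)`
as `q ∈ P`). `R α = cj (∏_{p∈(ex (L_{l0} t)).erase q} fv α p) * ∏_{l ≠ l0} cj (U α (L_l t))`, everything a product of factors `cj (fv α p)` over pairs `(l,p)`, `p ∈ ex (L_l t)`,
`(l,p) ≠ (l0,q)` (`cj` is multiplicative: `cj b (∏) = ∏ cj b`; use `map_prod`). A factor with `p ∉ P` is constant (`mo_const`); one with `p ∈ P` has `p ≠ q` (for `l ≠ l0` because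
`q ∤ L_l(t)`), so `F p ≤ q`, `p < q` (`F ≥ 1`, `p ≠ q`), `a p ≤ (p/q)^κ a q ≤ F^(-κ) a q` (`grow`) and `mo_osc`, `mo_cj` give modulus
`V (2 T a p + 1) ≤ V (2T + 1)(F^(-κ) a q + 1)`. Number of factors: `∑_l ω(L_l t) ≤ ∑_l Nat.log 2 (L_l t) ≤ r log((A+B) x)/log 2 ≤ K log x` for `x ≥ 2`
(`2^ω(n) ≤ n`: `Finset.prod_primeFactors_dvd`, each prime `≥ 2`; `Finset.pow_card_le_prod`). `mo_prod`, `mo_mul`, `mo_mono`.
-/

set_option autoImplicit false

open Finset MeasureTheory

namespace Pool.H2.MT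

open Pool.H2.EL

private lemma ex_card {n : ℕ} (hn : 1 ≤ n) {S : Finset ℕ} (hS : S ⊆ n.primeFactors) :
    (S.card : ℝ) * Real.log 2 ≤ Real.log n := by
  have h1 : 2 ^ n.primeFactors.card ≤ ∏ p ∈ n.primeFactors, p :=
    Finset.pow_card_le_prod _ _ _ fun p hp => (Nat.prime_of_mem_primeFactors hp).two_le
  have h2 : ∏ p ∈ n.primeFactors, p ≤ n := Nat.le_of_dvd hn (Nat.prod_primeFactors_dvd n)
  have h3 : 2 ^ S.card ≤ n :=
    (Nat.pow_le_pow_right (by norm_num) (Finset.card_le_card hS)).trans (h1.trans h2)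
  have h4 : ((2 : ℝ)) ^ S.card ≤ n := by exact_mod_cast h3
  have h5 := Real.log_le_log (by positivity) h4
  rw [Real.log_pow] at h5
  exact h5

private lemma dom_lt {P : Set ℕ} {r : ℕ} {E : Frm r} {Y F t q p : ℕ} (hF : 1 ≤ F)
    (h : Dom P E Y F t q) (hp : p ∈ P) (hpp : p.Prime) (hne : p ≠ q) (hd : ∃ l, p ∣ E.L l t) :
    p < q ∧ F * p ≤ q := by
  have h1 := h.2.2.2.2 p hp hpp hne hd
  have h2 : p ≤ F * p := Nat.le_mul_of_pos_left p hF
  exact ⟨lt_of_le_of_ne (h2.trans h1) hne, h1⟩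

private lemma fac_a (D : Dat) {F p q : ℕ} (hF : 1 ≤ F) (hp : p ∈ D.P) (hq : q ∈ D.P)
    (h1 : p < q) (h2 : F * p ≤ q) : D.a p ≤ (F : ℝ) ^ (-D.κ) * D.a q := by
  have hp0 : (0 : ℝ) < p := by exact_mod_cast (D.prime p hp).pos
  have hF0 : (0 : ℝ) < F := by exact_mod_cast hF
  have h3 : (F : ℝ) ≤ (q : ℝ) / p := by
    rw [le_div_iff₀ hp0]
    exact_mod_cast h2
  have h4 : (F : ℝ) ^ D.κ ≤ ((q : ℝ) / p) ^ D.κ :=
    Real.rpow_le_rpow hF0.le h3 D.kpos.le
  have h5 := D.grow p hp q hq h1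
  have h6 : (F : ℝ) ^ D.κ * D.a p ≤ D.a q :=
    (mul_le_mul_of_nonneg_right h4 (D.apos p hp).le).trans h5
  have h7 : (0 : ℝ) < (F : ℝ) ^ D.κ := Real.rpow_pos_of_pos hF0 _
  rw [Real.rpow_neg hF0.le, inv_mul_eq_div, le_div_iff₀ h7, mul_comm]
  exact h6

private lemma cj_mul (b : Bool) (z w : ℂ) : cj b (z * w) = cj b z * cj b w := by
  unfold cj
  cases b
  · simp
  · simp

theorem fac (D : Dat) {r : ℕ} (E : Frm r) (cc : Fin r → Bool) (T : ℝ) (hT : 0 ≤ T) :
    ∃ K : ℝ, 0 < K ∧ ∀ x Y F t q : ℕ, 2 ≤ x → 1 ≤ F → 1 ≤ t → t < x → Dom D.P E Y F t q →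
      ∃ (l0 : Fin r) (R : ℝ → ℂ),
        Mo T (K * Real.log x * ((F : ℝ) ^ (-D.κ) * D.a q + 1)) R ∧
        ∀ α : ℝ, ∏ l, cj (cc l) (D.U α (E.L l t)) = cj (cc l0) (D.ψ q (α * D.a q)) * R α := by
  classical
  set C : ℕ := ∑ l, (E.A l + E.B l) + 1 with hC
  have hC1 : (1 : ℝ) ≤ C := by
    have : 1 ≤ C := by omega
    exact_mod_cast this
  have hl2 : 0 < Real.log 2 := Real.log_pos (by norm_num)
  set c1 : ℝ := (Real.log C / Real.log 2 + 1) / Real.log 2 with hc1
  have hlC : 0 ≤ Real.log C := Real.log_nonneg hC1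
  have hc10 : 0 < c1 := by positivity
  refine ⟨r * c1 * (|D.V| * (2 * T + 1)) + 1, by positivity, ?_⟩
  intro x Y F t q hx hF ht htx hdom
  have hdom' := hdom
  obtain ⟨hqP, hqp, _, ⟨l0, hl1, hl2', hl3⟩, _⟩ := hdom'
  have hV : 0 ≤ D.V := (D.osc q hqP).V_nonneg
  rw [abs_of_nonneg hV]
  have haq : 0 < D.a q := D.apos q hqP
  have hF0 : (0 : ℝ) < F := by exact_mod_cast hF
  have hFk : 0 < (F : ℝ) ^ (-D.κ) := Real.rpow_pos_of_pos hF0 _
  set X : ℝ := (F : ℝ) ^ (-D.κ) * D.a q with hX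
  have hX0 : 0 < X := mul_pos hFk haq
  set S : Fin r → Finset ℕ := fun l => if l = l0 then (ex (E.L l t)).erase q else ex (E.L l t)
    with hS
  have hSsub : ∀ l, S l ⊆ ex (E.L l t) := fun l => by
    simp only [hS]
    split_ifs
    · exact Finset.erase_subset _ _
    · exact Finset.Subset.refl _
  have hSpf : ∀ l, S l ⊆ (E.L l t).primeFactors := fun l =>
    (hSsub l).trans (Finset.filter_subset _ _)
  have hne : ∀ l, ∀ p ∈ S l, p ≠ q := by
    intro l p hp
    by_cases h : l = l0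
    · simp only [hS, if_pos h] at hp
      exact (Finset.mem_erase.1 hp).1
    · rintro rfl
      exact hl3 l h (Nat.dvd_of_mem_primeFactors (hSpf l hp))
  set M0 : ℝ := D.V * (2 * T + 1) * (X + 1) with hM0
  have hM00 : 0 ≤ M0 := by positivity
  have hfac : ∀ l, ∀ p ∈ S l, Mo T M0 (fun α => D.fv α p) := by
    intro l p hp
    have hpp : p.Prime := Nat.prime_of_mem_primeFactors (hSpf l hp)
    by_cases hpP : p ∈ D.P
    · have e1 : (fun α => D.fv α p) = fun α => D.ψ p (α * D.a p) := by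
        funext α
        simp only [Dat.fv, if_pos hpP]
      rw [e1]
      refine mo_mono (mo_osc (D.osc p hpP) T (D.a p) hT (D.apos p hpP)) ?_
      obtain ⟨h1, h2⟩ := dom_lt hF hdom hpP hpp (hne l p hp)
        ⟨l, Nat.dvd_of_mem_primeFactors (hSpf l hp)⟩
      have h3 := fac_a D hF hpP hqP h1 h2
      have h4 : 2 * T * D.a p + 1 ≤ (2 * T + 1) * (X + 1) := by
        have h5 : 2 * T * D.a p ≤ 2 * T * X := mul_le_mul_of_nonneg_left h3 (by positivity)
        nlinarith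
      calc D.V * (2 * T * D.a p + 1) ≤ D.V * ((2 * T + 1) * (X + 1)) :=
            mul_le_mul_of_nonneg_left h4 hV
        _ = M0 := by rw [hM0]; ring
    · have e1 : (fun α => D.fv α p) = fun _ : ℝ => D.v p := by
        funext α
        simp only [Dat.fv, if_neg hpP]
      rw [e1]
      exact mo_mono (mo_const T (D.v p) (D.vbd p)) hM00
  refine ⟨l0, fun α => ∏ l, cj (cc l) (∏ p ∈ S l, D.fv α p), ?_, ?_⟩
  · have h1 : Mo T (∑ l, ∑ _p ∈ S l, M0) (fun α => ∏ l, cj (cc l) (∏ p ∈ S l, D.fv α p)) :=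
      mo_prod hT univ _ _ fun l _ => mo_cj (mo_prod hT (S l) _ _ (hfac l)) (cc l)
    refine mo_mono h1 ?_
    have hlx : Real.log 2 ≤ Real.log x := Real.log_le_log (by norm_num) (by exact_mod_cast hx)
    have hlx0 : 0 < Real.log x := lt_of_lt_of_le hl2 hlx
    have h2 : ∀ l, ((S l).card : ℝ) ≤ c1 * Real.log x := by
      intro l
      have h3 := ex_card (E.L_pos l ht) (hSpf l)
      have h4 : E.L l t ≤ C * x := by
        have h5 : E.A l + E.B l ≤ ∑ l, (E.A l + E.B l) :=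
          Finset.single_le_sum (f := fun l => E.A l + E.B l) (fun _ _ => Nat.zero_le _)
            (Finset.mem_univ l)
        have h6 : E.L l t ≤ (E.A l + E.B l) * x := by
          unfold Frm.L
          rw [Nat.add_mul]
          have h7 : E.A l * t ≤ E.A l * x := Nat.mul_le_mul_left _ htx.le
          have h8 : E.B l ≤ E.B l * x := Nat.le_mul_of_pos_right _ (by omega)
          omega
        exact h6.trans (Nat.mul_le_mul_right _ (by omega))
      have h5 : Real.log (E.L l t : ℕ) ≤ Real.log C + Real.log x := by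
        rw [← Real.log_mul (by linarith) (by
          have : (0 : ℝ) < x := by exact_mod_cast (by omega : 0 < x)
          exact this.ne')]
        refine Real.log_le_log ?_ ?_
        · exact_mod_cast E.L_pos l ht
        · exact_mod_cast h4
      have h6 : Real.log C ≤ Real.log C / Real.log 2 * Real.log x := by
        rw [div_mul_eq_mul_div, le_div_iff₀ hl2]
        exact mul_le_mul_of_nonneg_left hlx hlC
      have h7 : c1 * Real.log x * Real.log 2 = (Real.log C / Real.log 2 + 1) * Real.log x := by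
        rw [hc1]
        field_simp
      have h8 : ((S l).card : ℝ) * Real.log 2 ≤ c1 * Real.log x * Real.log 2 := by
        rw [h7]
        linarith
      exact le_of_mul_le_mul_right h8 hl2
    have h3 : ∑ l, ∑ _p ∈ S l, M0 ≤ r * (c1 * Real.log x) * M0 := by
      have h4 : ∀ l ∈ (univ : Finset (Fin r)), ∑ _p ∈ S l, M0 ≤ c1 * Real.log x * M0 := by
        intro l _
        rw [Finset.sum_const, nsmul_eq_mul]
        exact mul_le_mul_of_nonneg_right (h2 l) hM00
      refine (Finset.sum_le_sum h4).trans ?_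
      rw [Finset.sum_const, Finset.card_univ, Fintype.card_fin, nsmul_eq_mul]
      exact le_of_eq (by ring)
    refine h3.trans ?_
    have h5 : (r : ℝ) * (c1 * Real.log x) * M0 =
        (r * c1 * (D.V * (2 * T + 1))) * Real.log x * (X + 1) := by
      rw [hM0]
      ring
    rw [h5]
    refine mul_le_mul_of_nonneg_right (mul_le_mul_of_nonneg_right ?_ hlx0.le) (by positivity)
    linarith
  · intro α
    show ∏ l, cj (cc l) (D.U α (E.L l t)) =
      cj (cc l0) (D.ψ q (α * D.a q)) * ∏ l, cj (cc l) (∏ p ∈ S l, D.fv α p)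
    rw [← Finset.mul_prod_erase univ (fun l => cj (cc l) (D.U α (E.L l t))) (Finset.mem_univ l0),
      ← Finset.mul_prod_erase univ (fun l => cj (cc l) (∏ p ∈ S l, D.fv α p))
        (Finset.mem_univ l0), ← mul_assoc, ← cj_mul]
    have hq1 : q ∈ ex (E.L l0 t) := by
      unfold ex
      rw [Finset.mem_filter]
      exact ⟨Nat.mem_primeFactors.2 ⟨hqp, hl1, by have := E.L_pos l0 ht; omega⟩, hl2'⟩
    have e1 : D.U α (E.L l0 t) = D.ψ q (α * D.a q) * ∏ p ∈ S l0, D.fv α p := by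
      unfold Dat.U
      rw [← Finset.mul_prod_erase _ _ hq1]
      have e2 : D.fv α q = D.ψ q (α * D.a q) := by simp only [Dat.fv, if_pos hqP]
      have e3 : S l0 = (ex (E.L l0 t)).erase q := by simp only [hS, if_true]
      rw [e2, e3]
    rw [e1]
    congr 1
    refine Finset.prod_congr rfl fun l hl => ?_
    have e4 : S l = ex (E.L l t) := by
      simp only [hS]
      rw [if_neg (Finset.mem_erase.1 hl).1]
    rw [e4]
    rfl

end Pool.H2.MT
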