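import Mathlib
import Pool.Agent.H2.MT.Def

/-!
Module SHI (Mathlib only, 20 min). Shift of the variable on `[-T, T]`.

`∫_{-T}^{T} g(α + s) = ∫_{-T+s}^{T+s} g` (`intervalIntegral.integral_comp_add_right`); the difference with `∫_{-T}^{T} g` is
`∫_{-T}^{-T+s} g - ∫_{T}^{T+s} g` (`intervalIntegral.integral_add_adjacent_intervals`), each of norm `≤ s`
(`intervalIntegral.norm_integral_le_of_norm_le_const`). `g` is measurable and bounded, hence interval integrable.
-/

set_option autoImplicit false

open Finset MeasureTheory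

namespace Pool.H2.MT

theorem shift_int (g : ℝ → ℂ) (hg : Measurable g) (hb : ∀ x, ‖g x‖ ≤ 1) (T s : ℝ) (hs : 0 ≤ s) :
    ‖(∫ α in (-T)..T, g α) - ∫ α in (-T)..T, g (α + s)‖ ≤ 2 * s := by
  have hii : ∀ a b : ℝ, IntervalIntegrable g volume a b := by
    intro a b
    exact (intervalIntegrable_const (c := (1 : ℝ))).mono_fun' hg.aestronglyMeasurable
      (Filter.Eventually.of_forall fun x => hb x)
  rw [intervalIntegral.integral_comp_add_right (fun x => g x) s]
  have h1 := intervalIntegral.integral_add_adjacent_intervals (hii (-T) (-T + s)) (hii (-T + s) (T + s))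
  have h2 := intervalIntegral.integral_add_adjacent_intervals (hii (-T) T) (hii T (T + s))
  have h3 : (∫ α in (-T)..T, g α) - ∫ α in (-T + s)..(T + s), g α
      = (∫ α in (-T)..(-T + s), g α) - ∫ α in T..(T + s), g α := by
    linear_combination h2 - h1
  rw [h3]
  have h4 : ‖∫ α in (-T)..(-T + s), g α‖ ≤ 1 * |(-T + s) - (-T)| :=
    intervalIntegral.norm_integral_le_of_norm_le_const fun x _ => hb x
  have h5 : ‖∫ α in T..(T + s), g α‖ ≤ 1 * |(T + s) - T| :=
    intervalIntegral.norm_integral_le_of_norm_le_const fun x _ => hb x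
  have e1 : (-T + s) - (-T) = s := by ring
  have e2 : (T + s) - T = s := by ring
  rw [e1, abs_of_nonneg hs, one_mul] at h4
  rw [e2, abs_of_nonneg hs, one_mul] at h5
  calc _ ≤ ‖∫ α in (-T)..(-T + s), g α‖ + ‖∫ α in T..(T + s), g α‖ := norm_sub_le _ _
    _ ≤ 2 * s := by linarith

end Pool.H2.MT
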