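import Mathlib
import Pool.Agent.H2.MT.Shi

/-!
Module SLO (40 min). A fast oscillating function against a slowly varying one.

For `s ∈ [0, 1/x]`: `‖∫ ψ(αx) B(α) - ∫ ψ((α+s)x) B(α+s)‖ ≤ 2 s ≤ 2/x` (`shift_int` with `g α = ψ(αx) B(α)`) and
`‖∫ ψ((α+s)x) B(α+s) - ∫ ψ((α+s)x) B(α)‖ ≤ M s ≤ M/x` (`hB.mo`). Hence
`‖∫ ψ(αx) B(α) dα - ∫ ψ((α+s)x) B(α) dα‖ ≤ (M+2)/x` for all `s ∈ [0,1/x]`; average over `s ∈ [0,1/x]`:
`x ∫_0^{1/x} ∫ ψ((α+s)x) B(α) dα ds = ∫ B(α) (x ∫_0^{1/x} ψ(αx + sx) ds) dα = ∫ B(α) (∫_{αx}^{αx+1} ψ) dα = 0`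
(Fubini: `intervalIntegral_integral_interval_swap` or `MeasureTheory.integral_integral_swap`; bounded measurable functions on a
product of bounded intervals are integrable; `Function.Periodic.intervalIntegral_add_eq` and `Osc.mean`). `M ≥ 0` by `hB.mo 1`.
-/

set_option autoImplicit false

open Finset MeasureTheory

namespace Pool.H2.MT

private theorem ii_bdE {g : ℝ → ℂ} (hm : AEStronglyMeasurable g volume)
    {K : ℝ} (hb : ∀ x, ‖g x‖ ≤ K) (a b : ℝ) :
    IntervalIntegrable g volume a b := by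
  rw [intervalIntegrable_iff]
  exact Measure.integrableOn_of_bounded (by simp [Set.uIoc]) hm
    (Filter.Eventually.of_forall hb)

private theorem mul_bd {z w : ℂ} (hz : ‖z‖ ≤ 1) (hw : ‖w‖ ≤ 1) : ‖z * w‖ ≤ 1 := by
  rw [norm_mul]
  exact mul_le_one₀ hz (norm_nonneg _) hw

/-- the average of a product over a period vanishes -/
private theorem avg_zero {V : ℝ} {ψ : ℝ → ℂ} (h : Osc V ψ) {B : ℝ → ℂ} (hBm : Measurable B)
    (hBb : ∀ x, ‖B x‖ ≤ 1) (T x : ℝ) (hx : 0 < x) :
    ∫ s in (0 : ℝ)..(1 / x), ∫ α in (-T)..T, ψ ((α + s) * x) * B α = 0 := by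
  have hm : Measurable (Function.uncurry fun s α : ℝ => ψ ((α + s) * x) * B α) :=
    (h.meas.comp ((measurable_snd.add measurable_fst).mul_const x)).mul (hBm.comp measurable_snd)
  have hint : IntegrableOn (Function.uncurry fun s α : ℝ => ψ ((α + s) * x) * B α)
      (Set.uIoc 0 (1 / x) ×ˢ Set.uIoc (-T) T) := by
    refine Measure.integrableOn_of_bounded (M := 1) ?_ hm.aestronglyMeasurable
      (Filter.Eventually.of_forall ?_)
    · rw [Measure.volume_eq_prod, Measure.prod_prod]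
      exact ENNReal.mul_ne_top (by simp [Set.uIoc]) (by simp [Set.uIoc])
    · intro z
      exact mul_bd (h.bd _) (hBb _)
  rw [intervalIntegral_intervalIntegral_swap hint]
  have h0 : ∀ α : ℝ, ∫ s in (0 : ℝ)..(1 / x), ψ ((α + s) * x) * B α = 0 := by
    intro α
    rw [intervalIntegral.integral_mul_const]
    have h1 : ∫ s in (0 : ℝ)..(1 / x), ψ ((α + s) * x) = 0 := by
      have e : ∀ s : ℝ, (α + s) * x = x * s + α * x := by intro s; ring
      simp_rw [e]
      rw [intervalIntegral.integral_comp_mul_add (fun u => ψ u) hx.ne' (α * x)]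
      have e1 : x * 0 + α * x = α * x := by ring
      have e2 : x * (1 / x) + α * x = α * x + 1 := by
        rw [mul_one_div_cancel hx.ne']; ring
      have hp : Function.Periodic ψ 1 := fun u => h.per u
      rw [e1, e2, hp.intervalIntegral_add_eq (α * x) 0, zero_add, h.mean, smul_zero]
    rw [h1, zero_mul]
  simp only [h0, intervalIntegral.integral_zero]

theorem slow {V : ℝ} {ψ : ℝ → ℂ} (h : Osc V ψ) {T M : ℝ} {B : ℝ → ℂ} (hT : 0 ≤ T) (hB : Mo T M B)
    (x : ℝ) (hx : 0 < x) :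
    ‖∫ α in (-T)..T, ψ (α * x) * B α‖ ≤ (M + 2) / x := by
  have hle : (-T : ℝ) ≤ T := by linarith
  have hM : 0 ≤ M := by
    have h1 := hB.mo 1 zero_le_one
    have h2 : 0 ≤ ∫ x in (-T)..T, ‖B (x + 1) - B x‖ :=
      intervalIntegral.integral_nonneg hle fun x _ => norm_nonneg _
    rw [mul_one] at h1
    exact h2.trans h1
  have hm : Measurable (Function.uncurry fun s α : ℝ => ψ ((α + s) * x) * B α) :=
    (h.meas.comp ((measurable_snd.add measurable_fst).mul_const x)).mul
      (hB.meas.comp measurable_snd)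
  have hms : ∀ s : ℝ, Measurable fun α : ℝ => ψ ((α + s) * x) := fun s =>
    h.meas.comp ((measurable_id.add_const s).mul_const x)
  have hmJ : AEStronglyMeasurable (fun s : ℝ => ∫ α in (-T)..T, ψ ((α + s) * x) * B α) volume := by
    simp only [intervalIntegral.integral_of_le hle]
    exact (StronglyMeasurable.integral_prod_right (ν := volume.restrict (Set.Ioc (-T) T))
      hm.stronglyMeasurable).aestronglyMeasurable
  have hbJ : ∀ s : ℝ, ‖∫ α in (-T)..T, ψ ((α + s) * x) * B α‖ ≤ 1 * |T - (-T)| := fun s =>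
    intervalIntegral.norm_integral_le_of_norm_le_const fun α _ => mul_bd (h.bd _) (hB.bd _)
  have hiJ := ii_bdE hmJ hbJ 0 (1 / x)
  -- pointwise bound
  have hpt : ∀ s : ℝ, 0 ≤ s → s ≤ 1 / x →
      ‖(∫ α in (-T)..T, ψ (α * x) * B α) - ∫ α in (-T)..T, ψ ((α + s) * x) * B α‖ ≤
        (M + 2) / x := by
    intro s hs0 hs1
    have h1 := shift_int (fun α => ψ (α * x) * B α)
      ((h.meas.comp (measurable_id.mul_const x)).mul hB.meas)
      (fun α => mul_bd (h.bd _) (hB.bd _)) T s hs0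
    have h2 : ‖(∫ α in (-T)..T, ψ ((α + s) * x) * B (α + s)) -
        ∫ α in (-T)..T, ψ ((α + s) * x) * B α‖ ≤ M * s := by
      have hi1 : IntervalIntegrable (fun α : ℝ => ψ ((α + s) * x) * B (α + s)) volume (-T) T :=
        ii_bdE ((hms s).mul (hB.meas.comp (measurable_id.add_const s))).aestronglyMeasurable
          (fun α => mul_bd (h.bd _) (hB.bd _)) _ _
      have hi2 : IntervalIntegrable (fun α : ℝ => ψ ((α + s) * x) * B α) volume (-T) T :=
        ii_bdE ((hms s).mul hB.meas).aestronglyMeasurable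
          (fun α => mul_bd (h.bd _) (hB.bd _)) _ _
      rw [← intervalIntegral.integral_sub hi1 hi2]
      have hi3 : IntervalIntegrable (fun α : ℝ => B (α + s) - B α) volume (-T) T :=
        ii_bdE (K := 2) ((hB.meas.comp (measurable_id.add_const s)).sub
          hB.meas).aestronglyMeasurable
          (fun α => (norm_sub_le (B (α + s)) (B α)).trans
            (by linarith [hB.bd (α + s), hB.bd α])) _ _
      calc ‖∫ α in (-T)..T, (ψ ((α + s) * x) * B (α + s) - ψ ((α + s) * x) * B α)‖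
          ≤ ∫ α in (-T)..T, ‖ψ ((α + s) * x) * B (α + s) - ψ ((α + s) * x) * B α‖ :=
            intervalIntegral.norm_integral_le_integral_norm hle
        _ ≤ ∫ α in (-T)..T, ‖B (α + s) - B α‖ := by
            refine intervalIntegral.integral_mono_on hle (hi1.sub hi2).norm hi3.norm
              (fun α _ => ?_)
            rw [← mul_sub, norm_mul]
            exact mul_le_of_le_one_left (norm_nonneg _) (h.bd _)
        _ ≤ M * s := hB.mo s hs0
    have h3 : (∫ α in (-T)..T, ψ (α * x) * B α) - ∫ α in (-T)..T, ψ ((α + s) * x) * B α =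
        ((∫ α in (-T)..T, ψ (α * x) * B α) - ∫ α in (-T)..T, ψ ((α + s) * x) * B (α + s)) +
        ((∫ α in (-T)..T, ψ ((α + s) * x) * B (α + s)) -
          ∫ α in (-T)..T, ψ ((α + s) * x) * B α) := by ring
    rw [h3]
    have h4 : (M + 2) * s ≤ (M + 2) / x := by
      rw [div_eq_mul_one_div]
      exact mul_le_mul_of_nonneg_left hs1 (by linarith)
    calc _ ≤ 2 * s + M * s := (norm_add_le _ _).trans (add_le_add h1 h2)
      _ ≤ (M + 2) / x := by linarith
  have hx1 : 0 < 1 / x := one_div_pos.mpr hx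
  have h5 : ∫ s in (0 : ℝ)..(1 / x), ((∫ α in (-T)..T, ψ (α * x) * B α) -
      ∫ α in (-T)..T, ψ ((α + s) * x) * B α) =
      ((1 / x : ℝ) : ℂ) * ∫ α in (-T)..T, ψ (α * x) * B α := by
    rw [intervalIntegral.integral_sub intervalIntegrable_const hiJ,
      avg_zero h hB.meas hB.bd T x hx, intervalIntegral.integral_const, sub_zero, sub_zero]
    rfl
  have h6 : ‖∫ s in (0 : ℝ)..(1 / x), ((∫ α in (-T)..T, ψ (α * x) * B α) -
      ∫ α in (-T)..T, ψ ((α + s) * x) * B α)‖ ≤ (M + 2) / x * |1 / x - 0| := by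
    refine intervalIntegral.norm_integral_le_of_norm_le_const fun s hs => ?_
    rw [Set.uIoc_of_le hx1.le] at hs
    exact hpt s hs.1.le hs.2
  rw [h5, norm_mul, Complex.norm_real, Real.norm_eq_abs, sub_zero, abs_of_pos hx1,
    mul_comm] at h6
  exact le_of_mul_le_mul_right h6 hx1

end Pool.H2.MT
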