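import Mathlib
import Pool.Agent.H2.MT.Shi
import Pool.Agent.H2.MT.Slo
import Pool.Agent.H2.MT.Avs
import Pool.Agent.H2.MT.Moo

/-!
Module PAI (60 min). Lemma A5 of proofs row 367: two oscillating functions of comparable frequencies.

`θ = y/x ∈ (0,1]`. Dirichlet (`Real.exists_rat_abs_sub_le_and_den_le θ (hb2 : 0 < b2)`): a rational `ρ = c/b` in lowest terms, `b = ρ.den ≤ b2`,
`|θ - c/b| ≤ 1/((b2+1) b) ≤ 1/(b b2)`. `c ≥ 0` (otherwise `|θ - c/b| ≥ 1/b`), and `c ≤ b` (otherwise `c/b - θ ≥ 1/b`).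
Case `b ≥ b1`: for `j < b` put `s = j/x`: `ψ((α+s)x) = ψ(αx + j) = ψ(αx)`, `ψ'((α+s)y) = ψ'(αy + jθ)`; by `shift_int`
(`g α = ψ(αx) ψ'(αy) R(α)`) and `hR.mo`:
`‖∫ ψ(αx) ψ'(αy) R(α) - ∫ ψ(αx) ψ'(αy + jθ) R(α)‖ ≤ (M + 2) j/x ≤ (M+2) b2/x`. Average over `j < b`: the average of the second integrals is
`∫ ψ(αx) R(α) ((1/b) ∑_j ψ'(αy + jθ)) dα`, of norm `≤ ∫ ‖(1/b)∑_j ψ'(αy+jθ)‖ ≤ (2T + 1/y)(V b/(b b2) + V/b) ≤ (2T+1/y)(V/b2 + V/b1)`.
Case `b < b1`: if `c ≥ 1` this contradicts `hne` (with `c.toNat`). So `c = 0`, `b = 1` (lowest terms), `θ ≤ 1/b2`: `slow` with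
`B α = ψ'(αy) R(α)`, `Mo T (V(2Ty+1) + M) B` (`mo_osc`, `mo_mul`): `≤ (V(2Ty+1) + M + 2)/x ≤ V(2T/b2 + 1/x) + (M+2)/x`, and `1 ≤ b2`.
`M ≥ 0` by `hR.mo 1`.
-/

set_option autoImplicit false

open Finset MeasureTheory

namespace Pool.H2.MT

private theorem ii_bdE {E : Type*} [NormedAddCommGroup E] {g : ℝ → E}
    (hm : AEStronglyMeasurable g volume) {K : ℝ} (hb : ∀ x, ‖g x‖ ≤ K) (a b : ℝ) :
    IntervalIntegrable g volume a b := by
  rw [intervalIntegrable_iff]
  exact Measure.integrableOn_of_bounded (by simp [Set.uIoc]) hm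
    (Filter.Eventually.of_forall hb)

private theorem mul_bd {z w : ℂ} (hz : ‖z‖ ≤ 1) (hw : ‖w‖ ≤ 1) : ‖z * w‖ ≤ 1 := by
  rw [norm_mul]
  exact mul_le_one₀ hz (norm_nonneg _) hw

/-- one shift -/
private theorem one_shift {V : ℝ} {ψ ψ' : ℝ → ℂ} (h : Osc V ψ) (h' : Osc V ψ') {T M : ℝ}
    {R : ℝ → ℂ} (hT : 0 ≤ T) (hR : Mo T M R) (x y : ℝ) (hx : 0 < x) (j : ℕ) :
    ‖(∫ α in (-T)..T, ψ (α * x) * ψ' (α * y) * R α) -
      ∫ α in (-T)..T, ψ (α * x) * ψ' (α * y + j * (y / x)) * R α‖ ≤ (M + 2) * (j / x) := by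
  have hle : (-T : ℝ) ≤ T := by linarith
  have hs0 : (0 : ℝ) ≤ j / x := by positivity
  have hma : ∀ {φ : ℝ → ℂ}, Measurable φ → ∀ u v : ℝ, Measurable fun α : ℝ => φ (α * u + v) :=
    fun {φ} hφ u v => hφ.comp ((measurable_id.mul_const u).add_const v)
  have hma0 : ∀ {φ : ℝ → ℂ}, Measurable φ → ∀ u : ℝ, Measurable fun α : ℝ => φ (α * u) :=
    fun {φ} hφ u => hφ.comp (measurable_id.mul_const u)
  have h1 := shift_int (fun α => ψ (α * x) * ψ' (α * y) * R α)
    (((hma0 h.meas x).mul (hma0 h'.meas y)).mul hR.meas)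
    (fun α => mul_bd (mul_bd (h.bd _) (h'.bd _)) (hR.bd _)) T (j / x) hs0
  have hp : Function.Periodic ψ 1 := fun u => h.per u
  have e1 : ∀ α : ℝ, ψ ((α + j / x) * x) = ψ (α * x) := by
    intro α
    have e : (α + j / x) * x = α * x + (j : ℕ) * 1 := by
      rw [add_mul, div_mul_cancel₀ _ hx.ne', mul_one]
    rw [e, hp.nat_mul]
  have e2 : ∀ α : ℝ, (α + j / x) * y = α * y + j * (y / x) := by
    intro α
    ring
  simp only [e1, e2] at h1
  have hi1 : IntervalIntegrable
      (fun α : ℝ => ψ (α * x) * ψ' (α * y + j * (y / x)) * R (α + j / x)) volume (-T) T :=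
    ii_bdE (((hma0 h.meas x).mul (hma h'.meas y _)).mul
      (hR.meas.comp (measurable_id.add_const _))).aestronglyMeasurable
      (fun α => mul_bd (mul_bd (h.bd _) (h'.bd _)) (hR.bd _)) _ _
  have hi2 : IntervalIntegrable
      (fun α : ℝ => ψ (α * x) * ψ' (α * y + j * (y / x)) * R α) volume (-T) T :=
    ii_bdE (((hma0 h.meas x).mul (hma h'.meas y _)).mul hR.meas).aestronglyMeasurable
      (fun α => mul_bd (mul_bd (h.bd _) (h'.bd _)) (hR.bd _)) _ _
  have h2 : ‖(∫ α in (-T)..T, ψ (α * x) * ψ' (α * y + j * (y / x)) * R (α + j / x)) -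
      ∫ α in (-T)..T, ψ (α * x) * ψ' (α * y + j * (y / x)) * R α‖ ≤ M * (j / x) := by
    rw [← intervalIntegral.integral_sub hi1 hi2]
    have hi3 : IntervalIntegrable (fun α : ℝ => ‖R (α + j / x) - R α‖) volume (-T) T := by
      refine ii_bdE (K := 2) (((hR.meas.comp (measurable_id.add_const _)).sub
        hR.meas).norm).aestronglyMeasurable (fun α => ?_) _ _
      rw [norm_norm]
      exact (norm_sub_le (R (α + j / x)) (R α)).trans
        (by linarith [hR.bd (α + j / x), hR.bd α])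
    calc ‖∫ α in (-T)..T, (ψ (α * x) * ψ' (α * y + j * (y / x)) * R (α + j / x) -
          ψ (α * x) * ψ' (α * y + j * (y / x)) * R α)‖
        ≤ ∫ α in (-T)..T, ‖ψ (α * x) * ψ' (α * y + j * (y / x)) * R (α + j / x) -
          ψ (α * x) * ψ' (α * y + j * (y / x)) * R α‖ :=
          intervalIntegral.norm_integral_le_integral_norm hle
      _ ≤ ∫ α in (-T)..T, ‖R (α + j / x) - R α‖ := by
          refine intervalIntegral.integral_mono_on hle (hi1.sub hi2).norm hi3 (fun α _ => ?_)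
          rw [← mul_sub, norm_mul]
          exact mul_le_of_le_one_left (norm_nonneg _) (mul_bd (h.bd _) (h'.bd _))
      _ ≤ M * (j / x) := hR.mo _ hs0
  have h3 := norm_add_le
    ((∫ α in (-T)..T, ψ (α * x) * ψ' (α * y) * R α) -
      ∫ α in (-T)..T, ψ (α * x) * ψ' (α * y + j * (y / x)) * R (α + j / x))
    ((∫ α in (-T)..T, ψ (α * x) * ψ' (α * y + j * (y / x)) * R (α + j / x)) -
      ∫ α in (-T)..T, ψ (α * x) * ψ' (α * y + j * (y / x)) * R α)
  rw [sub_add_sub_cancel] at h3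
  linarith

theorem pair_int {V : ℝ} {ψ ψ' : ℝ → ℂ} (h : Osc V ψ) (h' : Osc V ψ') {T M : ℝ} {R : ℝ → ℂ}
    (hT : 0 ≤ T) (hR : Mo T M R) (x y : ℝ) (hy : 0 < y) (hyx : y ≤ x) (b1 b2 : ℕ) (hb1 : 1 ≤ b1)
    (hb12 : b1 ≤ b2)
    (hne : ∀ b c : ℕ, 1 ≤ c → c ≤ b → b < b1 → 1 / ((b : ℝ) * b2) < |y / x - (c : ℝ) / b|) :
    ‖∫ α in (-T)..T, ψ (α * x) * ψ' (α * y) * R α‖ ≤
      (2 * T + 1 / y) * (V / b1 + V / b2) + (M + 2) * b2 / x + V * (2 * T / b2 + 1 / x) := by
  have hx : 0 < x := hy.trans_le hyx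
  have hle : (-T : ℝ) ≤ T := by linarith
  have hV := h.V_nonneg
  have hM : 0 ≤ M := by
    have h1 := hR.mo 1 zero_le_one
    have h2 : 0 ≤ ∫ x in (-T)..T, ‖R (x + 1) - R x‖ :=
      intervalIntegral.integral_nonneg hle fun x _ => norm_nonneg _
    rw [mul_one] at h1
    exact h2.trans h1
  have hb1R : (1 : ℝ) ≤ b1 := by exact_mod_cast hb1
  have hb12R : (b1 : ℝ) ≤ b2 := by exact_mod_cast hb12
  have hb2R : (1 : ℝ) ≤ b2 := hb1R.trans hb12R
  have hb2N : 0 < b2 := by omega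
  obtain ⟨θ, hθ⟩ : ∃ θ : ℝ, θ = y / x := ⟨_, rfl⟩
  have hθ0 : 0 < θ := by rw [hθ]; positivity
  have hθ1 : θ ≤ 1 := by rw [hθ, div_le_one hx]; exact hyx
  obtain ⟨ρ, hρ1, hρ2⟩ := Real.exists_rat_abs_sub_le_and_den_le θ hb2N
  obtain ⟨b, hbd⟩ : ∃ b : ℕ, b = ρ.den := ⟨_, rfl⟩
  obtain ⟨c, hcd⟩ : ∃ c : ℤ, c = ρ.num := ⟨_, rfl⟩
  have hbpos : 1 ≤ b := by rw [hbd]; exact ρ.pos
  have hbR : (1 : ℝ) ≤ b := by exact_mod_cast hbpos
  have hρe : (ρ : ℝ) = c / b := by
    rw [hcd, hbd]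
    exact Rat.cast_def ρ
  have hcop : IsCoprime c (b : ℤ) := by
    rw [hcd, hbd, Int.isCoprime_iff_nat_coprime, Int.natAbs_natCast]
    exact ρ.reduced
  rw [← hbd] at hρ1 hρ2
  rw [hρe] at hρ1
  have hap : |θ - c / b| ≤ 1 / (b * b2) := by
    refine hρ1.trans ?_
    apply one_div_le_one_div_of_le (by positivity)
    nlinarith
  have hap' : |θ - c / b| < 1 / b := by
    refine hρ1.trans_lt ?_
    apply one_div_lt_one_div_of_lt (by positivity)
    nlinarith
  rw [abs_lt] at hap'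
  have hbR0 : (0 : ℝ) < b := by linarith
  have hc0 : 0 ≤ c := by
    by_contra hcon
    have h1 : c ≤ -1 := by omega
    have h2 : (c : ℝ) ≤ -1 := by exact_mod_cast h1
    have h3 : (c : ℝ) / b ≤ -1 / b := by
      apply div_le_div_of_nonneg_right h2 hbR0.le
    have h4 : (-1 : ℝ) / b = -(1 / b) := by ring
    linarith [hap'.2]
  have hcb : c ≤ b := by
    by_contra hcon
    have h1 : (b : ℤ) + 1 ≤ c := by omega
    have h2 : (b : ℝ) + 1 ≤ c := by exact_mod_cast h1
    have h3 : ((b : ℝ) + 1) / b ≤ c / b := by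
      apply div_le_div_of_nonneg_right h2 hbR0.le
    have h4 : ((b : ℝ) + 1) / b = 1 + 1 / b := by
      rw [add_div, div_self hbR0.ne']
    linarith [hap'.1]
  have hT1 : 0 ≤ 2 * T + 1 / y := by positivity
  by_cases hbb : b1 ≤ b
  · -- large denominator
    have hbbR : (b1 : ℝ) ≤ b := by exact_mod_cast hbb
    have hsh : ∀ j ∈ range b, ‖(∫ α in (-T)..T, ψ (α * x) * ψ' (α * y) * R α) -
        ∫ α in (-T)..T, ψ (α * x) * ψ' (α * y + j * θ) * R α‖ ≤ (M + 2) * b2 / x := by
      intro j hj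
      have h1 := one_shift h h' hT hR x y hx j
      rw [← hθ] at h1
      refine h1.trans ?_
      rw [mul_div_assoc]
      apply mul_le_mul_of_nonneg_left _ (by linarith)
      apply div_le_div_of_nonneg_right _ hx.le
      have h2 : j ≤ b2 := by
        have := mem_range.mp hj
        omega
      exact_mod_cast h2
    have hij : ∀ j : ℕ, IntervalIntegrable
        (fun α : ℝ => ψ (α * x) * ψ' (α * y + j * θ) * R α) volume (-T) T := by
      intro j
      refine ii_bdE (Measurable.aestronglyMeasurable ?_)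
        (fun α => mul_bd (mul_bd (h.bd _) (h'.bd _)) (hR.bd _)) _ _
      exact ((h.meas.comp (measurable_id.mul_const x)).mul
        (h'.meas.comp ((measurable_id.mul_const y).add_const _))).mul hR.meas
    have hav : (∫ α in (-T)..T, ψ (α * x) * ψ' (α * y) * R α) =
        (1 / (b : ℂ)) * (∑ j ∈ range b, ((∫ α in (-T)..T, ψ (α * x) * ψ' (α * y) * R α) -
          ∫ α in (-T)..T, ψ (α * x) * ψ' (α * y + j * θ) * R α)) +
        ∫ α in (-T)..T, ψ (α * x) * R α *
          ((1 / (b : ℂ)) * ∑ j ∈ range b, ψ' (α * y + j * θ)) := by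
      have e1 : (∫ α in (-T)..T, ψ (α * x) * R α *
          ((1 / (b : ℂ)) * ∑ j ∈ range b, ψ' (α * y + j * θ))) =
          (1 / (b : ℂ)) * ∑ j ∈ range b, ∫ α in (-T)..T,
            ψ (α * x) * ψ' (α * y + j * θ) * R α := by
        rw [← intervalIntegral.integral_finsetSum fun j _ => hij j,
          ← intervalIntegral.integral_const_mul]
        refine intervalIntegral.integral_congr fun α _ => ?_
        rw [Finset.mul_sum, Finset.mul_sum, Finset.mul_sum]
        refine Finset.sum_congr rfl fun j _ => ?_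
        ring
      rw [e1, Finset.sum_sub_distrib, Finset.sum_const, card_range, nsmul_eq_mul]
      have hbC : (b : ℂ) ≠ 0 := by
        exact_mod_cast hbR0.ne'
      have key : ∀ I S : ℂ, I = 1 / (b : ℂ) * (b * I - S) + 1 / (b : ℂ) * S := by
        intro I S
        field_simp
        ring
      exact key _ _
    have hn : ‖1 / (b : ℂ)‖ = 1 / b := by simp
    have hA : ‖(1 / (b : ℂ)) * (∑ j ∈ range b,
        ((∫ α in (-T)..T, ψ (α * x) * ψ' (α * y) * R α) -
          ∫ α in (-T)..T, ψ (α * x) * ψ' (α * y + j * θ) * R α))‖ ≤ (M + 2) * b2 / x := by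
      rw [norm_mul, hn]
      have h2 : ‖∑ j ∈ range b, ((∫ α in (-T)..T, ψ (α * x) * ψ' (α * y) * R α) -
          ∫ α in (-T)..T, ψ (α * x) * ψ' (α * y + j * θ) * R α)‖ ≤
          ∑ j ∈ range b, (M + 2) * b2 / x := (norm_sum_le _ _).trans (Finset.sum_le_sum hsh)
      rw [Finset.sum_const, card_range, nsmul_eq_mul] at h2
      rw [one_div, inv_mul_le_iff₀ hbR0]
      exact h2
    have hB : ‖∫ α in (-T)..T, ψ (α * x) * R α *
        ((1 / (b : ℂ)) * ∑ j ∈ range b, ψ' (α * y + j * θ))‖ ≤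
        (2 * T + 1 / y) * (V / b1 + V / b2) := by
      have hms : Measurable fun α : ℝ => ∑ j ∈ range b, ψ' (α * y + j * θ) :=
        Finset.measurable_sum _ fun i _ =>
          h'.meas.comp ((measurable_id.mul_const y).add_const _)
      have hbs : ∀ α : ℝ, ‖(1 / (b : ℂ)) * ∑ j ∈ range b, ψ' (α * y + j * θ)‖ ≤ 1 := by
        intro α
        rw [norm_mul, hn, one_div, inv_mul_le_iff₀ hbR0, mul_one]
        refine (norm_sum_le _ _).trans ?_
        have := Finset.sum_le_card_nsmul (range b) (fun i : ℕ => ‖ψ' (α * y + i * θ)‖) 1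
          fun i _ => h'.bd _
        simpa using this
      have hi1 : IntervalIntegrable (fun α : ℝ =>
          ‖(1 / (b : ℂ)) * ∑ j ∈ range b, ψ' (α * y + j * θ)‖) volume (-T) T := by
        refine ii_bdE (K := 1) (measurable_const.mul hms).norm.aestronglyMeasurable
          (fun α => ?_) _ _
        rw [norm_norm]
        exact hbs α
      have hi2 : IntervalIntegrable (fun α : ℝ => ψ (α * x) * R α *
          ((1 / (b : ℂ)) * ∑ j ∈ range b, ψ' (α * y + j * θ))) volume (-T) T := by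
        refine ii_bdE (K := 1) (Measurable.aestronglyMeasurable ?_)
          (fun α => mul_bd (mul_bd (h.bd _) (hR.bd _)) (hbs α)) _ _
        exact ((h.meas.comp (measurable_id.mul_const x)).mul hR.meas).mul
          (measurable_const.mul hms)
      calc ‖∫ α in (-T)..T, ψ (α * x) * R α *
            ((1 / (b : ℂ)) * ∑ j ∈ range b, ψ' (α * y + j * θ))‖
          ≤ ∫ α in (-T)..T, ‖ψ (α * x) * R α *
            ((1 / (b : ℂ)) * ∑ j ∈ range b, ψ' (α * y + j * θ))‖ :=
            intervalIntegral.norm_integral_le_integral_norm hle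
        _ ≤ ∫ α in (-T)..T, ‖(1 / (b : ℂ)) * ∑ j ∈ range b, ψ' (α * y + j * θ)‖ := by
            refine intervalIntegral.integral_mono_on hle hi2.norm hi1 fun α _ => ?_
            rw [norm_mul]
            exact mul_le_of_le_one_left (norm_nonneg _) (mul_bd (h.bd _) (hR.bd _))
        _ ≤ (2 * T + 1 / y) * (V * b * |θ - c / b| + V / b) :=
            avg_scaled h' T y hT hy b hbpos c hcop θ
        _ ≤ (2 * T + 1 / y) * (V / b1 + V / b2) := by
            apply mul_le_mul_of_nonneg_left _ hT1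
            have h3 : V * b * |θ - c / b| ≤ V / b2 := by
              calc V * b * |θ - c / b| ≤ V * b * (1 / (b * b2)) :=
                    mul_le_mul_of_nonneg_left hap (by positivity)
                _ = V / b2 := by field_simp
            have h4 : V / b ≤ V / b1 := by
              apply div_le_div_of_nonneg_left hV (by linarith) hbbR
            linarith
    have h5 : ‖∫ α in (-T)..T, ψ (α * x) * ψ' (α * y) * R α‖ ≤
        (M + 2) * b2 / x + (2 * T + 1 / y) * (V / b1 + V / b2) := by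
      rw [hav]
      exact (norm_add_le _ _).trans (add_le_add hA hB)
    have h6 : 0 ≤ V * (2 * T / b2 + 1 / x) := by positivity
    linarith
  · -- small denominator
    have hbb' : b < b1 := by omega
    have hcz : c = 0 := by
      by_contra hcn
      have h1 : 1 ≤ c.toNat := by omega
      have h2 : c.toNat ≤ b := by omega
      have h3 := hne b c.toNat h1 h2 hbb'
      have h4 : ((c.toNat : ℕ) : ℝ) = (c : ℝ) := by
        have : ((c.toNat : ℕ) : ℤ) = c := Int.toNat_of_nonneg hc0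
        exact_mod_cast this
      rw [h4, ← hθ] at h3
      linarith
    have hb1' : b = 1 := by
      rw [hcz, Int.isCoprime_iff_gcd_eq_one] at hcop
      simpa using hcop
    have hθs : θ ≤ 1 / b2 := by
      rw [hcz, hb1'] at hap
      simp only [Int.cast_zero, Nat.cast_one, zero_div, sub_zero, one_mul] at hap
      exact (le_abs_self θ).trans hap
    have hmo : Mo T (V * (2 * T * y + 1) + M) (fun α => ψ' (α * y) * R α) :=
      mo_mul hT (mo_osc h' T y hT hy) hR
    have h1 := slow h hT hmo x hx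
    have e : ∀ α : ℝ, ψ (α * x) * (ψ' (α * y) * R α) = ψ (α * x) * ψ' (α * y) * R α := fun α => by
      ring
    simp only [e] at h1
    refine h1.trans ?_
    have h2 : (V * (2 * T * y + 1) + M + 2) / x =
        V * (2 * T * (y / x) + 1 / x) + (M + 2) / x := by
      field_simp
      ring
    rw [h2, ← hθ]
    have h3 : V * (2 * T * θ + 1 / x) ≤ V * (2 * T / b2 + 1 / x) := by
      apply mul_le_mul_of_nonneg_left _ hV
      have : 2 * T * θ ≤ 2 * T * (1 / b2) := mul_le_mul_of_nonneg_left hθs (by linarith)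
      rw [mul_one_div] at this
      linarith
    have h4 : (M + 2) / x ≤ (M + 2) * b2 / x := by
      apply div_le_div_of_nonneg_right _ hx.le
      nlinarith
    have h5 : 0 ≤ (2 * T + 1 / y) * (V / b1 + V / b2) := by positivity
    linarith

end Pool.H2.MT
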