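import Mathlib
import Pool.Agent.H2.MT.Fac
import Pool.Agent.H2.MT.Pai

/-!
Module PTT (45 min). The integral of one non-exceptional pair `(t, t')`.

`fac` for `t` and `t'` (factors `R`, `R'`, moduli `M = K log x (F^(-κ) a_q + 1)`, `M' = K log x (F^(-κ) a_q' + 1) ≤ M` as `a_q' ≤ a_q` (`grow`, or `q' = q`)). The integrand is
`cj (ψ_q(α a_q)) * conj (cj (ψ_q'(α a_q'))) * (R α * conj (R' α))`; `conj (cj b z) = cj (!b) z`; `pair_int` with `osc_cj`, `x := a_q`, `y := a_q'`, `Mo T (M + M') (R conj R')`: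
`≤ (2T + 1/y)(V/b1 + V/b2) + (2M + 2) b2/a_q + V (2T/b2 + 1/a_q)`. Here `1/y ≤ 1/a_{p0}`, `p0` the smallest element of `P` (`Nat.find`; `grow` gives `a_{p0} ≤ a_p` for `p ∈ P`), and
`M b2/a_q = K log x b2 (F^(-κ) + 1/a_q)`, `log x ≥ 1`, `b2 ≥ b1 ≥ 1`.
-/

set_option autoImplicit false

open Finset MeasureTheory

namespace Pool.H2.MT

open Pool.H2.EL

private lemma conj_cj (b : Bool) (z : ℂ) : (starRingEnd ℂ) (cj b z) = cj (!b) z := by
  unfold cj
  cases b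
  · simp
  · simp

private lemma a_mono (D : Dat) {p q : ℕ} (hp : p ∈ D.P) (hq : q ∈ D.P) (h : p ≤ q) :
    D.a p ≤ D.a q := by
  rcases h.eq_or_lt with h1 | h1
  · rw [h1]
  · have h2 := D.grow p hp q hq h1
    have hp0 : (0 : ℝ) < p := by exact_mod_cast (D.prime p hp).pos
    have h3 : (1 : ℝ) ≤ ((q : ℝ) / p) ^ D.κ := by
      refine Real.one_le_rpow ?_ D.kpos.le
      rw [le_div_iff₀ hp0, one_mul]
      exact_mod_cast h
    exact (le_mul_of_one_le_left (D.apos p hp).le h3).trans h2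

theorem ptt (D : Dat) {r : ℕ} (E : Frm r) (cc : Fin r → Bool) (T : ℝ) (hT : 0 ≤ T) :
    ∃ K : ℝ, 0 < K ∧ ∀ x Y F b1 b2 t t' q q' : ℕ, 3 ≤ x → 1 ≤ F → 1 ≤ b1 → b1 ≤ b2 →
      1 ≤ t → t < x → 1 ≤ t' → t' < x → Dom D.P E Y F t q → Dom D.P E Y F t' q' → q' ≤ q →
      (∀ b c : ℕ, 1 ≤ c → c ≤ b → b < b1 →
        1 / ((b : ℝ) * b2) < |D.a q' / D.a q - (c : ℝ) / b|) →
      ‖∫ α in (-T)..T, (∏ l, cj (cc l) (D.U α (E.L l t))) *
        (starRingEnd ℂ) (∏ l, cj (cc l) (D.U α (E.L l t')))‖ ≤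
        K * (1 / b1 + Real.log x * b2 * ((F : ℝ) ^ (-D.κ) + 1 / D.a q)) := by
  classical
  by_cases hP : ∃ p, p ∈ D.P
  swap
  · exact ⟨1, one_pos, fun x Y F b1 b2 t t' q q' _ _ _ _ _ _ _ _ hd _ _ _ =>
      absurd ⟨q, hd.1⟩ hP⟩
  obtain ⟨K0, hK0, hfac⟩ := fac D E cc T hT
  set p0 := Nat.find hP with hp0
  have hp0P : p0 ∈ D.P := Nat.find_spec hP
  set L0 : ℝ := 1 / D.a p0 with hL0
  have hap0 : 0 < D.a p0 := D.apos p0 hp0P
  have hL00 : 0 < L0 := one_div_pos.2 hap0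
  have hV : 0 ≤ D.V := (D.osc p0 hp0P).V_nonneg
  refine ⟨2 * D.V * (2 * T + L0) + 2 * T * D.V + 2 * K0 + 2 + D.V + 1, by positivity, ?_⟩
  intro x Y F b1 b2 t t' q q' hx hF hb1 hb12 ht htx ht' htx' hd hd' hqq hne
  obtain ⟨l0, R, hR, hRe⟩ := hfac x Y F t q (by omega) hF ht htx hd
  obtain ⟨l0', R', hR', hRe'⟩ := hfac x Y F t' q' (by omega) hF ht' htx' hd'
  have hqP := hd.1
  have hqP' := hd'.1
  have haq : 0 < D.a q := D.apos q hqP
  have haq' : 0 < D.a q' := D.apos q' hqP'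
  have hle : D.a q' ≤ D.a q := a_mono D hqP' hqP hqq
  have hle0 : D.a p0 ≤ D.a q' := a_mono D hp0P hqP' (Nat.find_min' hP hqP')
  have hlx : 1 ≤ Real.log x := by
    have hx3 : (3 : ℝ) ≤ x := by exact_mod_cast hx
    rw [Real.le_log_iff_exp_le (by linarith)]
    have := Real.exp_one_lt_d9
    linarith
  have hF0 : (0 : ℝ) < F := by exact_mod_cast hF
  set Fk : ℝ := (F : ℝ) ^ (-D.κ) with hFk
  have hFk0 : 0 < Fk := Real.rpow_pos_of_pos hF0 _
  set lx := Real.log x with hlxd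
  set M : ℝ := K0 * lx * (Fk * D.a q + 1) with hM
  have hR2 : Mo T M R' := mo_mono hR' (by
    rw [hM]
    refine mul_le_mul_of_nonneg_left ?_ (by positivity)
    have := mul_le_mul_of_nonneg_left hle hFk0.le
    linarith)
  have hRR : Mo T (M + M) (fun α => R α * cj false (R' α)) := mo_mul hT hR (mo_cj hR2 false)
  have hpi := pair_int (osc_cj (D.osc q hqP) (cc l0)) (osc_cj (D.osc q' hqP') (!cc l0')) hT hRR
    (D.a q) (D.a q') haq' hle b1 b2 hb1 hb12 hne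
  have hint : ∀ α : ℝ, (∏ l, cj (cc l) (D.U α (E.L l t))) *
        (starRingEnd ℂ) (∏ l, cj (cc l) (D.U α (E.L l t'))) =
      cj (cc l0) (D.ψ q (α * D.a q)) * cj (!cc l0') (D.ψ q' (α * D.a q')) *
        (R α * cj false (R' α)) := by
    intro α
    rw [hRe α, hRe' α, map_mul, conj_cj]
    have e1 : (starRingEnd ℂ) (R' α) = cj false (R' α) := rfl
    rw [e1]
    ring
  simp only [hint]
  refine hpi.trans ?_
  have hb10 : (1 : ℝ) ≤ b1 := by exact_mod_cast hb1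
  have hb120 : (b1 : ℝ) ≤ b2 := by exact_mod_cast hb12
  have hb20 : (1 : ℝ) ≤ b2 := hb10.trans hb120
  have i1 : (1 : ℝ) / b2 ≤ 1 / b1 := one_div_le_one_div_of_le (by linarith) hb120
  have i2 : 1 / D.a q' ≤ L0 := one_div_le_one_div_of_le hap0 hle0
  set G : ℝ := lx * b2 * (Fk + 1 / D.a q) with hG
  have hq0 : 0 < 1 / D.a q := one_div_pos.2 haq
  have hG0 : 0 ≤ G := by positivity
  have j1 : (2 * T + 1 / D.a q') * (D.V / b1 + D.V / b2) ≤
      (2 * D.V * (2 * T + L0)) * (1 / b1) := by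
    have k1 : D.V / b1 + D.V / b2 ≤ 2 * D.V * (1 / b1) := by
      have k2 : D.V / (b2 : ℝ) = D.V * (1 / b2) := by ring
      have k3 : D.V / (b1 : ℝ) = D.V * (1 / b1) := by ring
      rw [k2, k3]
      have := mul_le_mul_of_nonneg_left i1 hV
      linarith
    calc (2 * T + 1 / D.a q') * (D.V / b1 + D.V / b2)
        ≤ (2 * T + L0) * (2 * D.V * (1 / b1)) :=
          mul_le_mul (by linarith) k1 (by positivity) (by positivity)
      _ = (2 * D.V * (2 * T + L0)) * (1 / b1) := by ring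
  have j2 : 1 / D.a q ≤ G := by
    have k1 : 1 / D.a q ≤ Fk + 1 / D.a q := by linarith
    have k2 : (1 : ℝ) ≤ lx * b2 := by nlinarith
    calc 1 / D.a q ≤ Fk + 1 / D.a q := k1
      _ ≤ lx * b2 * (Fk + 1 / D.a q) := le_mul_of_one_le_left (by positivity) k2
  have j3 : (b2 : ℝ) / D.a q ≤ G := by
    have k1 : (b2 : ℝ) / D.a q = b2 * (1 / D.a q) := by ring
    rw [k1, hG]
    have k2 : (b2 : ℝ) * (1 / D.a q) ≤ b2 * (Fk + 1 / D.a q) :=
      mul_le_mul_of_nonneg_left (by linarith) (by linarith)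
    refine k2.trans ?_
    rw [mul_assoc]
    exact le_mul_of_one_le_left (by positivity) hlx
  have j4 : (M + M + 2) * b2 / D.a q = 2 * K0 * G + 2 * (b2 / D.a q) := by
    rw [hM, hG]
    field_simp
    ring
  have j5 : D.V * (2 * T / b2 + 1 / D.a q) ≤ (2 * T * D.V) * (1 / b1) + D.V * G := by
    have k1 : 2 * T / (b2 : ℝ) = 2 * T * (1 / b2) := by ring
    have k2 : 2 * T * (1 / (b2 : ℝ)) ≤ 2 * T * (1 / b1) :=
      mul_le_mul_of_nonneg_left i1 (by linarith)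
    rw [k1]
    calc D.V * (2 * T * (1 / b2) + 1 / D.a q) ≤ D.V * (2 * T * (1 / b1) + G) :=
          mul_le_mul_of_nonneg_left (add_le_add k2 j2) hV
      _ = (2 * T * D.V) * (1 / b1) + D.V * G := by ring
  rw [j4]
  set a1 := 2 * D.V * (2 * T + L0) with ha1
  set a2 := 2 * T * D.V with ha2
  have ha10 : 0 ≤ a1 := by positivity
  have ha20 : 0 ≤ a2 := by positivity
  have hb1' : (0 : ℝ) < 1 / b1 := by positivity
  have fin : (a1 + a2 + 2 * K0 + 2 + D.V + 1) * (1 / b1 + G) =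
      a1 * (1 / b1) + a2 * (1 / b1) + 2 * K0 * G + 2 * G + D.V * G +
      ((2 * K0 + 2 + D.V + 1) * (1 / b1) + (a1 + a2 + 1) * G) := by ring
  rw [fin]
  have rest : 0 ≤ (2 * K0 + 2 + D.V + 1) * (1 / b1) + (a1 + a2 + 1) * G := by positivity
  linarith

end Pool.H2.MT
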