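import Mathlib
import Pool.Agent.H2.MT.Ptt
import Pool.Agent.H2.MT.Exc
import Pool.Agent.H2.SpDiv

/-!
Module SEC (75 min). The second moment.

`el = el x ≥ log x`, `el ≥ 1`; `Y = el^c`, `F = el^b`, `b1 = el^5`, `b2 = el^15` (`x` large so that `b2 ≥ 4`, `x ≥ 3`), `b` = natural number `≥ 1` with `b κ ≥ 21`, `c0 = ` natural number with
`c0 ≥ 15`, `c0 κ ≥ 21`. `F^(-κ) = el^(-bκ) ≤ el^(-21)`; for good `t`, `q > el^c`: `a_q ≥ (q/p0)^κ a_{p0} ≥ K' el^(cκ) ≥ K' el^21` (`p0` smallest element of `P`).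
Expand (`measurability`: `α ↦ D.U α n` is measurable and bounded, `Osc.meas`): `∫ ‖∑_t w_t Π_t(α)‖² = ∑_{t,t'} w_t conj w_t' ∫ Π_t conj Π_t'` (as a real number; take norms)
`≤ ∑_{t,t'} ‖∫ Π_t conj Π_t'‖`. By symmetry (`‖∫ Π_t conj Π_t'‖ = ‖∫ Π_t' conj Π_t‖`) `≤ 2 ∑_t ∑_{t' : q(t') ≤ q(t)}`; choose `q(t)` by `Classical.choose`. For given `t` the `t'` in the set of
`exc` contribute `≤ 2T` each: `≤ 2T K el^10 x (el^(-15) + el^(-c)) ≤ K' x el^(-5)`; all others `≤ K (el^(-5) + el el^15 el^(-21) K'')` by `ptt`. Total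
`≤ K x² el^(-5) ≤ K x²/el^4`.
-/

set_option autoImplicit false

open Finset MeasureTheory

namespace Pool.H2.MT

open Pool.H2.EL Pool.H2.Sp

private lemma ii_c {g : ℝ → ℂ} (hm : Measurable g) {K : ℝ} (hb : ∀ x, ‖g x‖ ≤ K) (a b : ℝ) :
    IntervalIntegrable g volume a b := by
  rw [intervalIntegrable_iff]
  exact Measure.integrableOn_of_bounded (by simp [Set.uIoc]) hm.aestronglyMeasurable
    (Filter.Eventually.of_forall hb)

private lemma fv_meas (D : Dat) (p : ℕ) : Measurable (fun α => D.fv α p) := by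
  by_cases h : p ∈ D.P
  · simp only [Dat.fv, if_pos h]
    exact (D.osc p h).meas.comp (measurable_id.mul_const _)
  · simp only [Dat.fv, if_neg h]
    exact measurable_const

private lemma cj_meas' (b : Bool) {R : ℝ → ℂ} (h : Measurable R) :
    Measurable (fun x => cj b (R x)) := by
  cases b
  · exact Complex.continuous_conj.measurable.comp h
  · exact h

private lemma PP_meas (D : Dat) {r : ℕ} (E : Frm r) (cc : Fin r → Bool) (t : ℕ) :
    Measurable (fun α => ∏ l, cj (cc l) (D.U α (E.L l t))) := by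
  refine Finset.measurable_fun_prod _ fun l _ => cj_meas' (cc l) ?_
  unfold Dat.U
  exact Finset.measurable_fun_prod _ fun p _ => fv_meas D p

private lemma PP_norm (D : Dat) {r : ℕ} (E : Frm r) (cc : Fin r → Bool) (t : ℕ) (α : ℝ) :
    ‖∏ l, cj (cc l) (D.U α (E.L l t))‖ ≤ 1 := by
  rw [norm_prod]
  refine Finset.prod_le_one (fun _ _ => norm_nonneg _) fun l _ => ?_
  rw [cj_norm]
  exact D.U_norm α _

/-- opening the square -/
private lemma sq_open {T : ℝ} (S : Finset ℕ) (w : ℕ → ℂ) (hw : ∀ n, ‖w n‖ ≤ 1)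
    (Q : ℕ → ℝ → ℂ) (hm : ∀ t, Measurable (Q t)) (hb : ∀ t α, ‖Q t α‖ ≤ 1) :
    ∫ α in (-T)..T, ‖∑ t ∈ S, w t * Q t α‖ ^ 2 ≤
      ∑ t ∈ S, ∑ t' ∈ S, ‖∫ α in (-T)..T, Q t α * (starRingEnd ℂ) (Q t' α)‖ := by
  have hint : ∀ t t', IntervalIntegrable (fun α => Q t α * (starRingEnd ℂ) (Q t' α)) volume
      (-T) T := fun t t' => by
    refine ii_c (g := fun α => Q t α * (starRingEnd ℂ) (Q t' α))
      ((hm t).mul (Complex.continuous_conj.measurable.comp (hm t'))) (K := 1)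
      (fun x => ?_) _ _
    show ‖Q t x * (starRingEnd ℂ) (Q t' x)‖ ≤ 1
    rw [norm_mul, RCLike.norm_conj]
    exact mul_le_one₀ (hb t x) (norm_nonneg _) (hb t' x)
  have e1 : ((∫ α in (-T)..T, ‖∑ t ∈ S, w t * Q t α‖ ^ 2 : ℝ) : ℂ) =
      ∑ t ∈ S, ∑ t' ∈ S, (w t * (starRingEnd ℂ) (w t')) *
        ∫ α in (-T)..T, Q t α * (starRingEnd ℂ) (Q t' α) := by
    rw [← intervalIntegral.integral_ofReal]
    have e2 : ∀ α : ℝ, ((‖∑ t ∈ S, w t * Q t α‖ ^ 2 : ℝ) : ℂ) =
        ∑ t ∈ S, ∑ t' ∈ S, (w t * (starRingEnd ℂ) (w t')) *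
          (Q t α * (starRingEnd ℂ) (Q t' α)) := by
      intro α
      rw [← Complex.normSq_eq_norm_sq, ← Complex.mul_conj, map_sum, Finset.sum_mul_sum]
      refine Finset.sum_congr rfl fun t _ => Finset.sum_congr rfl fun t' _ => ?_
      rw [map_mul]
      ring
    simp only [e2]
    rw [intervalIntegral.integral_finsetSum]
    · refine Finset.sum_congr rfl fun t _ => ?_
      rw [intervalIntegral.integral_finsetSum]
      · refine Finset.sum_congr rfl fun t' _ => ?_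
        rw [intervalIntegral.integral_const_mul]
      · intro t' _
        exact (hint t t').const_mul _
    · intro t _
      have h0 : (fun α => ∑ t' ∈ S, (w t * (starRingEnd ℂ) (w t')) *
          (Q t α * (starRingEnd ℂ) (Q t' α))) = ∑ t' ∈ S, fun α =>
            (w t * (starRingEnd ℂ) (w t')) * (Q t α * (starRingEnd ℂ) (Q t' α)) := by
        funext α
        rw [Finset.sum_apply]
      rw [h0]
      exact IntervalIntegrable.sum _ fun t' _ => (hint t t').const_mul _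
  have e3 : ∫ α in (-T)..T, ‖∑ t ∈ S, w t * Q t α‖ ^ 2 ≤
      ‖((∫ α in (-T)..T, ‖∑ t ∈ S, w t * Q t α‖ ^ 2 : ℝ) : ℂ)‖ := by
    rw [Complex.norm_real]
    exact le_abs_self _
  refine e3.trans ?_
  rw [e1]
  refine (norm_sum_le _ _).trans (Finset.sum_le_sum fun t _ => ?_)
  refine (norm_sum_le _ _).trans (Finset.sum_le_sum fun t' _ => ?_)
  rw [norm_mul, norm_mul, RCLike.norm_conj]
  exact mul_le_of_le_one_left (norm_nonneg _) (mul_le_one₀ (hw t) (norm_nonneg _) (hw t'))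

private lemma J_symm {T : ℝ} (Q Q' : ℝ → ℂ) :
    ‖∫ α in (-T)..T, Q α * (starRingEnd ℂ) (Q' α)‖ =
      ‖∫ α in (-T)..T, Q' α * (starRingEnd ℂ) (Q α)‖ := by
  have h1 : (starRingEnd ℂ) (∫ α in (-T)..T, Q α * (starRingEnd ℂ) (Q' α)) =
      ∫ α in (-T)..T, Q' α * (starRingEnd ℂ) (Q α) := by
    have h2 : ∀ α, Q' α * (starRingEnd ℂ) (Q α) =
        (starRingEnd ℂ) (Q α * (starRingEnd ℂ) (Q' α)) := fun α => by
      rw [map_mul, Complex.conj_conj, mul_comm]
    simp only [h2]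
    rw [intervalIntegral.intervalIntegral_eq_integral_uIoc,
      intervalIntegral.intervalIntegral_eq_integral_uIoc, integral_conj]
    simp only [Complex.real_smul]
    rw [map_mul, Complex.conj_ofReal]
  rw [← h1, RCLike.norm_conj]

private lemma J_bd {T : ℝ} (hT : 0 ≤ T) {Q Q' : ℝ → ℂ} (hb : ∀ α, ‖Q α‖ ≤ 1)
    (hb' : ∀ α, ‖Q' α‖ ≤ 1) : ‖∫ α in (-T)..T, Q α * (starRingEnd ℂ) (Q' α)‖ ≤ 2 * T := by
  have h1 : ‖∫ α in (-T)..T, Q α * (starRingEnd ℂ) (Q' α)‖ ≤ 1 * |T - (-T)| := by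
    refine intervalIntegral.norm_integral_le_of_norm_le_const fun x _ => ?_
    rw [norm_mul, RCLike.norm_conj]
    exact mul_le_one₀ (hb x) (norm_nonneg _) (hb' x)
  rw [one_mul, sub_neg_eq_add, abs_of_nonneg (by linarith)] at h1
  linarith

open Classical in
private lemma half_sum (S : Finset ℕ) (q : ℕ → ℕ) (J : ℕ → ℕ → ℝ) (hJ0 : ∀ t t', 0 ≤ J t t')
    (hs : ∀ t t', J t t' = J t' t) :
    ∑ t ∈ S, ∑ t' ∈ S, J t t' ≤ 2 * ∑ t ∈ S, ∑ t' ∈ S, if q t' ≤ q t then J t t' else 0 := by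
  have h1 : ∀ t ∈ S, ∀ t' ∈ S, J t t' ≤ (if q t' ≤ q t then J t t' else 0) +
      (if q t ≤ q t' then J t' t else 0) := by
    intro t _ t' _
    rcases le_total (q t') (q t) with h | h
    · rw [if_pos h]
      have : 0 ≤ (if q t ≤ q t' then J t' t else 0) := by
        split_ifs
        · exact hJ0 _ _
        · exact le_rfl
      linarith
    · rw [if_pos h, hs t t']
      have : 0 ≤ (if q t' ≤ q t then J t' t else 0) := by
        split_ifs
        · exact hJ0 _ _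
        · exact le_rfl
      linarith
  refine (Finset.sum_le_sum fun t ht => Finset.sum_le_sum fun t' ht' => h1 t ht t' ht').trans ?_
  simp only [Finset.sum_add_distrib]
  rw [Finset.sum_comm (f := fun t t' => if q t ≤ q t' then J t' t else 0), two_mul]

open Classical in
theorem sec (D : Dat) {r : ℕ} (E : Frm r) (cc : Fin r → Bool) (w : ℕ → ℂ) (hw : ∀ n, ‖w n‖ ≤ 1)
    (T : ℝ) (hT : 0 ≤ T) : ∃ b c0 : ℕ, 1 ≤ b ∧ ∀ c : ℕ, c0 ≤ c → ∃ (K : ℝ) (x0 : ℕ), ∀ x : ℕ, x0 ≤ x →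
      ∫ α in (-T)..T, ‖∑ t ∈ (range x).filter (Good D.P E (el x ^ c) (el x ^ b)),
        w t * ∏ l, cj (cc l) (D.U α (E.L l t))‖ ^ 2 ≤ K * (x : ℝ) ^ 2 / (el x : ℝ) ^ 4 := by
  refine ⟨⌈21 / D.κ⌉₊ + 1, max 15 ⌈21 / D.κ⌉₊, by omega, fun c hc => ?_⟩
  set b : ℕ := ⌈21 / D.κ⌉₊ + 1 with hbdef
  have hκ := D.kpos
  have hbκ : 21 ≤ (b : ℝ) * D.κ := by
    have h1 : 21 / D.κ ≤ b := by
      rw [hbdef]
      push_cast
      have := Nat.le_ceil (21 / D.κ)
      linarith
    rwa [div_le_iff₀ hκ] at h1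
  have hcκ : 21 ≤ (c : ℝ) * D.κ := by
    have h1 : 21 / D.κ ≤ c := by
      have h2 : ⌈21 / D.κ⌉₊ ≤ c := (le_max_right _ _).trans hc
      have h3 : (⌈21 / D.κ⌉₊ : ℝ) ≤ c := by exact_mod_cast h2
      exact (Nat.le_ceil _).trans h3
    rwa [div_le_iff₀ hκ] at h1
  have hc15 : 15 ≤ c := (le_max_left _ _).trans hc
  by_cases hP : ∃ p, p ∈ D.P
  swap
  · refine ⟨1, 0, fun x _ => ?_⟩
    have hS : (range x).filter (Good D.P E (el x ^ c) (el x ^ b)) = ∅ := by
      rw [Finset.filter_eq_empty_iff]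
      rintro t _ ⟨_, q, hq⟩
      exact hP ⟨q, hq.1⟩
    simp only [hS, Finset.sum_empty, norm_zero]
    have : (0 : ℝ) ≤ 1 * (x : ℝ) ^ 2 / (el x : ℝ) ^ 4 := by positivity
    simpa using this
  obtain ⟨Ke, hKe, hexc⟩ := exc D E
  obtain ⟨Kp, hKp, hptt⟩ := ptt D E cc T hT
  set p0 := Nat.find hP with hp0
  have hp0P : p0 ∈ D.P := Nat.find_spec hP
  have hap0 : 0 < D.a p0 := D.apos p0 hp0P
  have hp00 : (0 : ℝ) < p0 := by exact_mod_cast (D.prime p0 hp0P).pos
  set L1 : ℝ := (p0 : ℝ) ^ D.κ / D.a p0 with hL1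
  have hL10 : 0 < L1 := div_pos (Real.rpow_pos_of_pos hp00 _) hap0
  refine ⟨2 * (4 * T * Ke + Kp * (2 + L1)), 8, fun x hx => ?_⟩
  set e : ℝ := (el x : ℝ) with he
  have hx8 : (8 : ℝ) ≤ x := by exact_mod_cast hx
  have hx0 : (0 : ℝ) < x := by linarith
  have hlog2 : 2 < Real.log x := by
    rw [Real.lt_log_iff_exp_lt hx0]
    have h1 := Real.exp_one_lt_d9
    have h2 : Real.exp 2 = Real.exp 1 * Real.exp 1 := by
      rw [← Real.exp_add]
      norm_num
    rw [h2]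
    have h3 := Real.exp_pos 1
    nlinarith
  have hle : Real.log x < e := log_lt_el x
  have he2 : 2 < e := hlog2.trans hle
  have he1 : 1 ≤ e := by linarith
  have he0 : 0 < e := by linarith
  have hel2 : 2 ≤ el x := by
    have : (2 : ℝ) < (el x : ℝ) := he2
    have h2 : 2 < el x := by exact_mod_cast this
    omega
  set S := (range x).filter (Good D.P E (el x ^ c) (el x ^ b)) with hS
  set Q : ℕ → ℝ → ℂ := fun t α => ∏ l, cj (cc l) (D.U α (E.L l t)) with hQ
  have hstep := sq_open (T := T) S w hw Q (PP_meas D E cc) (PP_norm D E cc)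
  refine hstep.trans ?_
  have hgood : ∀ t ∈ S, 1 ≤ t ∧ ∃ q, Dom D.P E (el x ^ c) (el x ^ b) t q := fun t ht =>
    (Finset.mem_filter.1 ht).2
  have hq : ∀ t, ∃ q, t ∈ S → Dom D.P E (el x ^ c) (el x ^ b) t q := fun t => by
    by_cases ht : t ∈ S
    · obtain ⟨_, q, hq⟩ := hgood t ht
      exact ⟨q, fun _ => hq⟩
    · exact ⟨0, fun h => absurd h ht⟩
  choose q hqd using hq
  set J : ℕ → ℕ → ℝ := fun t t' => ‖∫ α in (-T)..T, Q t α * (starRingEnd ℂ) (Q t' α)‖ with hJ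
  have hhalf := half_sum S q J (fun _ _ => norm_nonneg _) (fun t t' => J_symm (Q t) (Q t'))
  refine hhalf.trans ?_
  set b1 : ℕ := el x ^ 5 with hb1
  set b2 : ℕ := el x ^ 15 with hb2
  have hb11 : 1 ≤ b1 := Nat.one_le_pow _ _ (by omega)
  have hb12 : b1 ≤ b2 := Nat.pow_le_pow_right (by omega) (by norm_num)
  have hb24 : 4 ≤ b2 := by
    have h1 : 2 ^ 15 ≤ el x ^ 15 := Nat.pow_le_pow_left hel2 15
    have h2 : 4 ≤ 2 ^ 15 := by norm_num
    exact h2.trans h1
  have hY1 : 1 ≤ el x ^ c := Nat.one_le_pow _ _ (by omega)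
  have hF1 : 1 ≤ el x ^ b := Nat.one_le_pow _ _ (by omega)
  have hFk : (((el x ^ b : ℕ) : ℝ)) ^ (-D.κ) ≤ (e ^ 21)⁻¹ := by
    push_cast
    rw [← he, ← Real.rpow_natCast, ← Real.rpow_mul he0.le]
    have h1 : (e ^ 21)⁻¹ = e ^ (-(21 : ℝ)) := by
      rw [Real.rpow_neg he0.le]
      norm_num
    rw [h1]
    refine Real.rpow_le_rpow_of_exponent_le he1 ?_
    linarith
  have haq : ∀ t ∈ S, 1 / D.a (q t) ≤ L1 * (e ^ 21)⁻¹ := by
    intro t ht
    have hd := hqd t ht
    have hqP := hd.1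
    have h1 : ((q t : ℝ) / p0) ^ D.κ * D.a p0 ≤ D.a (q t) := by
      have h2 : p0 ≤ q t := Nat.find_min' hP hqP
      rcases h2.eq_or_lt with h3 | h3
      · rw [← h3, div_self hp00.ne', Real.one_rpow, one_mul]
      · exact D.grow p0 hp0P (q t) hqP h3
    have h2 : e ^ 21 ≤ (q t : ℝ) ^ D.κ := by
      have h3 : (el x ^ c : ℕ) < q t := hd.2.2.1
      have h4 : e ^ c ≤ (q t : ℝ) := by
        have h5 : ((el x ^ c : ℕ) : ℝ) < q t := by exact_mod_cast h3
        push_cast at h5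
        exact h5.le
      have h5 : (e ^ c) ^ D.κ ≤ (q t : ℝ) ^ D.κ := Real.rpow_le_rpow (by positivity) h4 hκ.le
      refine le_trans ?_ h5
      rw [← Real.rpow_natCast e c, ← Real.rpow_mul he0.le, ← Real.rpow_natCast e 21]
      refine Real.rpow_le_rpow_of_exponent_le he1 ?_
      push_cast
      exact hcκ
    have h3 : 0 < D.a (q t) := D.apos _ hqP
    have h4 : e ^ 21 / L1 ≤ D.a (q t) := by
      refine le_trans ?_ h1
      rw [hL1, div_div_eq_mul_div, Real.div_rpow (Nat.cast_nonneg _) hp00.le, div_mul_eq_mul_div,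
        div_le_div_iff_of_pos_right (Real.rpow_pos_of_pos hp00 _)]
      exact mul_le_mul_of_nonneg_right h2 hap0.le
    have h5 : L1 * (e ^ 21)⁻¹ = 1 / (e ^ 21 / L1) := by
      field_simp
    rw [h5]
    exact one_div_le_one_div_of_le (by positivity) h4
  set Bd : ℝ := Kp * ((2 + L1) * (e ^ 5)⁻¹) with hBd
  have hBd0 : 0 ≤ Bd := by positivity
  have hrow : ∀ t ∈ S, ∑ t' ∈ S, (if q t' ≤ q t then J t t' else 0) ≤
      (4 * T * Ke + Kp * (2 + L1)) * x * (e ^ 5)⁻¹ := by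
    intro t ht
    have hd := hqd t ht
    have ht1 := (hgood t ht).1
    have htx : t < x := Finset.mem_range.1 (Finset.mem_filter.1 ht).1
    set Ex := (range x).filter (fun t' => 1 ≤ t' ∧ ∃ q' ∈ D.P, el x ^ c < q' ∧ q' ≤ q t ∧
      (∃ l, q' ∣ E.L l t') ∧ ∃ b c : ℕ, 1 ≤ c ∧ c ≤ b ∧ b < b1 ∧
        |D.a q' / D.a (q t) - (c : ℝ) / b| ≤ 1 / ((b : ℝ) * b2)) with hEx
    have hterm : ∀ t' ∈ S, (if q t' ≤ q t then J t t' else 0) ≤
        (if t' ∈ Ex then 2 * T else 0) + Bd := by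
      intro t' ht'
      have h00 : 0 ≤ (if t' ∈ Ex then 2 * T else 0) := by
        split_ifs
        · linarith
        · exact le_rfl
      by_cases hqq : q t' ≤ q t
      swap
      · rw [if_neg hqq]
        linarith
      rw [if_pos hqq]
      have hd' := hqd t' ht'
      have ht1' := (hgood t' ht').1
      have htx' : t' < x := Finset.mem_range.1 (Finset.mem_filter.1 ht').1
      by_cases hex : ∃ b c : ℕ, 1 ≤ c ∧ c ≤ b ∧ b < b1 ∧
        |D.a (q t') / D.a (q t) - (c : ℝ) / b| ≤ 1 / ((b : ℝ) * b2)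
      · have hmem : t' ∈ Ex := by
          rw [hEx, Finset.mem_filter, Finset.mem_range]
          obtain ⟨l, hl, _⟩ := hd'.2.2.2.1
          exact ⟨htx', ht1', q t', hd'.1, hd'.2.2.1, hqq, ⟨l, hl⟩, hex⟩
        rw [if_pos hmem]
        have := J_bd hT (Q := Q t) (Q' := Q t') (PP_norm D E cc t) (PP_norm D E cc t')
        linarith
      · have hex' : ∀ b c : ℕ, 1 ≤ c → c ≤ b → b < b1 →
            1 / ((b : ℝ) * b2) < |D.a (q t') / D.a (q t) - (c : ℝ) / b| := by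
          intro b c h1 h2 h3
          by_contra h4
          exact hex ⟨b, c, h1, h2, h3, not_lt.1 h4⟩
        have h1 := hptt x (el x ^ c) (el x ^ b) b1 b2 t t' (q t) (q t') (by omega) hF1 hb11 hb12
          ht1 htx ht1' htx' hd hd' hqq hex'
        have h2 : Kp * (1 / b1 + Real.log x * b2 *
            ((((el x ^ b : ℕ) : ℝ)) ^ (-D.κ) + 1 / D.a (q t))) ≤ Bd := by
          rw [hBd]
          refine mul_le_mul_of_nonneg_left ?_ hKp.le
          have h3 : (1 : ℝ) / (b1 : ℝ) = (e ^ 5)⁻¹ := by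
            rw [hb1]
            push_cast
            rw [← he, one_div]
          have h4 : (b2 : ℝ) = e ^ 15 := by
            rw [hb2]
            push_cast
            rw [← he]
          have h5 : (((el x ^ b : ℕ) : ℝ)) ^ (-D.κ) + 1 / D.a (q t) ≤
              (1 + L1) * (e ^ 21)⁻¹ := by
            have := haq t ht
            linarith
          have h6 : 0 ≤ (1 + L1) * (e ^ 21)⁻¹ := by positivity
          rw [h3, h4]
          have h7 : Real.log x * e ^ 15 * ((((el x ^ b : ℕ) : ℝ)) ^ (-D.κ) + 1 / D.a (q t)) ≤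
              e * e ^ 15 * ((1 + L1) * (e ^ 21)⁻¹) := by
            have h8 : Real.log x * e ^ 15 ≤ e * e ^ 15 :=
              mul_le_mul_of_nonneg_right hle.le (by positivity)
            have h9 : 0 ≤ Real.log x * e ^ 15 := mul_nonneg (by linarith) (by positivity)
            exact (mul_le_mul_of_nonneg_left h5 h9).trans (mul_le_mul_of_nonneg_right h8 h6)
          have h10 : e * e ^ 15 * ((1 + L1) * (e ^ 21)⁻¹) = (1 + L1) * (e ^ 5)⁻¹ := by
            have : (e : ℝ) ^ 21 = e ^ 16 * e ^ 5 := by ring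
            rw [this, mul_inv]
            have h11 : e * e ^ 15 = e ^ 16 := by ring
            rw [h11]
            field_simp
          rw [h10] at h7
          linarith
        have h3 : J t t' ≤ Bd := h1.trans h2
        linarith
    refine (Finset.sum_le_sum hterm).trans ?_
    rw [Finset.sum_add_distrib]
    have h1 : ∑ t' ∈ S, (if t' ∈ Ex then 2 * T else 0) ≤ (Ex.card : ℝ) * (2 * T) := by
      rw [← Finset.sum_filter, Finset.sum_const, nsmul_eq_mul]
      refine mul_le_mul_of_nonneg_right ?_ (by linarith)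
      have h2 : (S.filter fun t' => t' ∈ Ex) ⊆ Ex := fun t' h => (Finset.mem_filter.1 h).2
      exact_mod_cast Finset.card_le_card h2
    have h2 : ∑ _t' ∈ S, Bd ≤ x * Bd := by
      rw [Finset.sum_const, nsmul_eq_mul]
      refine mul_le_mul_of_nonneg_right ?_ hBd0
      have h3 : S.card ≤ x := (Finset.card_filter_le _ _).trans (by rw [Finset.card_range])
      exact_mod_cast h3
    have h3 : (Ex.card : ℝ) ≤ Ke * (2 * x * (e ^ 5)⁻¹) := by
      have h4 := hexc b1 b2 (el x ^ c) x (q t) hb11 hb24 hY1 hd.1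
      refine h4.trans ?_
      have h5 : ((el x ^ c : ℕ) : ℝ) = e ^ c := by push_cast; rfl
      have h6 : (b2 : ℝ) = e ^ 15 := by
        rw [hb2]
        push_cast
        rw [← he]
      have h7 : (b1 : ℝ) = e ^ 5 := by
        rw [hb1]
        push_cast
        rw [← he]
      rw [h5, h6, h7]
      have h8 : (1 : ℝ) / e ^ c ≤ 1 / e ^ 15 :=
        one_div_le_one_div_of_le (by positivity) (pow_le_pow_right₀ he1 hc15)
      have h9 : Ke * (e ^ 5) ^ 2 * x * (1 / e ^ 15 + 1 / e ^ c) ≤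
          Ke * (e ^ 5) ^ 2 * x * (1 / e ^ 15 + 1 / e ^ 15) :=
        mul_le_mul_of_nonneg_left (by linarith) (by positivity)
      refine h9.trans (le_of_eq ?_)
      field_simp
      ring
    have h4 : (Ex.card : ℝ) * (2 * T) ≤ Ke * (2 * x * (e ^ 5)⁻¹) * (2 * T) :=
      mul_le_mul_of_nonneg_right h3 (by linarith)
    have h5 : Ke * (2 * x * (e ^ 5)⁻¹) * (2 * T) + x * Bd =
        (4 * T * Ke + Kp * (2 + L1)) * x * (e ^ 5)⁻¹ := by
      rw [hBd]
      ring
    linarith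
  have hall : ∑ t ∈ S, ∑ t' ∈ S, (if q t' ≤ q t then J t t' else 0) ≤
      x * ((4 * T * Ke + Kp * (2 + L1)) * x * (e ^ 5)⁻¹) := by
    refine (Finset.sum_le_sum hrow).trans ?_
    rw [Finset.sum_const, nsmul_eq_mul]
    refine mul_le_mul_of_nonneg_right ?_ (by positivity)
    have h3 : S.card ≤ x := (Finset.card_filter_le _ _).trans (by rw [Finset.card_range])
    exact_mod_cast h3
  have hfin : (2 : ℝ) * (x * ((4 * T * Ke + Kp * (2 + L1)) * x * (e ^ 5)⁻¹)) ≤
      2 * (4 * T * Ke + Kp * (2 + L1)) * (x : ℝ) ^ 2 / e ^ 4 := by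
    have h1 : (e ^ 5)⁻¹ ≤ (e ^ 4)⁻¹ := by
      refine inv_anti₀ (by positivity) ?_
      exact pow_le_pow_right₀ he1 (by norm_num)
    have h2 : (2 : ℝ) * (x * ((4 * T * Ke + Kp * (2 + L1)) * x * (e ^ 5)⁻¹)) =
        (2 * (4 * T * Ke + Kp * (2 + L1)) * (x : ℝ) ^ 2) * (e ^ 5)⁻¹ := by ring
    rw [h2, div_eq_mul_inv]
    exact mul_le_mul_of_nonneg_left h1 (by positivity)
  linarith

end Pool.H2.MT
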