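import Mathlib
import Pool.Agent.H2.MT.Sec
import Pool.Agent.H2.MT.Bad
import Pool.Agent.H2.SpDiv
import Pool.Agent.H2.RandProb

/-!
Module BOR (75 min). Borel-Cantelli and all scales.

`y α t = w t * ∏ l, cj (cc l) (D.U α (E.L l t))` (norm `≤ 1`). `aet`: fix `T ≥ 0`. Let `b, c0` be as in `sec`. For `n : ℕ`, `ε = 1/(n+1)`: `bad_le` gives `c ≥ c0` with the bound `ε x` for the bad `t`; `sec` for this `c`;
with `x = sc j` (`sc_tendsto`; `Pool.H2.Sp.sc j = ⌈exp √(j+1)⌉₊`) and `sc_sum`: `∑_j ∫_{-T}^{T} ‖S_j(α)‖² /(sc j)² dα < ∞` for the sum `S_j` over the good `t`, so for a.e. `α ∈ [-T,T]` the series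
`∑_j ‖S_j(α)‖²/(sc j)²` converges (`MeasureTheory.ae_lt_top` of `lintegral_tsum`, or `MeasureTheory.hasSum_integral_of_summable_integral_norm`; compare `H2/RandMain.lean` lemmaL, `H2/SpFinal.lean`), hence
`‖S_j(α)‖/(sc j) → 0` and eventually `‖∑_{t < sc j} y α t‖/(sc j) ≤ 2ε`. Intersect over `n`: the limit is `0` for a.e. `α ∈ [-T,T]`.
`mainU`: intersect over `T ∈ ℕ` (`ae_all_iff`, `ae_restrict_iff'`), then `gap` (`H2/SpDiv`) with `u = sc`, `sc_pos`, `sc_mono`, `sc_tendsto`, `sc_ratio`.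
-/

set_option autoImplicit false

open Finset MeasureTheory Filter Topology

namespace Pool.H2.MT

open Pool.H2.EL Pool.H2.Sp

private lemma fv_meas (D : Dat) (p : ℕ) : Measurable (fun α : ℝ => D.fv α p) := by
  unfold Dat.fv
  split_ifs with h
  · exact (D.osc p h).meas.comp (measurable_id.mul_const _)
  · exact measurable_const

private lemma U_meas (D : Dat) (n : ℕ) : Measurable (fun α : ℝ => D.U α n) := by
  unfold Dat.U
  exact Finset.measurable_fun_prod _ fun p _ => fv_meas D p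

private lemma cj_meas (b : Bool) {f : ℝ → ℂ} (hf : Measurable f) : Measurable (fun α => cj b (f α)) := by
  unfold cj
  split_ifs
  · exact hf
  · exact Complex.continuous_conj.measurable.comp hf

private lemma y_meas (D : Dat) {r : ℕ} (E : Frm r) (cc : Fin r → Bool) (w : ℕ → ℂ) (t : ℕ) :
    Measurable (fun α : ℝ => w t * ∏ l, cj (cc l) (D.U α (E.L l t))) :=
  (Finset.measurable_fun_prod _ fun l _ => cj_meas _ (U_meas D _)).const_mul _

private lemma y_norm (D : Dat) {r : ℕ} (E : Frm r) (cc : Fin r → Bool) (w : ℕ → ℂ)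
    (hw : ∀ n, ‖w n‖ ≤ 1) (α : ℝ) (t : ℕ) :
    ‖w t * ∏ l, cj (cc l) (D.U α (E.L l t))‖ ≤ 1 := by
  rw [norm_mul, norm_prod]
  refine mul_le_one₀ (hw t) (prod_nonneg fun _ _ => norm_nonneg _)
    (prod_le_one (fun _ _ => norm_nonneg _) fun _ _ => ?_)
  rw [cj_norm]
  exact D.U_norm α _

open Classical in
private lemma aet_good (D : Dat) {r : ℕ} (E : Frm r) (cc : Fin r → Bool)
    (w : ℕ → ℂ) (hw : ∀ n, ‖w n‖ ≤ 1) (T : ℝ) (hT : 0 ≤ T) (b c : ℕ) (K : ℝ) (x0 : ℕ)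
    (h : ∀ x : ℕ, x0 ≤ x →
      ∫ α in (-T)..T, ‖∑ t ∈ (range x).filter (Good D.P E (el x ^ c) (el x ^ b)),
        w t * ∏ l, cj (cc l) (D.U α (E.L l t))‖ ^ 2 ≤ K * (x : ℝ) ^ 2 / (el x : ℝ) ^ 4) :
    ∀ᵐ α ∂(volume.restrict (Set.Icc (-T) T)), Tendsto (fun j : ℕ =>
      ‖∑ t ∈ (range (sc j)).filter (Good D.P E (el (sc j) ^ c) (el (sc j) ^ b)),
        w t * ∏ l, cj (cc l) (D.U α (E.L l t))‖ / (sc j : ℝ)) atTop (𝓝 0) := by
  obtain ⟨j0, hj0⟩ := eventually_atTop.1 (sc_tendsto.eventually_ge_atTop x0)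
  set S : ℕ → ℝ → ℂ := fun x α => ∑ t ∈ (range x).filter (Good D.P E (el x ^ c) (el x ^ b)),
        w t * ∏ l, cj (cc l) (D.U α (E.L l t)) with hS
  have hSm : ∀ x, Measurable (S x) := fun x =>
    Finset.measurable_fun_sum _ fun t _ => y_meas D E cc w t
  have hSb : ∀ x α, ‖S x α‖ ≤ x := by
    intro x α
    refine (norm_sum_le _ _).trans ?_
    calc ∑ t ∈ (range x).filter (Good D.P E (el x ^ c) (el x ^ b)),
          ‖w t * ∏ l, cj (cc l) (D.U α (E.L l t))‖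
        ≤ ∑ t ∈ (range x).filter (Good D.P E (el x ^ c) (el x ^ b)), (1 : ℝ) :=
          sum_le_sum fun t _ => y_norm D E cc w hw α t
      _ = (((range x).filter (Good D.P E (el x ^ c) (el x ^ b))).card : ℝ) := by simp
      _ ≤ ((range x).card : ℝ) := by exact_mod_cast card_filter_le _ _
      _ = x := by simp
  set Z : ℕ → ℝ → ℝ := fun j α => ‖S (sc (j + j0)) α‖ ^ 2 / (sc (j + j0) : ℝ) ^ 2 with hZ
  have hZm : ∀ j, Measurable (Z j) := fun j => ((hSm _).norm.pow_const 2).div_const _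
  have hZ0 : ∀ j α, 0 ≤ Z j α := fun j α => by positivity
  have hZ1 : ∀ j α, Z j α ≤ 1 := by
    intro j α
    have h1 : (0 : ℝ) < sc (j + j0) := by exact_mod_cast sc_pos _
    rw [hZ]
    simp only
    rw [div_le_one (by positivity)]
    exact pow_le_pow_left₀ (norm_nonneg _) (hSb _ α) 2
  have hsum : Summable (fun j : ℕ => |K| * (1 / (el (sc (j + j0)) : ℝ) ^ 4 + 1 / (sc (j + j0) : ℝ))) :=
    (summable_nat_add_iff j0).2 (sc_sum |K|)
  have hconv := Pool.H2.Rand.ae_tendsto_of_moment (μ := volume.restrict (Set.Icc (-T) T)) Z hZ0 hZm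
    (fun j => by
      apply Integrable.of_bound (C := 1) (hZm j).aestronglyMeasurable
      filter_upwards with α
      rw [Real.norm_of_nonneg (hZ0 j α)]
      exact hZ1 j α)
    (fun j => |K| * (1 / (el (sc (j + j0)) : ℝ) ^ 4 + 1 / (sc (j + j0) : ℝ))) hsum
    (fun j => by
      have hpos : (0 : ℝ) < sc (j + j0) := by exact_mod_cast sc_pos _
      have hel : (0 : ℝ) < el (sc (j + j0)) := by exact_mod_cast el_pos _
      have h1 := h (sc (j + j0)) (hj0 _ (Nat.le_add_left _ _))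
      rw [integral_Icc_eq_integral_Ioc, ← intervalIntegral.integral_of_le (by linarith)]
      rw [hZ]
      simp only
      rw [intervalIntegral.integral_div, div_le_iff₀ (by positivity)]
      refine h1.trans ?_
      have h2 : K * (sc (j + j0) : ℝ) ^ 2 / (el (sc (j + j0)) : ℝ) ^ 4 ≤
          |K| * (1 / (el (sc (j + j0)) : ℝ) ^ 4) * (sc (j + j0) : ℝ) ^ 2 := by
        rw [mul_div_assoc, mul_assoc]
        have e1 : (1 / (el (sc (j + j0)) : ℝ) ^ 4) * (sc (j + j0) : ℝ) ^ 2 =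
            (sc (j + j0) : ℝ) ^ 2 / (el (sc (j + j0)) : ℝ) ^ 4 := by ring
        rw [e1]
        exact mul_le_mul_of_nonneg_right (le_abs_self K) (by positivity)
      refine h2.trans ?_
      apply mul_le_mul_of_nonneg_right _ (by positivity)
      apply mul_le_mul_of_nonneg_left _ (abs_nonneg K)
      have : (0 : ℝ) ≤ 1 / (sc (j + j0) : ℝ) := by positivity
      linarith)
  filter_upwards [hconv] with α hα
  rw [← tendsto_add_atTop_iff_nat j0]
  have h3 : Tendsto (fun j => √(Z j α)) atTop (𝓝 0) := by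
    have := (Real.continuous_sqrt.tendsto 0).comp hα
    simpa [Function.comp_def] using this
  refine h3.congr fun j => ?_
  have hpos : (0 : ℝ) < sc (j + j0) := by exact_mod_cast sc_pos _
  rw [hZ]
  simp only
  rw [Real.sqrt_div (by positivity), Real.sqrt_sq (norm_nonneg _), Real.sqrt_sq hpos.le]

theorem aet (D : Dat) (hP : Thick D.P) {r : ℕ} (hr : 1 ≤ r) (E : Frm r) (cc : Fin r → Bool)
    (w : ℕ → ℂ) (hw : ∀ n, ‖w n‖ ≤ 1) (T : ℝ) (hT : 0 ≤ T) :
    ∀ᵐ α ∂(volume.restrict (Set.Icc (-T) T)), Tendsto (fun j : ℕ =>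
      ‖∑ t ∈ range (sc j), w t * ∏ l, cj (cc l) (D.U α (E.L l t))‖ / (sc j : ℝ)) atTop (𝓝 0) := by
  classical
  obtain ⟨b, c0, hb, hsec⟩ := sec D E cc w hw T hT
  have h1 : ∀ᵐ α ∂(volume.restrict (Set.Icc (-T) T)), ∀ n : ℕ, ∃ j1 : ℕ, ∀ j : ℕ, j1 ≤ j →
      ‖∑ t ∈ range (sc j), w t * ∏ l, cj (cc l) (D.U α (E.L l t))‖ / (sc j : ℝ) ≤
        2 / ((n : ℝ) + 1) := by
    rw [ae_all_iff]
    intro n
    have hn : (0 : ℝ) < 1 / ((n : ℝ) + 1) := by positivity
    obtain ⟨c1, hc1⟩ := bad_le D.P hP hr E b hb (1 / ((n : ℝ) + 1)) hn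
    obtain ⟨x1, hx1⟩ := hc1 (max c0 c1) (le_max_right _ _)
    obtain ⟨K, x2, hx2⟩ := hsec (max c0 c1) (le_max_left _ _)
    have h2 := aet_good D E cc w hw T hT b (max c0 c1) K x2 hx2
    filter_upwards [h2] with α hα
    have h3 := (tendsto_order.1 hα).2 _ hn
    obtain ⟨j1, hj1⟩ := eventually_atTop.1 (h3.and (sc_tendsto.eventually_ge_atTop x1))
    refine ⟨j1, fun j hj => ?_⟩
    obtain ⟨h4, h5⟩ := hj1 j hj
    have hpos : (0 : ℝ) < sc j := by exact_mod_cast sc_pos _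
    have h6 := hx1 (sc j) h5
    have h7 : ∑ t ∈ range (sc j), w t * ∏ l, cj (cc l) (D.U α (E.L l t)) =
        ∑ t ∈ (range (sc j)).filter (Good D.P E (el (sc j) ^ (max c0 c1)) (el (sc j) ^ b)),
          w t * ∏ l, cj (cc l) (D.U α (E.L l t)) +
        ∑ t ∈ (range (sc j)).filter
          (fun t => ¬ Good D.P E (el (sc j) ^ (max c0 c1)) (el (sc j) ^ b) t),
          w t * ∏ l, cj (cc l) (D.U α (E.L l t)) :=
      (sum_filter_add_sum_filter_not _ _ _).symm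
    have h8 : ‖∑ t ∈ (range (sc j)).filter
          (fun t => ¬ Good D.P E (el (sc j) ^ (max c0 c1)) (el (sc j) ^ b) t),
          w t * ∏ l, cj (cc l) (D.U α (E.L l t))‖ ≤ 1 / ((n : ℝ) + 1) * (sc j : ℝ) := by
      refine (norm_sum_le _ _).trans (le_trans ?_ h6)
      refine (sum_le_sum fun t _ => y_norm D E cc w hw α t).trans (le_of_eq ?_)
      simp
    rw [h7, div_le_iff₀ hpos]
    rw [div_lt_iff₀ hpos] at h4
    refine (norm_add_le _ _).trans ?_
    have e : 2 / ((n : ℝ) + 1) * (sc j : ℝ) =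
        1 / ((n : ℝ) + 1) * (sc j : ℝ) + 1 / ((n : ℝ) + 1) * (sc j : ℝ) := by ring
    rw [e]
    exact add_le_add h4.le h8
  filter_upwards [h1] with α hα
  rw [Metric.tendsto_atTop]
  intro ε hε
  obtain ⟨n, hn⟩ := exists_nat_gt (2 / ε)
  obtain ⟨j1, hj1⟩ := hα n
  refine ⟨j1, fun j hj => ?_⟩
  have h2 := hj1 j hj
  rw [Real.dist_eq, sub_zero, abs_of_nonneg (by positivity)]
  refine lt_of_le_of_lt h2 ?_
  rw [div_lt_iff₀ (by positivity)]
  rw [div_lt_iff₀ hε] at hn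
  nlinarith

theorem mainU (D : Dat) (hP : Thick D.P) {r : ℕ} (hr : 1 ≤ r) (E : Frm r) (cc : Fin r → Bool)
    (w : ℕ → ℂ) (hw : ∀ n, ‖w n‖ ≤ 1) :
    ∀ᵐ α : ℝ, Tendsto (fun N : ℕ => (1 / (N : ℂ)) * ∑ t ∈ range N,
      w t * ∏ l, cj (cc l) (D.U α (E.L l t))) atTop (𝓝 0) := by
  have h1 : ∀ᵐ α : ℝ, ∀ T : ℕ, α ∈ Set.Icc (-(T : ℝ)) T → Tendsto (fun j : ℕ =>
      ‖∑ t ∈ range (sc j), w t * ∏ l, cj (cc l) (D.U α (E.L l t))‖ / (sc j : ℝ)) atTop (𝓝 0) := by
    rw [ae_all_iff]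
    intro T
    exact (ae_restrict_iff' measurableSet_Icc).1 (aet D hP hr E cc w hw T (Nat.cast_nonneg T))
  filter_upwards [h1] with α hα
  obtain ⟨T, hT⟩ := exists_nat_ge |α|
  have h2 := hα T ⟨by have := neg_abs_le α; linarith, (le_abs_self α).trans hT⟩
  exact gap _ (fun n => y_norm D E cc w hw α n) sc sc_pos sc_mono sc_tendsto sc_ratio h2

end Pool.H2.MT
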