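import Mathlib
import Pool.Agent.H2.MT.Cfg
import Pool.Agent.H2.EL.FinC

/-!
Module RES (30 min). The theorem: copy of `H2/EL/ResB.lean` with `ub2` replaced by `cfg` (no index `i`; the function at the place `j` is any `G j` with the prescribed values).
-/

set_option autoImplicit false

open Finset MeasureTheory Filter Topology

namespace Pool.H2.MT

open Pool.H2.EL Pool.H2.Sp

theorem resM (D : Dat) (hP : Thick D.P) (w : ℕ → ArithmeticFunction ℂ) (hw : ∀ l n, ‖w l n‖ ≤ 1) :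
    ∀ᵐ α : ℝ, ∀ (k : ℕ) (j : Fin k) (h : Fin k → ℤ) (τ : Fin k → Option ℕ),
      (∀ x, x ≠ j → h x ≠ h j) → ∀ ε : ℝ, 0 < ε → ∃ N₀ : ℕ, ∀ N : ℕ, N₀ ≤ N →
      ∀ G : Fin k → ArithmeticFunction ℂ, (G j).IsMultiplicative → (∀ n, ‖G j n‖ ≤ 1) →
      (∀ p : ℕ, p.Prime → G j p = D.fv α p) →
      (∀ x, x ≠ j → (∃ l, τ x = some l ∧ G x = w l) ∨
        (τ x = none ∧ (G x).IsMultiplicative ∧ ∀ n, ‖G x n‖ ≤ 1)) →
      ‖(1 / (N : ℂ)) * ∑ n ∈ Icc 1 N, ∏ x, G x ((n : ℤ) + h x).toNat‖ ≤ ε := by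
  classical
  have h1 : ∀ᵐ α : ℝ, ∀ z : (Σ m : ℕ, (Fin (m + 1) → ℤ) × Fin (m + 1) ×
      (Fin (m + 1) → Option ℕ) × ℕ), ∀ (H : ℕ) (δ : ℝ), 0 < δ → ∃ N₀ : ℕ, ∀ N : ℕ, N₀ ≤ N →
      ∀ f : ArithmeticFunction ℂ,
      f.IsMultiplicative → (∀ n, ‖f n‖ ≤ 1) → (∀ p : ℕ, p.Prime → f p = D.fv α p) →
      Unc (fun n => (∏ x ∈ univ.filter (fun x => x ≠ z.2.2.1 ∧ (z.2.2.2.1 x).isSome),
        w ((z.2.2.2.1 x).getD 0) (n + (z.2.1 x + z.2.2.2.2).toNat)) *
        f (n + (z.2.1 z.2.2.1 + z.2.2.2.2).toNat))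
        (z.2.1 z.2.2.1 + z.2.2.2.2).toNat H N δ := by
    rw [ae_all_iff]
    rintro ⟨m, h, j, τ, s⟩
    refine cfg D hP _ (fun n => ∏ x ∈ univ.filter (fun x => x ≠ j ∧ (τ x).isSome),
        w ((τ x).getD 0) (n + (h x + s).toNat)) (fun n => ?_)
    rw [norm_prod]
    exact prod_le_one (fun _ _ => norm_nonneg _) fun _ _ => hw _ _
  filter_upwards [h1] with α hα k j h τ hne ε hε
  rcases k with _ | m
  · exact j.elim0
  obtain ⟨H, δ, N0, s, hδ, hs, hfin⟩ := fin_core m h j hne ε hε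
  obtain ⟨N₀', hN₀'⟩ := hα ⟨m, h, j, τ, s⟩ H δ hδ
  refine ⟨max N0 N₀', fun N hN G hGm hGb hGp hG => ?_⟩
  have hb : ∀ x n, ‖G x n‖ ≤ 1 := by
    intro x n
    by_cases hx : x = j
    · rw [hx]; exact hGb n
    · rcases hG x hx with ⟨l, _, hl⟩ | ⟨_, _, hb⟩
      · rw [hl]; exact hw l n
      · exact hb n
  refine hfin N ((le_max_left _ _).trans hN) G (univ.filter (fun x => x ≠ j ∧ τ x = none))
    (by simp) hb ?_ ?_
  · intro x hx
    rw [mem_filter] at hx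
    rcases hG x hx.2.1 with ⟨l, hl, _⟩ | ⟨_, hm, _⟩
    · rw [hx.2.2] at hl
      exact absurd hl (by simp)
    · exact hm
  · have h2 := hN₀' N ((le_max_right _ _).trans hN) (G j) hGm hGb hGp
    have h3 : (fun n => ∏ x ∈ univ \ univ.filter (fun x => x ≠ j ∧ τ x = none),
        G x (n + (h x + s).toNat)) =
        fun n => (∏ x ∈ univ.filter (fun x => x ≠ j ∧ (τ x).isSome),
          w ((τ x).getD 0) (n + (h x + s).toNat)) * (G j) (n + (h j + s).toNat) := by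
      funext n
      have h4 : univ \ univ.filter (fun x => x ≠ j ∧ τ x = none) =
          insert j (univ.filter (fun x => x ≠ j ∧ (τ x).isSome)) := by
        ext x
        simp only [mem_sdiff, mem_univ, true_and, mem_filter, mem_insert, not_and]
        rcases eq_or_ne x j with hx | hx
        · simp [hx]
        · rcases hτ : τ x with _ | l <;> simp [hx, hτ]
      rw [h4, prod_insert (by simp), mul_comm]
      congr 1
      refine prod_congr rfl fun x hx => ?_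
      rw [mem_filter] at hx
      rcases hG x hx.2.1 with ⟨l, hl, hGl⟩ | ⟨hn, _, _⟩
      · rw [hGl, hl]
        rfl
      · rw [hn] at hx
        exact absurd hx.2.2 (by simp)
    rw [h3]
    exact h2

end Pool.H2.MT
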